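import Pool.Agent.W355.UN.Fwd

/-!
# Project UH (helper839): simple zeros of the heat flow.  Statement
-/

set_option autoImplicit false

open Complex MeasureTheory Filter Topology Set
open scoped ComplexConjugate

namespace Pool.Agent.TH839.UH

open Pool.Agent.W169.HF

/-- SIMP: the zeros of the heat flow on the line (theorem `Pool.Agent.W355.UN.fwd`) are simple -/
def S_SIMP : Prop := ∃ κ1 ℓ0 : ℝ, 0 < κ1 ∧ ∀ (K ℓ G t : ℝ) (f : ℂ → ℂ), 1 ≤ K → K ≤ κ1 * ℓ →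
  ℓ0 ≤ ℓ → Pool.Agent.W355.UN.UP K (1 / 2) ℓ G f → 0 < t → 2 * t * ℓ = 3 →
    heat t f 0 = 0 → deriv (heat t f) 0 ≠ 0

end Pool.Agent.TH839.UH
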