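import Pool.Agent.TH839.UH.Glob
import Pool.Agent.TH839.UH.Stm2

/-!
# Derivatives of the heat flow, uniformly in the degree: simple zeros
-/

set_option autoImplicit false

open Complex MeasureTheory Filter Topology Set
open scoped ComplexConjugate

namespace Pool.Agent.TH839.UH

open Pool.Agent.W169.HF H353.E Pool.Agent.W355.UN

/-- Case A, with simple zeros -/
theorem caseA2 (hsimp : S_SIMP) {B : ℝ → ℝ} (hB : 0 ≤ B 1) : ∃ c M : ℝ, 0 < c ∧ c ≤ 1 ∧ 1 ≤ M ∧
    ∀ (m : ℕ) (N θ : ℝ) (μ : Fin m → ℂ) (X L : ℂ → ℂ), UL m B N θ μ X L → θ ≤ 1 →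
    ∀ (S y t : ℝ) (n : ℕ), 6 ≤ S → M * m ≤ ell N μ y S → 0 < t → 2 * t * ell N μ y S = 3 * S →
      n ≤ c * (S * ell N μ y S) → ∀ x : ℝ, |x| ≤ 2 →
        heat t (iteratedDeriv n X) (1 / 2 + x + y * I) = 0 →
        x = 0 ∧ deriv (heat t (iteratedDeriv n X)) (1 / 2 + x + y * I) ≠ 0 := by
  obtain ⟨c0, M0, hc0, hc01, hM01, HA⟩ := caseA (B := B) hB
  obtain ⟨κ1, ℓ0, hκ1, H⟩ := hsimp
  refine ⟨min c0 (κ1 / 2592), max M0 (max ℓ0 (162 * (18 + B 1) / κ1)), ?_,
    (min_le_left _ _).trans hc01, hM01.trans (le_max_left _ _), ?_⟩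
  · exact lt_min hc0 (by positivity)
  intro m N θ μ X L h hθ S y t n hS hM ht h3 hn x hx2 hz
  have hm : (1 : ℝ) ≤ m := by exact_mod_cast h.hm
  have hS0 : 0 < S := by linarith
  have hM1 : 1 ≤ max M0 (max ℓ0 (162 * (18 + B 1) / κ1)) := hM01.trans (le_max_left _ _)
  have hx0 : x = 0 := by
    by_contra hx
    refine HA m N θ μ X L h hθ S y t n hS ?_ ht h3 ?_ x hx hx2 hz
    · exact (mul_le_mul_of_nonneg_right (le_max_left _ _) (by linarith)).trans hM
    · refine hn.trans (mul_le_mul_of_nonneg_right (min_le_left _ _) ?_)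
      have : 0 ≤ ell N μ y S := by
        have : 0 ≤ max M0 (max ℓ0 (162 * (18 + B 1) / κ1)) * m := by positivity
        linarith
      positivity
  refine ⟨hx0, ?_⟩
  rw [hx0] at hz ⊢
  obtain ⟨ℓ, hℓ⟩ : ∃ ℓ : ℝ, ℓ = ell N μ y S := ⟨_, rfl⟩
  obtain ⟨G, hG⟩ := upn h hθ n y hS
  rw [← hℓ] at hM h3 hn hG
  have hMm : max M0 (max ℓ0 (162 * (18 + B 1) / κ1)) ≤ ℓ := by
    refine le_trans ?_ hM
    nlinarith
  have hℓ1 : 1 ≤ ℓ := hM1.trans hMm
  have hℓ0 : ℓ0 ≤ ℓ := ((le_max_left _ _).trans (le_max_right _ _)).trans hMm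
  have hSℓ : ℓ ≤ S * ℓ := by nlinarith
  have hcm : 162 * (18 + B 1) * m ≤ κ1 * ℓ := by
    have h4 : 162 * (18 + B 1) / κ1 * m ≤ ℓ := by
      refine le_trans ?_ hM
      apply mul_le_mul_of_nonneg_right _ (by linarith)
      exact (le_max_right _ _).trans (le_max_right _ _)
    rw [div_mul_eq_mul_div, div_le_iff₀ hκ1] at h4
    linarith
  have hn' : 2592 * (n : ℝ) ≤ κ1 * (S * ℓ) := by
    have h4 : (n : ℝ) ≤ κ1 / 2592 * (S * ℓ) := by
      refine hn.trans ?_
      apply mul_le_mul_of_nonneg_right (min_le_right _ _) (by positivity)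
    linarith
  have eK : 81 * ((m * (18 + B 1) + 16 * n / S) * S) = 81 * (18 + B 1) * m * S + 1296 * n := by
    field_simp
    ring
  have e2 : 2 * (t / S ^ 2) * (S * ℓ) = 3 := by
    have : 2 * (t / S ^ 2) * (S * ℓ) = 2 * t * ℓ / S := by field_simp
    rw [this, h3]
    field_simp
  have e : ∀ u : ℂ, heat (t / S ^ 2) (fun u : ℂ => iteratedDeriv n X (1 / 2 + y * I + S * u)) u =
      heat t (iteratedDeriv n X) (1 / 2 + y * I + S * u) := fun u => heat_scale _ hS0 u
  have hf := funext e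
  have e0 : (1 / 2 + ((0 : ℝ) : ℂ) + y * I : ℂ) = 1 / 2 + y * I + S * 0 := by
    push_cast
    ring
  have hne := H _ (S * ℓ) G (t / S ^ 2) _
    (by
      rw [eK]
      have h5 : 1 ≤ (m : ℝ) * S := by nlinarith
      have h6 : (0 : ℝ) ≤ n := Nat.cast_nonneg n
      have h7 : 0 ≤ B 1 * (m * S) := by positivity
      nlinarith)
    (by
      rw [eK]
      have h5 : 162 * (18 + B 1) * m * S ≤ κ1 * ℓ * S := mul_le_mul_of_nonneg_right hcm hS0.le
      linarith)
    (hℓ0.trans hSℓ) hG (by positivity) e2 (by rw [e, ← e0]; exact hz)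
  intro h0
  apply hne
  obtain ⟨hne1, hcl0, -⟩ := steps' h hθ n
  obtain ⟨-, hcl⟩ := db_all _ _ hcl0 hne1 t ht.le
  have h1 := scale_deriv' hcl.slow.1 (1 / 2 + y * I) S 1 0
  rw [iteratedDeriv_one, iteratedDeriv_one] at h1
  rw [hf, h1, ← e0, h0, mul_zero]

/-- **Main theorem**, local form: zeros `s` of the `n`-th derivative of the heat flow with
`n + t l² ≥ C l`, where `l = m + log (analytic conductor at s)`, are on the line and simple. -/
theorem main2 (hup : S_HUP2) (hlow : S_HLOW) (hzer : S_ZER) (hcomm : S_COMM) (hsimp : S_SIMP)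
    {B : ℝ → ℝ} (hB : 0 ≤ B 1) : ∃ C : ℝ, 0 < C ∧ ∀ (m : ℕ) (N θ : ℝ) (μ : Fin m → ℂ) (X L : ℂ → ℂ),
    UL m B N θ μ X L → θ ≤ 1 → ∀ (t : ℝ) (n : ℕ) (s : ℂ), 0 ≤ t →
      C * (m + Real.log (W355.UN.cond N μ s.im)) ≤
        n + t * (m + Real.log (W355.UN.cond N μ s.im)) ^ 2 →
      iteratedDeriv n (heat t X) s = 0 → s.re = 1 / 2 ∧ iteratedDeriv (n + 1) (heat t X) s ≠ 0 := by
  obtain ⟨c, MA, hc, hc1, hMA1, HA⟩ := caseA2 hsimp (B := B) hB
  obtain ⟨X0, hX0⟩ : ∃ X0 : ℝ, X0 = 21 + 12 / c := ⟨_, rfl⟩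
  have hc12 : 0 < 12 / c := by positivity
  obtain ⟨MB, hMB1, HB⟩ := caseB hup hlow hzer (B := B) hB (X0 := X0) (by linarith)
  obtain ⟨M, hM⟩ : ∃ M : ℝ, M = MA + MB + 7 := ⟨_, rfl⟩
  obtain ⟨r, hr⟩ : ∃ r : ℝ, r = M + 8 := ⟨_, rfl⟩
  obtain ⟨S0, hS0⟩ : ∃ S0 : ℝ, S0 = 6 + 2 * Real.exp (2 * r + 10) := ⟨_, rfl⟩
  obtain ⟨S1, hS1⟩ : ∃ S1 : ℝ, S1 = 2 / c * S0 := ⟨_, rfl⟩
  have hex : 0 < Real.exp (2 * r + 10) := Real.exp_pos _
  have hS06 : 6 ≤ S0 := by rw [hS0]; linarith
  have hcS1 : c / 2 * S1 = S0 := by rw [hS1]; field_simp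
  have hS10 : 0 < S1 := by rw [hS1]; positivity
  have hS01 : S0 ≤ S1 := by rw [← hcS1]; nlinarith
  obtain ⟨C4, hC4⟩ : ∃ C4 : ℝ, C4 = 4 + Real.log (S1 + 3) := ⟨_, rfl⟩
  have hC40 : 0 < C4 := by
    have : 0 ≤ Real.log (S1 + 3) := Real.log_nonneg (by linarith)
    linarith
  refine ⟨6 * S1 + S1 * C4, by positivity, ?_⟩
  intro m N θ μ X L h hθ t n s ht hC hz
  have hm : (1 : ℝ) ≤ m := by exact_mod_cast h.hm
  have hlogN : 0 ≤ Real.log N := Real.log_nonneg h.hN
  obtain ⟨y, hy⟩ : ∃ y : ℝ, y = s.im := ⟨_, rfl⟩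
  have hcd : 0 ≤ Real.log (W355.UN.cond N μ y) := Real.log_nonneg (one_le_cond h.hN μ y)
  rw [← hy] at hC
  -- zeros are in the strip
  obtain ⟨hne, hcl0, -⟩ := steps' h hθ n
  obtain ⟨-, hcl⟩ := db_all _ _ hcl0 hne t ht
  have hcom := (hcomm X h.slow t ht n).2
  rw [← hcom] at hcl
  have h1 := hcl.zer s hz
  have h3 : 1 / 2 - (1 / 2 + θ) ≤ s.re := by
    obtain ⟨ε, hε, hfe⟩ := hcl.fe
    have hε0 : ε ≠ 0 := by
      intro h0
      rw [h0, norm_zero] at hε
      exact zero_ne_one hε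
    have h2 : iteratedDeriv n (heat t X) (1 - conj s) = 0 := by
      have h3 := hfe s
      rw [hz] at h3
      have h4 := (mul_eq_zero.1 h3.symm).resolve_left hε0
      have h5 := congrArg conj h4
      rwa [Complex.conj_conj, map_zero] at h5
    have h3 := hcl.zer _ h2
    rw [sub_re, one_re, conj_re] at h3
    linarith
  -- it suffices to have no zeros near the line
  have hkey : (∀ x : ℝ, |x| ≤ 2 → iteratedDeriv n (heat t X) (1 / 2 + x + y * I) = 0 →
      x = 0 ∧ iteratedDeriv (n + 1) (heat t X) (1 / 2 + x + y * I) ≠ 0) →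
      s.re = 1 / 2 ∧ iteratedDeriv (n + 1) (heat t X) s ≠ 0 := by
    intro H
    have e : (1 / 2 + ((s.re - 1 / 2 : ℝ) : ℂ) + y * I : ℂ) = s := by
      rw [hy]
      apply Complex.ext <;> simp
    have H2 := H (s.re - 1 / 2) (by rw [abs_le]; constructor <;> linarith) (by rw [e]; exact hz)
    rw [e] at H2
    exact ⟨by linarith [H2.1], H2.2⟩
  apply hkey
  have hge : ∀ S : ℝ, S0 ≤ S → Real.log N / 2 + m * r ≤ ell N μ y S := by
    intro S hS
    exact ell_ge_of h.re_le (by linarith) (by rw [hS0] at hS; linarith)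
  have hgeM : ∀ S : ℝ, S0 ≤ S → M * m ≤ ell N μ y S := by
    intro S hS
    have := hge S hS
    rw [hr] at this
    nlinarith
  have hge1 : ∀ S : ℝ, S0 ≤ S → 1 ≤ ell N μ y S := by
    intro S hS
    have h1 := hgeM S hS
    have h2 : 1 * 1 ≤ M * m := by
      have : 1 ≤ M := by linarith
      gcongr
    linarith
  have hgeA : ∀ S : ℝ, S0 ≤ S → MA * m ≤ ell N μ y S := by
    intro S hS
    have := hgeM S hS
    rw [hM] at this
    nlinarith
  have hgeB : ∀ S : ℝ, S0 ≤ S → MB * m ≤ ell N μ y S := by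
    intro S hS
    have := hgeM S hS
    rw [hM] at this
    nlinarith
  have hge7 : ∀ S : ℝ, S0 ≤ S → 7 * m ≤ ell N μ y S := by
    intro S hS
    have := hgeM S hS
    rw [hM] at this
    nlinarith
  -- case B at a suitable scale
  have hfinB : ∀ S : ℝ, S0 ≤ S → 2 * t * ell N μ y S ≤ X0 * S → (n : ℝ) = S * ell N μ y S →
      ∀ x : ℝ, |x| ≤ 2 → iteratedDeriv n (heat t X) (1 / 2 + x + y * I) = 0 →
        x = 0 ∧ iteratedDeriv (n + 1) (heat t X) (1 / 2 + x + y * I) ≠ 0 := by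
    intro S hS h2 hn x hx2 h0
    exact HB m N θ μ X L h hθ S y t n (by linarith) (hgeB S hS) ht h2 hn x hx2 h0
  -- growth of the slope
  have hgrow : ∀ a : ℝ, S0 ≤ a → 2 * t * ell N μ y a ≤ 3 * a → ∀ S : ℝ, a ≤ S →
      2 * t * ell N μ y S ≤ X0 * S := by
    intro a ha h2 S hS
    have ha0 : 0 < a := by linarith
    have hlip := ell_lip h y (S1 := a) (S := S) (by linarith) hS
    have h5 : 2 * t * ell N μ y S ≤ 2 * t * (ell N μ y a + 6 * m / a * (S - a)) :=
      mul_le_mul_of_nonneg_left hlip (by positivity)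
    have h6 : 2 * t * m ≤ 3 * a := by
      have h7 : 7 * m ≤ ell N μ y a := hge7 a ha
      have h8 : 2 * t * m ≤ 2 * t * ell N μ y a := by
        apply mul_le_mul_of_nonneg_left _ (by positivity)
        linarith
      linarith
    have h7 : 2 * t * (6 * m / a * (S - a)) ≤ 18 * (S - a) := by
      have e : 2 * t * (6 * m / a * (S - a)) = 6 * (2 * t * m) / a * (S - a) := by
        field_simp
      rw [e]
      apply mul_le_mul_of_nonneg_right _ (by linarith)
      rw [div_le_iff₀ ha0]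
      linarith
    have h8 : (21 + 12 / c) * S = 21 * S + 12 / c * S := by ring
    have h9 : 0 ≤ 12 / c * S := by
      have : 0 ≤ S := by linarith
      positivity
    rw [hX0, h8]
    nlinarith
  rcases le_or_gt (3 * S1) (2 * t * ell N μ y S1) with hI | hII
  · -- case I
    have ht0 : 0 < t := by
      rcases ht.eq_or_lt with h0 | h0
      · exfalso
        rw [← h0] at hI
        simp only [mul_zero, zero_mul] at hI
        linarith
      · exact h0
    obtain ⟨S, hS, hS3⟩ := exists_scale h ht0 (by linarith) hI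
    have hSp : 0 < S := by linarith
    have hSS0 : S0 ≤ S := hS01.trans hS
    rcases le_or_gt (n : ℝ) (c * (S * ell N μ y S)) with hn | hn
    · intro x hx2
      rw [iteratedDeriv_succ, hcom]
      exact HA m N θ μ X L h hθ S y t n (by linarith) (hgeA S hSS0) ht0 hS3 hn x hx2
    · rcases le_or_gt (S * ell N μ y S) n with hn2 | hn2
      · obtain ⟨S', hS', hn'⟩ := ivt2 h (a := S) (by linarith)
          (fun T hT => hge1 T (hSS0.trans hT)) hn2
        exact hfinB S' (hSS0.trans hS') (hgrow S hSS0 hS3.le S' hS') hn'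
      · obtain ⟨a, ha⟩ : ∃ a : ℝ, a = c / 2 * S := ⟨_, rfl⟩
        have haS0 : S0 ≤ a := by
          rw [ha, ← hcS1]
          apply mul_le_mul_of_nonneg_left hS (by positivity)
        have haS : a ≤ S := by rw [ha]; nlinarith
        have hmo : ell N μ y a ≤ 2 * ell N μ y S := by
          have h5 := ell_mono (N := N) (μ := μ) h.re_le (y := y) (S2 := a) (S := S) (by linarith) haS
          have h6 := hge7 S hSS0
          linarith
        have hphi : a * ell N μ y a ≤ n := by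
          have h5 : a * ell N μ y a ≤ a * (2 * ell N μ y S) :=
            mul_le_mul_of_nonneg_left hmo (by linarith)
          have h6 : a * (2 * ell N μ y S) = c * (S * ell N μ y S) := by rw [ha]; ring
          linarith
        obtain ⟨S', hS', hS'2, hn'⟩ := ivt1 h (by linarith) haS hphi hn2.le
        refine hfinB S' (haS0.trans hS') ?_ hn'
        have h5 := ell_mono (N := N) (μ := μ) h.re_le (y := y) (S2 := S') (S := S)
          (by linarith) hS'2
        have h6 := hge7 S hSS0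
        have h7 : 2 * t * ell N μ y S' ≤ 2 * t * (2 * ell N μ y S) := by
          apply mul_le_mul_of_nonneg_left _ (by positivity)
          linarith
        have h8 : 2 * t * (2 * ell N μ y S) = 6 * S := by linarith
        have h9 : 6 * S ≤ 12 / c * S' := by
          rw [ha] at hS'
          have : 12 / c * (c / 2 * S) ≤ 12 / c * S' := mul_le_mul_of_nonneg_left hS' hc12.le
          have e : 12 / c * (c / 2 * S) = 6 * S := by field_simp; ring
          linarith
        rw [hX0]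
        nlinarith
  · -- case II
    have h2 := hge S1 hS01
    have h4 := ell_ge h.hN h.re_le (y := y) (S := S1) (by linarith)
    have h5 : (m + Real.log (W355.UN.cond N μ y)) / 4 ≤ ell N μ y S1 := by
      rw [hr] at h2
      have : 0 ≤ M := by linarith
      nlinarith
    obtain ⟨l, hl⟩ : ∃ l : ℝ, l = m + Real.log (W355.UN.cond N μ y) := ⟨_, rfl⟩
    rw [← hl] at h5 hC
    have hl0 : 0 < l := by linarith
    have h6 : ell N μ y S1 ≤ C4 * l := by
      rw [hC4, hl]
      exact ell_le h.hN h.re_le (by linarith)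
    have h7 : t * l ≤ 6 * S1 := by
      have h8 : 2 * t * (l / 4) ≤ 2 * t * ell N μ y S1 := mul_le_mul_of_nonneg_left h5 (by positivity)
      linarith
    have h8 : t * l ^ 2 ≤ 6 * S1 * l := by
      have : t * l * l ≤ 6 * S1 * l := mul_le_mul_of_nonneg_right h7 hl0.le
      nlinarith
    have h9 : S1 * ell N μ y S1 ≤ n := by
      have h10 : S1 * ell N μ y S1 ≤ S1 * (C4 * l) := mul_le_mul_of_nonneg_left h6 hS10.le
      have e : (6 * S1 + S1 * C4) * l = 6 * S1 * l + S1 * (C4 * l) := by ring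
      linarith
    obtain ⟨S', hS', hn'⟩ := ivt2 h (a := S1) (by linarith)
      (fun T hT => hge1 T (hS01.trans hT)) h9
    exact hfinB S' (hS01.trans hS') (hgrow S1 hS01 hII.le S' hS') hn'

end Pool.Agent.TH839.UH
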