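import Pool.Agent.TH839.UH.KL
import Pool.Agent.TH839.UH.Glob2
import Pool.Agent.TH761.UH.Hup
import Pool.Agent.TH71.UH.HLowM
import Pool.Agent.TH194.UH.Zer
import Pool.Agent.TH194.UH.Comm
import Pool.Agent.TH921.SIMP

/-!
# Derivatives of the heat flow, uniformly in the degree: final form
-/

set_option autoImplicit false

open Complex Filter Topology NumberField IsDedekindDomain Set
open scoped ComplexConjugate

namespace Pool.Agent.TH839.UH

open Pool.Agent.H921R2.TatePole Pool.Agent.W169.HF H353.E Pool.Agent.W355.UN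

/-- the main theorem, with everything proved -/
theorem main_all {B : ℝ → ℝ} (hB : 0 ≤ B 1) : ∃ C : ℝ, 0 < C ∧ ∀ (m : ℕ) (N θ : ℝ) (μ : Fin m → ℂ)
    (X L : ℂ → ℂ), UL m B N θ μ X L → θ ≤ 1 → ∀ (t : ℝ) (n : ℕ) (s : ℂ), 0 ≤ t →
      C * (m + Real.log (W355.UN.cond N μ s.im)) ≤
        n + t * (m + Real.log (W355.UN.cond N μ s.im)) ^ 2 →
      iteratedDeriv n (heat t X) s = 0 → s.re = 1 / 2 ∧ iteratedDeriv (n + 1) (heat t X) s ≠ 0 :=
  main2 Pool.Agent.TH761.UH.hup2 Pool.Agent.TH71.UH.hlow Pool.Agent.TH194.UH.zer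
    Pool.Agent.TH194.UH.comm Pool.Agent.TH921.SIMP.simp hB

section
variable {K : Type} [Field K] [NumberField K]
variable {a δ : HeightOneSpectrum (𝓞 K) → ℂ} {A : ℝ} {Λ : ℂ → ℂ}

variable (K) in
/-- degree plus logarithm of the analytic conductor at height `y` -/
noncomputable def lK (A y : ℝ) : ℝ := dg K + Real.log (A * (1 + |y|) ^ (2 * dg K))

lemma cond_mu (A : ℝ) (n : ℕ) (y : ℝ) : W355.UN.cond A (mu n) y =
    A * ((1 + ‖(y : ℂ) * I + 1 / 2‖) ^ n * (1 + ‖(y : ℂ) * I + 3 / 2‖) ^ n) := by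
  unfold W355.UN.cond mu
  rw [Fin.prod_univ_add]
  simp only [Fin.append_left, Fin.append_right, Finset.prod_const, Finset.card_univ, Fintype.card_fin]
  have e1 : (y : ℂ) * I - -1 / 2 = y * I + 1 / 2 := by ring
  have e2 : (y : ℂ) * I - -3 / 2 = y * I + 3 / 2 := by ring
  rw [e1, e2]

lemma im_le (y c : ℝ) : |y| ≤ ‖(y : ℂ) * I + c‖ ∧ ‖(y : ℂ) * I + c‖ ≤ |y| + |c| := by
  constructor
  · have := Complex.abs_im_le_norm ((y : ℂ) * I + c)
    simpa using this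
  · refine (norm_add_le _ _).trans ?_
    rw [norm_mul, Complex.norm_I, mul_one, Complex.norm_real, Complex.norm_real, Real.norm_eq_abs,
      Real.norm_eq_abs]

lemma l_cmp (hA : 1 ≤ A) (y : ℝ) : 1 ≤ lK K A y ∧
    lK K A y ≤ ((dg K + dg K : ℕ) : ℝ) + Real.log (W355.UN.cond A (mu (dg K)) y) ∧
    ((dg K + dg K : ℕ) : ℝ) + Real.log (W355.UN.cond A (mu (dg K)) y) ≤ 4 * lK K A y := by
  have hA0 : 0 < A := by linarith
  have hn : (1 : ℝ) ≤ dg K := by exact_mod_cast dg_pos (K := K)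
  obtain ⟨a1, a2⟩ := im_le y (1 / 2)
  obtain ⟨b1, b2⟩ := im_le y (3 / 2)
  rw [abs_of_pos (by norm_num : (0 : ℝ) < 1 / 2)] at a2
  rw [abs_of_pos (by norm_num : (0 : ℝ) < 3 / 2)] at b2
  push_cast at a1 a2 b1 b2
  have hy := abs_nonneg y
  have hlogA : 0 ≤ Real.log A := Real.log_nonneg hA
  have hly : 0 ≤ Real.log (1 + |y|) := Real.log_nonneg (by linarith)
  have e1 : Real.log (A * (1 + |y|) ^ (2 * dg K)) = Real.log A + 2 * dg K * Real.log (1 + |y|) := by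
    rw [Real.log_mul hA0.ne' (by positivity), Real.log_pow]
    push_cast
    ring
  have e2 : Real.log (W355.UN.cond A (mu (dg K)) y) = Real.log A +
      (dg K * Real.log (1 + ‖(y : ℂ) * I + 1 / 2‖) + dg K * Real.log (1 + ‖(y : ℂ) * I + 3 / 2‖)) := by
    rw [cond_mu, Real.log_mul hA0.ne' (by positivity), Real.log_mul (by positivity) (by positivity),
      Real.log_pow, Real.log_pow]
  have c1 : Real.log (1 + |y|) ≤ Real.log (1 + ‖(y : ℂ) * I + 1 / 2‖) :=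
    Real.log_le_log (by linarith) (by linarith)
  have c2 : Real.log (1 + |y|) ≤ Real.log (1 + ‖(y : ℂ) * I + 3 / 2‖) :=
    Real.log_le_log (by linarith) (by linarith)
  have hup : ∀ x : ℝ, 0 < 1 + x → x ≤ |y| + 3 / 2 → Real.log (1 + x) ≤ Real.log (1 + |y|) + 1 := by
    intro x h0 hx
    have h1 : 1 + x ≤ (1 + |y|) * (5 / 2) := by linarith
    have h2 : Real.log (5 / 2 : ℝ) ≤ 1 := by
      rw [Real.log_le_iff_le_exp (by norm_num)]
      have := Real.exp_one_gt_d9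
      linarith
    have h3 := Real.log_le_log h0 h1
    rw [Real.log_mul (by positivity) (by norm_num)] at h3
    linarith
  have d1 := hup ‖(y : ℂ) * I + 1 / 2‖ (by positivity) (by linarith)
  have d2 := hup ‖(y : ℂ) * I + 3 / 2‖ (by positivity) (by linarith)
  have f1 : (dg K : ℝ) * Real.log (1 + |y|) ≤ dg K * Real.log (1 + ‖(y : ℂ) * I + 1 / 2‖) := by gcongr
  have f2 : (dg K : ℝ) * Real.log (1 + |y|) ≤ dg K * Real.log (1 + ‖(y : ℂ) * I + 3 / 2‖) := by gcongr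
  have f3 : (dg K : ℝ) * Real.log (1 + ‖(y : ℂ) * I + 1 / 2‖) ≤
      dg K * (Real.log (1 + |y|) + 1) := by gcongr
  have f4 : (dg K : ℝ) * Real.log (1 + ‖(y : ℂ) * I + 3 / 2‖) ≤
      dg K * (Real.log (1 + |y|) + 1) := by gcongr
  have f5 : 0 ≤ (dg K : ℝ) * Real.log (1 + |y|) := by positivity
  unfold lK
  rw [e1, e2]
  push_cast
  refine ⟨by nlinarith, by linarith, by linarith⟩

lemma heat_shift {X Λ : ℂ → ℂ} {c : ℂ} (hX : ∀ z, X z = c * Λ (z + 1 / 2)) (hc : c ≠ 0) (t : ℝ) :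
    heat t Λ = fun w => c⁻¹ * heat t X (w + (-(1 / 2))) := by
  funext w
  unfold heat
  rw [← mul_assoc, mul_comm c⁻¹, mul_assoc]
  congr 1
  rw [← MeasureTheory.integral_const_mul]
  congr 1
  funext v
  rw [hX]
  have e : w + -(1 / 2) + ((2 * Real.sqrt t * v : ℝ) : ℂ) + 1 / 2 =
      w + ((2 * Real.sqrt t * v : ℝ) : ℂ) := by ring
  rw [e]
  field_simp

lemma deriv_shift {X Λ : ℂ → ℂ} {c : ℂ} (hX : ∀ z, X z = c * Λ (z + 1 / 2)) (hc : c ≠ 0) {t : ℝ}
    (hd : Differentiable ℂ (heat t X)) (n : ℕ) (s : ℂ) :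
    iteratedDeriv n (heat t Λ) s = c⁻¹ * iteratedDeriv n (heat t X) (s - 1 / 2) := by
  rw [heat_shift hX hc t]
  have h1 : ContDiffAt ℂ n (fun w => heat t X (w + (-(1 / 2)))) s :=
    (hd.comp (by fun_prop : Differentiable ℂ fun w : ℂ => w + -(1 / 2))).contDiff.contDiffAt
  rw [iteratedDeriv_const_mul c⁻¹ h1, iteratedDeriv_comp_add_const]
  simp only [← sub_eq_add_neg]

/-- **Final theorem** for Euler products of degree two over number fields. -/
theorem kl_all : ∃ C : ℝ, 0 < C ∧ ∀ (K : Type) [Field K] [NumberField K]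
    (a δ : HeightOneSpectrum (𝓞 K) → ℂ) (A : ℝ) (Λ : ℂ → ℂ), KL a δ A Λ →
    (∀ (n : ℕ) (t : ℝ) (s : ℂ), 0 ≤ t → C * lK K A s.im ≤ n + t * lK K A s.im ^ 2 →
      iteratedDeriv n (heat t Λ) s = 0 → s.re = 1 ∧ iteratedDeriv (n + 1) (heat t Λ) s ≠ 0) ∧
    (∀ (n : ℕ) (t : ℝ), 0 ≤ t → C ≤ n * t → ∀ s : ℂ,
      iteratedDeriv n (heat t Λ) s = 0 → s.re = 1 ∧ iteratedDeriv (n + 1) (heat t Λ) s ≠ 0) ∧
    (∀ (n : ℕ) (t : ℝ), 0 ≤ t → C ≤ t * (dg K + Real.log A) → ∀ s : ℂ,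
      iteratedDeriv n (heat t Λ) s = 0 → s.re = 1 ∧ iteratedDeriv (n + 1) (heat t Λ) s ≠ 0) ∧
    ((∀ s : ℂ, Λ s = 0 → s.re = 1) ↔ ∀ (n : ℕ) (t : ℝ) (s : ℂ), 0 < t →
      n + t * lK K A s.im ^ 2 < C * lK K A s.im → iteratedDeriv n (heat t Λ) s = 0 → s.re = 1) := by
  obtain ⟨C0, hC0, H⟩ := main_all (B := fun _ => 4 * NF.B0) (by
    have := NF.B0_nonneg
    show 0 ≤ 4 * NF.B0
    linarith)
  obtain ⟨C, hCd⟩ : ∃ C : ℝ, C = 4 * C0 + 4 * C0 ^ 2 := ⟨_, rfl⟩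
  have hC4 : 4 * C0 ≤ C := by rw [hCd]; nlinarith
  refine ⟨C, by rw [hCd]; positivity, ?_⟩
  intro K _ _ a δ A Λ h
  have hul := h.ul
  have hcst := cst_pos h
  obtain ⟨c, hc⟩ : ∃ c : ℂ, c = ((2 ^ dg K * A ^ (-(1 / 4 : ℝ)) : ℝ) : ℂ) := ⟨_, rfl⟩
  have hc0 : c ≠ 0 := by rw [hc]; exact_mod_cast hcst.ne'
  have hX : ∀ z, NX K A Λ z = c * Λ (z + 1 / 2) := fun z => by rw [hc]; rfl
  have hdiff : ∀ t : ℝ, 0 ≤ t → Differentiable ℂ (heat t (NX K A Λ)) := fun t ht =>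
    (db_all _ _ hul.cl hul.nontriv t ht).2.slow.1
  have hder := fun (t : ℝ) (ht : 0 ≤ t) (n : ℕ) (s : ℂ) => deriv_shift hX hc0 (hdiff t ht) n s
  have hz : ∀ (t : ℝ), 0 ≤ t → ∀ (n : ℕ) (s : ℂ), iteratedDeriv n (heat t Λ) s = 0 →
      iteratedDeriv n (heat t (NX K A Λ)) (s - 1 / 2) = 0 := by
    intro t ht n s hs
    rw [hder t ht] at hs
    exact (mul_eq_zero.1 hs).resolve_left (inv_ne_zero hc0)
  have him : ∀ s : ℂ, (s - 1 / 2).im = s.im := fun s => by simp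
  have hre : ∀ s : ℂ, (s - 1 / 2).re = s.re - 1 / 2 := fun s => by simp
  have key : ∀ (n : ℕ) (t : ℝ) (s : ℂ), 0 ≤ t → 4 * C0 * lK K A s.im ≤ n + t * lK K A s.im ^ 2 →
      iteratedDeriv n (heat t Λ) s = 0 → s.re = 1 ∧ iteratedDeriv (n + 1) (heat t Λ) s ≠ 0 := by
    intro n t s ht hl hs
    obtain ⟨l1, l2, l3⟩ := l_cmp (K := K) h.one_le s.im
    obtain ⟨r1, r2⟩ := H _ A 1 (mu (dg K)) _ _ hul le_rfl t n (s - 1 / 2) ht (by
      rw [him]
      have h1 : lK K A s.im ^ 2 ≤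
          (((dg K + dg K : ℕ) : ℝ) + Real.log (W355.UN.cond A (mu (dg K)) s.im)) ^ 2 := by
        gcongr
      have h2 : t * lK K A s.im ^ 2 ≤
          t * (((dg K + dg K : ℕ) : ℝ) + Real.log (W355.UN.cond A (mu (dg K)) s.im)) ^ 2 := by
        gcongr
      have h3 : C0 * (((dg K + dg K : ℕ) : ℝ) + Real.log (W355.UN.cond A (mu (dg K)) s.im)) ≤
          C0 * (4 * lK K A s.im) := by gcongr
      linarith) (hz t ht n s hs)
    refine ⟨?_, ?_⟩
    · rw [hre] at r1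
      linarith
    · rw [hder t ht]
      exact mul_ne_zero (inv_ne_zero hc0) r2
  have hl0 : ∀ y : ℝ, dg K + Real.log A ≤ lK K A y := by
    intro y
    have hA0 : 0 < A := by linarith [h.one_le]
    unfold lK
    have : Real.log A ≤ Real.log (A * (1 + |y|) ^ (2 * dg K)) := by
      apply Real.log_le_log hA0
      have h1 : (1 : ℝ) ≤ (1 + |y|) ^ (2 * dg K) := one_le_pow₀ (by linarith [abs_nonneg y])
      nlinarith
    linarith
  refine ⟨?_, ?_, ?_, ?_⟩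
  · intro n t s ht hl hs
    obtain ⟨l1, -, -⟩ := l_cmp (K := K) h.one_le s.im
    refine key n t s ht ?_ hs
    have : 4 * C0 * lK K A s.im ≤ C * lK K A s.im := by gcongr
    linarith
  · intro n t ht hnt s hs
    obtain ⟨l1, -, -⟩ := l_cmp (K := K) h.one_le s.im
    refine key n t s ht ?_ hs
    obtain ⟨l, hl⟩ : ∃ l : ℝ, l = lK K A s.im := ⟨_, rfl⟩
    rw [← hl] at l1 ⊢
    have h1 : (2 * C0) ^ 2 ≤ n * t := by
      rw [hCd] at hnt
      nlinarith
    have h2 : (0 : ℝ) ≤ n := Nat.cast_nonneg n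
    have h3 : 0 ≤ t * l ^ 2 := by positivity
    have h4 : (4 * C0 * l) ^ 2 ≤ (n + t * l ^ 2) ^ 2 := by
      have e1 : (4 * C0 * l) ^ 2 = 4 * (2 * C0) ^ 2 * l ^ 2 := by ring
      have e2 : (n + t * l ^ 2) ^ 2 = (n - t * l ^ 2) ^ 2 + 4 * (n * t) * l ^ 2 := by ring
      rw [e1, e2]
      have h5 : 4 * (2 * C0) ^ 2 * l ^ 2 ≤ 4 * (n * t) * l ^ 2 := by gcongr
      nlinarith [sq_nonneg (n - t * l ^ 2)]
    exact (sq_le_sq₀ (by positivity) (by positivity)).1 h4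
  · intro n t ht hnt s hs
    obtain ⟨l1, -, -⟩ := l_cmp (K := K) h.one_le s.im
    refine key n t s ht ?_ hs
    have h1 := hl0 s.im
    have h2 : C ≤ t * lK K A s.im := hnt.trans (mul_le_mul_of_nonneg_left h1 ht)
    have h3 : C * lK K A s.im ≤ t * lK K A s.im * lK K A s.im := by gcongr
    have h4 : (0 : ℝ) ≤ n := Nat.cast_nonneg n
    have h5 : 4 * C0 * lK K A s.im ≤ C * lK K A s.im := by gcongr
    nlinarith
  · constructor
    · intro hR n t s ht _ hs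
      have hR' : ∀ z : ℂ, NX K A Λ z = 0 → z.re = 1 / 2 := by
        intro z hz0
        rw [hX] at hz0
        have h1 := hR _ ((mul_eq_zero.1 hz0).resolve_left hc0)
        have e : (z + 1 / 2).re = z.re + 1 / 2 := by simp
        rw [e] at h1
        linarith
      have h1 := rh_down Pool.Agent.TH194.UH.comm hul le_rfl hR' ht.le n (hz t ht.le n s hs)
      rw [hre] at h1
      linarith
    · intro hsm s hs
      have h1 := (W355.UN.rh_iff hul (T := 1) one_pos).2 (by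
        intro t ht _ z hz0
        have e : iteratedDeriv 0 (heat t Λ) (z + 1 / 2) = 0 := by
          rw [hder t ht.le, add_sub_cancel_right, iteratedDeriv_zero, hz0, mul_zero]
        have e2 : (z + 1 / 2).re = z.re + 1 / 2 := by simp
        rcases lt_or_ge (((0 : ℕ) : ℝ) + t * lK K A (z + 1 / 2).im ^ 2) (C * lK K A (z + 1 / 2).im)
          with h2 | h2
        · have h3 := hsm 0 t (z + 1 / 2) ht h2 e
          rw [e2] at h3
          linarith
        · obtain ⟨l1, -, -⟩ := l_cmp (K := K) h.one_le (z + 1 / 2).im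
          have h3 := (key 0 t (z + 1 / 2) ht.le (by
            have : 4 * C0 * lK K A (z + 1 / 2).im ≤ C * lK K A (z + 1 / 2).im := by gcongr
            linarith) e).1
          rw [e2] at h3
          linarith) (s - 1 / 2) (by rw [hX, sub_add_cancel, hs, mul_zero])
      rw [hre] at h1
      linarith

end

end Pool.Agent.TH839.UH
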