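import Pool.Agent.TH839.UH.Fin
import Pool.Agent.TH839.NA.Inst

/-!
# Derivatives of the heat flow of automorphic L-functions: final form
-/

set_option autoImplicit false

open Complex Filter Topology Set
open scoped ComplexConjugate

namespace Pool.Agent.TH839.UH

open H353.E Pool.Agent.W355.UN Pool.Agent.TH839.NA
open Pool.Agent.W169.HF (heat db_all)

/-- the statements on the derivatives of the heat flow; `cn` is the analytic conductor -/
structure ResD (C : ℝ) (d : ℕ) (N : ℝ) (cn : ℝ → ℝ) (X : ℂ → ℂ) : Prop where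
  loc : ∀ (n : ℕ) (t : ℝ) (s : ℂ), 0 ≤ t →
      C * (d + Real.log (cn s.im)) ≤ n + t * (d + Real.log (cn s.im)) ^ 2 →
      iteratedDeriv n (heat t X) s = 0 → s.re = 1 / 2 ∧ iteratedDeriv (n + 1) (heat t X) s ≠ 0
  hyp : ∀ (n : ℕ) (t : ℝ), 0 ≤ t → C ≤ n * t → ∀ s : ℂ,
      iteratedDeriv n (heat t X) s = 0 → s.re = 1 / 2 ∧ iteratedDeriv (n + 1) (heat t X) s ≠ 0
  con : ∀ (n : ℕ) (t : ℝ), 0 ≤ t → C ≤ t * (d + Real.log N) → ∀ s : ℂ,
      iteratedDeriv n (heat t X) s = 0 → s.re = 1 / 2 ∧ iteratedDeriv (n + 1) (heat t X) s ≠ 0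
  iff : (∀ s : ℂ, X s = 0 → s.re = 1 / 2) ↔ ∀ (n : ℕ) (t : ℝ) (s : ℂ), 0 < t →
      n + t * (d + Real.log (cn s.im)) ^ 2 < C * (d + Real.log (cn s.im)) →
      iteratedDeriv n (heat t X) s = 0 → s.re = 1 / 2

theorem resD_of {C0 : ℝ} (hC0 : 0 < C0) {m : ℕ} {B : ℝ → ℝ} {N θ : ℝ} {μ : Fin m → ℂ}
    {X L : ℂ → ℂ} {cn : ℝ → ℝ}
    (H : ∀ (t : ℝ) (n : ℕ) (s : ℂ), 0 ≤ t →
      C0 * (m + Real.log (W355.UN.cond N μ s.im)) ≤
        n + t * (m + Real.log (W355.UN.cond N μ s.im)) ^ 2 →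
      iteratedDeriv n (heat t X) s = 0 → s.re = 1 / 2 ∧ iteratedDeriv (n + 1) (heat t X) s ≠ 0)
    (hul : UL m B N θ μ X L) (hθ : θ ≤ 1) (hcn : ∀ y, W355.UN.cond N μ y = cn y)
    (hle : ∀ y, N ≤ cn y) :
    ResD (C0 + C0 ^ 2) m N cn X := by
  obtain ⟨C, hCd⟩ : ∃ C : ℝ, C = C0 + C0 ^ 2 := ⟨_, rfl⟩
  rw [← hCd]
  have hC4 : C0 ≤ C := by rw [hCd]; nlinarith
  simp only [hcn] at H
  have hm : (1 : ℝ) ≤ m := by exact_mod_cast hul.hm
  have hN0 : 0 < N := by linarith [hul.hN]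
  have hlN := Real.log_nonneg hul.hN
  have hl0 : ∀ y, (m : ℝ) + Real.log N ≤ m + Real.log (cn y) := fun y => by
    have := Real.log_le_log hN0 (hle y)
    linarith
  have hl1 : ∀ y, 1 ≤ (m : ℝ) + Real.log (cn y) := fun y => by
    have := hl0 y
    linarith
  refine ⟨?_, ?_, ?_, ?_⟩
  · intro n t s ht hl hs
    have l1 := hl1 s.im
    refine H t n s ht ?_ hs
    have : C0 * (m + Real.log (cn s.im)) ≤ C * (m + Real.log (cn s.im)) := by gcongr
    linarith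
  · intro n t ht hnt s hs
    have l1 := hl1 s.im
    refine H t n s ht ?_ hs
    obtain ⟨l, hl⟩ : ∃ l : ℝ, l = m + Real.log (cn s.im) := ⟨_, rfl⟩
    rw [← hl] at l1 ⊢
    have h1 : C0 ^ 2 ≤ n * t := by
      rw [hCd] at hnt
      nlinarith
    have h2 : (0 : ℝ) ≤ n := Nat.cast_nonneg n
    have h3 : 0 ≤ t * l ^ 2 := by positivity
    have h4 : (C0 * l) ^ 2 ≤ (n + t * l ^ 2) ^ 2 := by
      have e2 : (n + t * l ^ 2) ^ 2 = (n - t * l ^ 2) ^ 2 + 4 * ((n * t) * l ^ 2) := by ring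
      have h5 : C0 ^ 2 * l ^ 2 ≤ n * t * l ^ 2 := by gcongr
      have h6 : 0 ≤ n * t * l ^ 2 := by positivity
      rw [e2, mul_pow]
      nlinarith [sq_nonneg (n - t * l ^ 2)]
    exact (sq_le_sq₀ (by positivity) (by positivity)).1 h4
  · intro n t ht hnt s hs
    have l1 := hl1 s.im
    refine H t n s ht ?_ hs
    have h1 := hl0 s.im
    have h2 : C ≤ t * (m + Real.log (cn s.im)) := hnt.trans (mul_le_mul_of_nonneg_left h1 ht)
    have h3 : C * (m + Real.log (cn s.im)) ≤ t * (m + Real.log (cn s.im)) *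
      (m + Real.log (cn s.im)) := by gcongr
    have h4 : (0 : ℝ) ≤ n := Nat.cast_nonneg n
    have h5 : C0 * (m + Real.log (cn s.im)) ≤ C * (m + Real.log (cn s.im)) := by gcongr
    nlinarith
  · constructor
    · intro hR n t s ht _ hs
      exact rh_down Pool.Agent.TH194.UH.comm hul hθ hR ht.le n hs
    · intro hsm
      refine (W355.UN.rh_iff hul (T := 1) one_pos).2 fun t ht _ z hz0 => ?_
      have e : iteratedDeriv 0 (heat t X) z = 0 := by rw [iteratedDeriv_zero, hz0]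
      rcases lt_or_ge (((0 : ℕ) : ℝ) + t * (m + Real.log (cn z.im)) ^ 2)
        (C * (m + Real.log (cn z.im))) with h2 | h2
      · exact hsm 0 t z ht h2 e
      · have l1 := hl1 z.im
        refine (H t 0 z ht.le ?_ e).1
        have : C0 * (m + Real.log (cn z.im)) ≤ C * (m + Real.log (cn z.im)) := by gcongr
        linarith

/-- **Final theorem** for L-functions with Euler products and Satake parameters at most `p^θ`,
`θ ≤ 1` -/
theorem finD : ∃ C : ℝ, 0 < C ∧ ∀ (θ : ℝ) (d : ℕ) (N : ℝ) (cn : ℝ → ℝ) (G X : ℂ → ℂ),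
    PkT θ d N cn G X → θ ≤ 1 → ResD C d N cn X := by
  obtain ⟨C0, hC0, H⟩ := main_all (B := Bst) (Bst_nonneg 1)
  refine ⟨C0 + C0 ^ 2, by positivity, fun θ d N cn G X h hθ => ?_⟩
  have hle := h.le_cn
  obtain ⟨μ, L, u, e, -⟩ := h
  exact resD_of hC0 (H _ _ _ _ _ _ u hθ) u hθ e hle

end Pool.Agent.TH839.UH
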