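import Pool.Agent.TH839.UH.HWF

/-!
# Tools for Hasse-Weil L-functions: reciprocal roots, lists of parameters, real structure
-/

set_option autoImplicit false

open Complex Filter Topology Set Polynomial
open scoped ComplexConjugate

namespace Pool.Agent.TH839.UH.Coh

open Pool.Agent.TH839.UH

/-- the reciprocal roots of a polynomial with constant term one -/
theorem roots (b : ℕ) : ∀ P : ℂ[X], P.coeff 0 = 1 → P.natDegree ≤ b →
    ∃ α : Fin b → ℂ, (∀ z : ℂ, P.eval z = ∏ j, (1 - α j * z)) ∧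
      ∀ j, α j = 0 ∨ (α j ≠ 0 ∧ P.eval (α j)⁻¹ = 0) := by
  induction b with
  | zero =>
    intro P h0 hd
    refine ⟨fun j => j.elim0, fun z => ?_, fun j => j.elim0⟩
    rw [Polynomial.eq_C_of_natDegree_le_zero hd, h0]
    simp
  | succ b ih =>
    intro P h0 hd
    rcases Nat.eq_zero_or_pos P.natDegree with h | h
    · obtain ⟨α, h1, h2⟩ := ih P h0 (by omega)
      refine ⟨Fin.cons 0 α, fun z => ?_, fun j => ?_⟩
      · rw [Fin.prod_univ_succ]
        simp only [Fin.cons_zero, Fin.cons_succ, zero_mul, sub_zero, one_mul]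
        exact h1 z
      · refine Fin.cases ?_ (fun j => ?_) j
        · left; rfl
        · simp only [Fin.cons_succ]
          exact h2 j
    · have hdeg : P.degree ≠ 0 := by
        intro h3
        rw [Polynomial.natDegree_eq_of_degree_eq_some h3] at h
        exact lt_irrefl _ h
      obtain ⟨z0, hz0⟩ := IsAlgClosed.exists_root P hdeg
      have hP : P ≠ 0 := by
        rintro rfl
        simp at h0
      have hz : z0 ≠ 0 := by
        rintro rfl
        rw [Polynomial.IsRoot.def, ← Polynomial.coeff_zero_eq_eval_zero, h0] at hz0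
        exact one_ne_zero hz0
      obtain ⟨Q, hQ⟩ := Polynomial.dvd_iff_isRoot.2 hz0
      have hQ0 : Q ≠ 0 := by
        rintro rfl
        rw [mul_zero] at hQ
        exact hP hQ
      have hdQ : P.natDegree = 1 + Q.natDegree := by
        rw [hQ, Polynomial.natDegree_mul (Polynomial.X_sub_C_ne_zero z0) hQ0,
          Polynomial.natDegree_X_sub_C]
      have hc0 : (Polynomial.C (-z0) * Q).coeff 0 = 1 := by
        rw [Polynomial.coeff_zero_eq_eval_zero] at h0 ⊢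
        rw [hQ] at h0
        simpa using h0
      obtain ⟨α, h1, h2⟩ := ih (Polynomial.C (-z0) * Q) hc0 (by
        refine (Polynomial.natDegree_C_mul_le _ _).trans ?_
        omega)
      refine ⟨Fin.cons z0⁻¹ α, fun z => ?_, fun j => ?_⟩
      · rw [Fin.prod_univ_succ]
        simp only [Fin.cons_zero, Fin.cons_succ]
        rw [← h1 z, hQ]
        simp only [eval_mul, eval_sub, eval_X, eval_C]
        field_simp
        ring
      · refine Fin.cases ?_ (fun j => ?_) j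
        · right
          simp only [Fin.cons_zero, inv_inv]
          exact ⟨inv_ne_zero hz, hz0⟩
        · simp only [Fin.cons_succ]
          rcases h2 j with h3 | ⟨h3, h4⟩
          · exact Or.inl h3
          · refine Or.inr ⟨h3, ?_⟩
            rw [hQ]
            simp only [eval_mul, eval_C] at h4 ⊢
            rw [(mul_eq_zero.1 h4).resolve_left (neg_ne_zero.2 hz), mul_zero]

/-- the list of parameters -/
noncomputable def shl (i : ℕ) (h : ℕ → ℕ) (a b : ℕ) : List ℂ :=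
  ((List.range ((i + 1) / 2)).flatMap fun p : ℕ => List.replicate (h p) ((i : ℂ) / 2 - p) ++
    List.replicate (h p) ((i : ℂ) / 2 - p + 1)) ++
    (if Even i then List.replicate a 0 ++ List.replicate b 1 else [])

theorem shl_prod (i : ℕ) (h : ℕ → ℕ) (a b : ℕ) {M : Type} [CommMonoid M] (f : ℂ → M) :
    ((shl i h a b).map f).prod =
      (∏ p ∈ Finset.range ((i + 1) / 2), (f ((i : ℂ) / 2 - p) * f ((i : ℂ) / 2 - p + 1)) ^ h p) *
        (if Even i then f 0 ^ a * f 1 ^ b else 1) := by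
  unfold shl
  rw [List.map_append, List.prod_append]
  congr 1
  · generalize (i + 1) / 2 = n
    induction n with
    | zero => simp
    | succ n ih =>
      rw [List.range_succ, Finset.prod_range_succ, ← ih]
      simp only [List.flatMap_append, List.map_append, List.prod_append, List.flatMap_singleton,
        List.map_replicate, List.prod_replicate, mul_pow]
  · split_ifs
    · simp only [List.map_append, List.prod_append, List.map_replicate, List.prod_replicate]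
    · simp

theorem shl_length (i : ℕ) (h : ℕ → ℕ) (a b : ℕ) : (shl i h a b).length =
    2 * ∑ p ∈ Finset.range ((i + 1) / 2), h p + (if Even i then a + b else 0) := by
  unfold shl
  rw [List.length_append]
  congr 1
  · generalize (i + 1) / 2 = n
    induction n with
    | zero => simp
    | succ n ih =>
      rw [List.range_succ, Finset.sum_range_succ, List.flatMap_append, List.length_append, ih]
      simp only [List.flatMap_singleton, List.length_append, List.length_replicate]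
      ring
  · split_ifs
    · simp only [List.length_append, List.length_replicate]
    · rfl

theorem shl_re (i : ℕ) (h : ℕ → ℕ) (a b : ℕ) : ∀ c ∈ shl i h a b, -1 / 2 ≤ c.re := by
  intro c hc
  unfold shl at hc
  rcases List.mem_append.1 hc with hc | hc
  · obtain ⟨p, hp, hc⟩ := List.mem_flatMap.1 hc
    have hp' : p < (i + 1) / 2 := List.mem_range.1 hp
    have hp2 : 2 * p ≤ i := by omega
    have hp3 : (2 * p : ℝ) ≤ i := by exact_mod_cast hp2
    have e : ((i : ℂ) / 2 - p).re = (i : ℝ) / 2 - p := by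
      rw [show ((i : ℂ) / 2 - p) = (((i : ℝ) / 2 - p : ℝ) : ℂ) by push_cast; rfl, ofReal_re]
    rcases List.mem_append.1 hc with hc | hc
    · rw [List.eq_of_mem_replicate hc, e]
      linarith
    · rw [List.eq_of_mem_replicate hc, add_re, one_re, e]
      linarith
  · split_ifs at hc
    · rcases List.mem_append.1 hc with hc | hc
      · rw [List.eq_of_mem_replicate hc]
        norm_num
      · rw [List.eq_of_mem_replicate hc]
        norm_num
    · exact absurd hc List.not_mem_nil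

lemma GR_conj (s : ℂ) : Gammaℝ (conj s) = conj (Gammaℝ s) := by
  have hpi : ((Real.pi : ℂ)).arg ≠ Real.pi := by
    rw [Complex.arg_ofReal_of_nonneg Real.pi_pos.le]
    exact Real.pi_pos.ne
  rw [Complex.Gammaℝ_def, Complex.Gammaℝ_def, map_mul, conj_pow hpi (Complex.conj_ofReal _),
    ← Complex.Gamma_conj]
  simp only [map_neg, map_div₀, map_ofNat]

lemma GC_conj (s : ℂ) : Gammaℂ (conj s) = conj (Gammaℂ s) := by
  rw [← Complex.Gammaℝ_mul_Gammaℝ_add_one, ← Complex.Gammaℝ_mul_Gammaℝ_add_one, map_mul,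
    ← GR_conj, ← GR_conj, map_add, map_one]

lemma aeval_conj (P : ℤ[X]) (z : ℂ) : aeval (conj z) P = conj (aeval z P) := by
  have h := (Polynomial.hom_eval₂ P (algebraMap ℤ ℂ) (starRingEnd ℂ) z).symm
  have e : (starRingEnd ℂ).comp (algebraMap ℤ ℂ) = algebraMap ℤ ℂ := RingHom.ext_int _ _
  rw [e] at h
  rw [Polynomial.aeval_def, Polynomial.aeval_def]
  exact h

lemma order_shift {Λ : ℂ → ℂ} {κ c : ℝ} (hκ : 0 < κ) (hc : 0 ≤ c)
    (h : ∃ A ρ : ℝ, ∀ s : ℂ, ‖Λ s‖ ≤ Real.exp (A * (1 + ‖s‖) ^ ρ)) :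
    ∃ A ρ : ℝ, ∀ s : ℂ, ‖(κ : ℂ) * Λ (s + c)‖ ≤ Real.exp (A * (1 + ‖s‖) ^ ρ) := by
  obtain ⟨A, ρ, hb⟩ := h
  refine ⟨|Real.log κ| + |A| * (1 + c) ^ |ρ|, |ρ|, fun s => ?_⟩
  rw [norm_mul, Complex.norm_real, Real.norm_eq_abs, abs_of_pos hκ]
  have h1 : 1 ≤ 1 + ‖s‖ := by linarith [norm_nonneg s]
  have h2 : 1 ≤ 1 + ‖s + c‖ := by linarith [norm_nonneg (s + c)]
  have h3 : 1 + ‖s + c‖ ≤ (1 + c) * (1 + ‖s‖) := by
    have h4 := norm_add_le s (c : ℂ)
    rw [Complex.norm_real, Real.norm_eq_abs, abs_of_nonneg hc] at h4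
    nlinarith [norm_nonneg s]
  have h4 : A * (1 + ‖s + c‖) ^ ρ ≤ |A| * ((1 + c) ^ |ρ| * (1 + ‖s‖) ^ |ρ|) := by
    have h5 : (1 + ‖s + c‖) ^ ρ ≤ (1 + ‖s + c‖) ^ |ρ| :=
      Real.rpow_le_rpow_of_exponent_le h2 (le_abs_self ρ)
    have h6 : (1 + ‖s + c‖) ^ |ρ| ≤ ((1 + c) * (1 + ‖s‖)) ^ |ρ| :=
      Real.rpow_le_rpow (by linarith) h3 (abs_nonneg ρ)
    rw [Real.mul_rpow (by linarith) (by linarith)] at h6
    have h7 : 0 ≤ (1 + ‖s + c‖) ^ ρ := Real.rpow_nonneg (by linarith) _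
    calc A * (1 + ‖s + c‖) ^ ρ ≤ |A| * (1 + ‖s + c‖) ^ ρ :=
          mul_le_mul_of_nonneg_right (le_abs_self A) h7
      _ ≤ _ := mul_le_mul_of_nonneg_left (h5.trans h6) (abs_nonneg A)
  have h5 : 1 ≤ (1 + ‖s‖) ^ |ρ| := Real.one_le_rpow h1 (abs_nonneg ρ)
  have h6 : Real.log κ ≤ |Real.log κ| * (1 + ‖s‖) ^ |ρ| := by
    have := le_abs_self (Real.log κ)
    have := abs_nonneg (Real.log κ)
    nlinarith
  calc κ * ‖Λ (s + c)‖ ≤ Real.exp (Real.log κ) * Real.exp (A * (1 + ‖s + c‖) ^ ρ) := by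
        rw [Real.exp_log hκ]
        exact mul_le_mul_of_nonneg_left (hb _) hκ.le
    _ = Real.exp (Real.log κ + A * (1 + ‖s + c‖) ^ ρ) := (Real.exp_add _ _).symm
    _ ≤ _ := by
        apply Real.exp_le_exp.2
        calc _ ≤ |Real.log κ| * (1 + ‖s‖) ^ |ρ| + |A| * ((1 + c) ^ |ρ| * (1 + ‖s‖) ^ |ρ|) :=
              add_le_add h6 h4
          _ = _ := by ring

/-- the final statement for the data of a Hasse-Weil L-function -/
theorem main {C : ℝ} (H : ∀ (m r : ℕ) (N : ℝ) (a : Fin m → ℂ) (α : Nat.Primes → Fin m → ℂ)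
      (X : ℂ → ℂ), EP.HW m r N a α X → ResD C m N (fun y => W355.UN.cond N (fun j => -a j) y) X)
    {i : ℕ} {h : ℕ → ℕ} {a b : ℕ} {P : ℕ → ℤ[X]}
    (hpos : 1 ≤ 2 * ∑ p ∈ Finset.range ((i + 1) / 2), h p + (if Even i then a + b else 0))
    (hP0 : ∀ p, p.Prime → (P p).coeff 0 = 1)
    (hPd : ∀ p, p.Prime → (P p).natDegree ≤
      2 * ∑ p ∈ Finset.range ((i + 1) / 2), h p + (if Even i then a + b else 0))
    (hPr : ∀ p : ℕ, p.Prime → ∀ z : ℂ, aeval z (P p) = 0 → (p : ℝ) ^ (-(((i : ℝ) + 1) / 2)) ≤ ‖z‖)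
    {A : ℝ} {r : ℕ} {Λ : ℂ → ℂ} (hA : 1 ≤ A)
    (hr : r ≤ 2 * ∑ p ∈ Finset.range ((i + 1) / 2), h p + (if Even i then a + b else 0))
    (hent : Differentiable ℂ Λ)
    (hord : ∃ A ρ : ℝ, ∀ s : ℂ, ‖Λ s‖ ≤ Real.exp (A * (1 + ‖s‖) ^ ρ))
    (hfe : ∃ ε : ℝ, (ε = 1 ∨ ε = -1) ∧ ∀ s : ℂ, Λ s = ε * Λ (i + 1 - s))
    (heq : ∃ σ : ℝ, ∀ s : ℂ, σ ≤ s.re → Λ s = ((s - (i : ℂ) / 2) * (s - (i : ℂ) / 2 - 1)) ^ r *
      ((A : ℂ) ^ (s / 2) * ((∏ p ∈ Finset.range ((i + 1) / 2), Gammaℂ (s - p) ^ h p) *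
        (if Even i then Gammaℝ (s - (i : ℂ) / 2) ^ a * Gammaℝ (s - (i : ℂ) / 2 + 1) ^ b else 1)) *
        ∏' p : Nat.Primes, (aeval (((p : ℕ) : ℂ) ^ (-s)) (P p))⁻¹)) :
    ResS C (((i : ℝ) + 1) / 2)
      (2 * ∑ p ∈ Finset.range ((i + 1) / 2), h p + (if Even i then a + b else 0)) A
      (fun y => A * ((∏ p ∈ Finset.range ((i + 1) / 2), ((1 + ‖(y : ℂ) * I + ((i : ℂ) / 2 - p)‖) *
        (1 + ‖(y : ℂ) * I + ((i : ℂ) / 2 - p + 1)‖)) ^ h p) *
        (if Even i then (1 + ‖(y : ℂ) * I + 0‖) ^ a * (1 + ‖(y : ℂ) * I + 1‖) ^ b else 1))) Λ := by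
  obtain ⟨l, hl⟩ : ∃ l : List ℂ, l = shl i h a b := ⟨_, rfl⟩
  have hlen : l.length = 2 * ∑ p ∈ Finset.range ((i + 1) / 2), h p +
      (if Even i then a + b else 0) := by rw [hl, shl_length]
  have hA0 : 0 < A := by linarith
  have hAc : (A : ℂ) ≠ 0 := by exact_mod_cast hA0.ne'
  -- the reciprocal roots
  have hroots : ∀ p : Nat.Primes, ∃ α : Fin l.length → ℂ,
      (∀ z : ℂ, aeval z (P p) = ∏ j, (1 - α j * z)) ∧
      ∀ j, ‖α j‖ ≤ ((p : ℕ) : ℝ) ^ (((i : ℝ) + 1) / 2) := by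
    intro p
    have hp0 : (0 : ℝ) < ((p : ℕ) : ℝ) := by exact_mod_cast p.2.pos
    have hev : ∀ z : ℂ, ((P p).map (algebraMap ℤ ℂ)).eval z = aeval z (P p) := fun z => by
      rw [Polynomial.eval_map, Polynomial.aeval_def]
    obtain ⟨α, h1, h2⟩ := roots l.length ((P p).map (algebraMap ℤ ℂ)) (by
      rw [Polynomial.coeff_map, hP0 p p.2, map_one]) ((Polynomial.natDegree_map_le).trans (by
        rw [hlen]; exact hPd p p.2))
    refine ⟨α, fun z => by rw [← hev, h1], fun j => ?_⟩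
    rcases h2 j with h3 | ⟨h3, h4⟩
    · rw [h3, norm_zero]
      exact Real.rpow_nonneg hp0.le _
    · rw [hev] at h4
      have h5 := hPr p p.2 _ h4
      rw [norm_inv, Real.rpow_neg hp0.le] at h5
      exact (inv_le_inv₀ (Real.rpow_pos_of_pos hp0 _) (norm_pos_iff.2 h3)).1 h5
  choose α0 hα1 hα2 using hroots
  obtain ⟨α, hαd⟩ : ∃ α : Nat.Primes → Fin l.length → ℂ, α = fun p j =>
      α0 p j * ((p : ℕ) : ℂ) ^ (-((i : ℂ) / 2)) := ⟨_, rfl⟩
  have hα : ∀ p j, ‖α p j‖ ≤ ((p : ℕ) : ℝ) ^ (1 / 2 : ℝ) := by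
    intro p j
    have hp0 : (0 : ℝ) < ((p : ℕ) : ℝ) := by exact_mod_cast p.2.pos
    have e : (-((i : ℂ) / 2)).re = -((i : ℝ) / 2) := by
      rw [show (-((i : ℂ) / 2)) = ((-((i : ℝ) / 2) : ℝ) : ℂ) by push_cast; rfl, ofReal_re]
    rw [hαd]
    show ‖α0 p j * ((p : ℕ) : ℂ) ^ (-((i : ℂ) / 2))‖ ≤ _
    rw [norm_mul, Complex.norm_natCast_cpow_of_pos p.2.pos, e]
    calc ‖α0 p j‖ * ((p : ℕ) : ℝ) ^ (-((i : ℝ) / 2)) ≤
        ((p : ℕ) : ℝ) ^ (((i : ℝ) + 1) / 2) * ((p : ℕ) : ℝ) ^ (-((i : ℝ) / 2)) := by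
          gcongr
          exact hα2 p j
      _ = ((p : ℕ) : ℝ) ^ (1 / 2 : ℝ) := by
          rw [← Real.rpow_add hp0]
          congr 1
          ring
  -- the local factors in the normalised variable
  have hloc : ∀ (z : ℂ) (p : Nat.Primes), (aeval (((p : ℕ) : ℂ) ^ (-(z + (i : ℂ) / 2))) (P p))⁻¹ =
      ∏ j, (1 - α p j * ((p : ℕ) : ℂ) ^ (-z))⁻¹ := by
    intro z p
    rw [hα1, ← Finset.prod_inv_distrib]
    refine Finset.prod_congr rfl fun j _ => ?_
    rw [hαd]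
    show _ = (1 - α0 p j * ((p : ℕ) : ℂ) ^ (-((i : ℂ) / 2)) * ((p : ℕ) : ℂ) ^ (-z))⁻¹
    rw [mul_assoc, ← Complex.cpow_add _ _ (EP.p0 p)]
    congr 4
    ring
  -- the completed function for large real part
  obtain ⟨κ, hκd⟩ : ∃ κ : ℝ, κ = A ^ (-((i : ℝ) / 4)) := ⟨_, rfl⟩
  have hκ : 0 < κ := by rw [hκd]; positivity
  have hκA : (κ : ℂ) * (A : ℂ) ^ ((i : ℂ) / 4) = 1 := by
    rw [hκd, Complex.ofReal_cpow hA0.le, ← Complex.cpow_add _ _ hAc]
    push_cast
    rw [neg_add_cancel, Complex.cpow_zero]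
  have hhalf : ((i : ℂ) / 2) = ((((i : ℝ) / 2 : ℝ)) : ℂ) := by push_cast; rfl
  have hkey : ∃ σ : ℝ, ∀ z : ℂ, σ ≤ z.re → (κ : ℂ) * Λ (z + (((i : ℝ) / 2 : ℝ) : ℂ)) =
      (z * (z - 1)) ^ r * ((A : ℂ) ^ (z / 2) * ∏ j, Gammaℝ (z + l.get j)) * EP.E α z := by
    obtain ⟨σ, hσ⟩ := heq
    refine ⟨σ, fun z hz => ?_⟩
    rw [hσ (z + (((i : ℝ) / 2 : ℝ) : ℂ)) (by
      rw [add_re, ofReal_re]
      have : (0 : ℝ) ≤ (i : ℝ) / 2 := by positivity
      linarith), ← hhalf]
    simp only [add_sub_cancel_right]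
    have e1 : (A : ℂ) ^ ((z + (i : ℂ) / 2) / 2) = (A : ℂ) ^ (z / 2) * (A : ℂ) ^ ((i : ℂ) / 4) := by
      rw [← Complex.cpow_add _ _ hAc]
      congr 1
      ring
    have e2 : (∏ j, Gammaℝ (z + l.get j)) =
        (∏ p ∈ Finset.range ((i + 1) / 2), Gammaℂ (z + (i : ℂ) / 2 - p) ^ h p) *
        (if Even i then Gammaℝ z ^ a * Gammaℝ (z + 1) ^ b else 1) := by
      rw [Pool.Agent.W355.UN.prod_get l (fun c : ℂ => Gammaℝ (z + c)), hl, shl_prod]
      simp only [add_zero]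
      congr 1
      refine Finset.prod_congr rfl fun p _ => ?_
      rw [← Complex.Gammaℝ_mul_Gammaℝ_add_one]
      congr 3 <;> ring
    have e3 : (∏' p : Nat.Primes, (aeval (((p : ℕ) : ℂ) ^ (-(z + (i : ℂ) / 2))) (P p))⁻¹) =
        EP.E α z := tprod_congr fun p => hloc z p
    rw [e1, e2, e3]
    linear_combination ((z * (z - 1)) ^ r * ((A : ℂ) ^ (z / 2) *
      ((∏ p ∈ Finset.range ((i + 1) / 2), Gammaℂ (z + (i : ℂ) / 2 - p) ^ h p) *
        (if Even i then Gammaℝ z ^ a * Gammaℝ (z + 1) ^ b else 1))) * EP.E α z) * hκA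
  -- `Λ` is real on the real axis
  have hreal : ∀ s : ℂ, conj (Λ (conj s)) = Λ s := by
    have h1 : AnalyticOnNhd ℂ Λ univ := fun z _ => hent.analyticAt z
    have h2 : AnalyticOnNhd ℂ (fun s => conj (Λ (conj s))) univ := by
      have : Differentiable ℂ (fun s => conj (Λ (conj s))) := by
        intro z
        have := (hent (conj z)).hasDerivAt.conj_conj
        rw [Complex.conj_conj] at this
        exact this.differentiableAt
      exact fun z _ => this.analyticAt z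
    obtain ⟨σ, hσ⟩ := heq
    obtain ⟨τ, hτ⟩ : ∃ τ : ℝ, τ = max σ (2 + (i : ℝ) / 2) := ⟨_, rfl⟩
    intro s
    refine h2.eqOn_of_preconnected_of_eventuallyEq h1 isPreconnected_univ
      (mem_univ (((τ + 1 : ℝ) : ℂ))) ?_ (mem_univ s)
    have h3 : ∀ᶠ z : ℂ in 𝓝 ((τ + 1 : ℝ) : ℂ), τ < z.re :=
      (Complex.continuous_re.tendsto _).eventually (lt_mem_nhds (by
        rw [ofReal_re]; linarith))
    filter_upwards [h3] with z hz
    have hz1 : σ ≤ z.re := by
      have := le_max_left σ (2 + (i : ℝ) / 2)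
      linarith
    have hz2 : 2 + (i : ℝ) / 2 ≤ z.re := by
      have := le_max_right σ (2 + (i : ℝ) / 2)
      linarith
    rw [hσ (conj z) (by rw [Complex.conj_re]; exact hz1), hσ z hz1]
    have hAa : ((A : ℂ)).arg ≠ Real.pi := by
      rw [Complex.arg_ofReal_of_nonneg hA0.le]
      exact Real.pi_pos.ne
    have hE : conj (∏' p : Nat.Primes, (aeval (((p : ℕ) : ℂ) ^ (-(conj z))) (P p))⁻¹) =
        ∏' p : Nat.Primes, (aeval (((p : ℕ) : ℂ) ^ (-z)) (P p))⁻¹ := by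
      have hp := EP.prod_eq hα (s := conj z - (i : ℂ) / 2) (by
        rw [sub_re, Complex.conj_re, hhalf, ofReal_re]
        linarith)
      have hp2 := hp.map (starRingEnd ℂ) Complex.continuous_conj
      have e1 : ∀ p : Nat.Primes, (∏ j, (1 - α p j * ((p : ℕ) : ℂ) ^ (-(conj z - (i : ℂ) / 2)))⁻¹) =
          (aeval (((p : ℕ) : ℂ) ^ (-(conj z))) (P p))⁻¹ := fun p => by
        rw [← hloc, sub_add_cancel]
      simp only [e1] at hp
      have e2 : ∀ p : Nat.Primes, conj ((aeval (((p : ℕ) : ℂ) ^ (-(conj z))) (P p))⁻¹) =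
          (aeval (((p : ℕ) : ℂ) ^ (-z)) (P p))⁻¹ := fun p => by
        have hn : ((((p : ℕ) : ℕ) : ℂ)).arg ≠ Real.pi := by
          rw [Complex.natCast_arg]
          exact Real.pi_pos.ne
        rw [map_inv₀, ← aeval_conj, conj_pow hn (Complex.conj_natCast _)]
        simp only [map_neg, Complex.conj_conj]
      have hp3 : HasProd (fun p : Nat.Primes => (aeval (((p : ℕ) : ℂ) ^ (-z)) (P p))⁻¹)
          (conj (cexp (EP.LG α (conj z - (i : ℂ) / 2)))) := by
        refine hp2.congr_fun fun p => ?_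
        simp only [Function.comp_apply]
        rw [e1, e2]
      rw [hp.tprod_eq, hp3.tprod_eq]
    have hG : conj ((∏ p ∈ Finset.range ((i + 1) / 2), Gammaℂ (conj z - p) ^ h p) *
        (if Even i then Gammaℝ (conj z - (i : ℂ) / 2) ^ a * Gammaℝ (conj z - (i : ℂ) / 2 + 1) ^ b
          else 1)) = (∏ p ∈ Finset.range ((i + 1) / 2), Gammaℂ (z - p) ^ h p) *
        (if Even i then Gammaℝ (z - (i : ℂ) / 2) ^ a * Gammaℝ (z - (i : ℂ) / 2 + 1) ^ b
          else 1) := by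
      have e1 : ∀ p : ℕ, conj z - (p : ℂ) = conj (z - p) := fun p => by
        rw [map_sub, Complex.conj_natCast]
      have e2 : conj z - (i : ℂ) / 2 = conj (z - (i : ℂ) / 2) := by
        rw [map_sub, map_div₀, Complex.conj_natCast, map_ofNat]
      have e3 : conj z - (i : ℂ) / 2 + 1 = conj (z - (i : ℂ) / 2 + 1) := by
        rw [map_add, ← e2, map_one]
      rw [e3, e2, map_mul, map_prod]
      congr 1
      · refine Finset.prod_congr rfl fun p _ => ?_
        rw [e1, map_pow, GC_conj, Complex.conj_conj]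
      · split_ifs
        · rw [map_mul, map_pow, map_pow, GR_conj, GR_conj, Complex.conj_conj, Complex.conj_conj]
        · rw [map_one]
    have e4 : (starRingEnd ℂ) ((i : ℂ) / 2) = (i : ℂ) / 2 := by
      rw [map_div₀, Complex.conj_natCast, map_ofNat]
    have e5 : conj ((A : ℂ) ^ (conj z / 2)) = (A : ℂ) ^ (z / 2) := by
      rw [conj_pow hAa (Complex.conj_ofReal _), map_div₀, Complex.conj_conj, map_ofNat]
    rw [map_mul, map_mul, map_mul, hE, hG, e5, map_pow, map_mul, map_sub, map_sub, map_sub,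
      Complex.conj_conj, e4, map_one]
  -- the normalised function
  have hW : EP.HW l.length r A (fun j => l.get j) α
      (fun z => (κ : ℂ) * Λ (z + (((i : ℝ) / 2 : ℝ) : ℂ))) := by
    refine ⟨by omega, by omega, hA, fun j => ?_, hα, ?_, order_shift hκ (by positivity) hord, ?_,
      hkey⟩
    · exact shl_re i h a b _ (by rw [← hl]; exact List.get_mem _ _)
    · exact (hent.comp (by fun_prop : Differentiable ℂ fun z : ℂ =>
        z + (((i : ℝ) / 2 : ℝ) : ℂ))).const_mul _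
    · obtain ⟨ε, hε, hfe⟩ := hfe
      refine ⟨ε, ?_, fun s => ?_⟩
      · rcases hε with rfl | rfl <;> simp
      · show (κ : ℂ) * Λ (s + (((i : ℝ) / 2 : ℝ) : ℂ)) =
          ε * conj ((κ : ℂ) * Λ (1 - conj s + (((i : ℝ) / 2 : ℝ) : ℂ)))
        rw [map_mul, Complex.conj_ofReal]
        have e : conj (Λ (1 - conj s + (((i : ℝ) / 2 : ℝ) : ℂ))) =
            Λ (i + 1 - (s + (((i : ℝ) / 2 : ℝ) : ℂ))) := by
          rw [← hreal (i + 1 - (s + (((i : ℝ) / 2 : ℝ) : ℂ)))]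
          congr 2
          simp only [map_sub, map_add, Complex.conj_natCast, Complex.conj_ofReal, map_one]
          push_cast
          ring
        rw [e, hfe (s + (((i : ℝ) / 2 : ℝ) : ℂ))]
        ring
  have hres := H _ _ _ _ _ _ hW
  have hul := hW.ul
  have hdiff : ∀ t : ℝ, 0 ≤ t → Differentiable ℂ (Pool.Agent.W169.HF.heat t
      (fun z => (κ : ℂ) * Λ (z + (((i : ℝ) / 2 : ℝ) : ℂ)))) := fun t ht =>
    (Pool.Agent.W169.HF.db_all _ _ hul.cl hul.nontriv t ht).2.slow.1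
  have hs := hres.shift hdiff (Λ := Λ) (κ := (κ : ℂ)) (c := (i : ℝ) / 2) (fun z => rfl)
    (by exact_mod_cast hκ.ne')
  have e1 : (1 / 2 + (i : ℝ) / 2) = ((i : ℝ) + 1) / 2 := by ring
  have e2 : (fun y : ℝ => W355.UN.cond A (fun j => -l.get j) y) = fun y : ℝ =>
      A * ((∏ p ∈ Finset.range ((i + 1) / 2), ((1 + ‖(y : ℂ) * I + ((i : ℂ) / 2 - p)‖) *
        (1 + ‖(y : ℂ) * I + ((i : ℂ) / 2 - p + 1)‖)) ^ h p) *
        (if Even i then (1 + ‖(y : ℂ) * I + 0‖) ^ a * (1 + ‖(y : ℂ) * I + 1‖) ^ b else 1)) := by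
    funext y
    unfold W355.UN.cond
    simp only [sub_neg_eq_add]
    rw [Pool.Agent.W355.UN.prod_get l (fun c : ℂ => 1 + ‖(y : ℂ) * I + c‖), hl, shl_prod]
  rw [e1, e2, hlen] at hs
  exact hs

end Pool.Agent.TH839.UH.Coh
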