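import Pool.Agent.TH839.UH.Fin

/-!
# Elliptic curves over number fields: the trivial bound for the number of points
-/

set_option autoImplicit false

open NumberField IsDedekindDomain

namespace Pool.Agent.TH839.UH

/-- a Weierstrass equation over a finite field has at most `2 q` affine solutions (argument of the
starting module `Pool.Agent.H341R2.NF.Model`) -/
theorem card_le {k : Type} [Field k] [Finite k] (V : WeierstrassCurve k) :
    Nat.card {xy : k × k // V.toAffine.Equation xy.1 xy.2} ≤ 2 * Nat.card k := by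
  classical
  have : Fintype k := Fintype.ofFinite k
  have e : {xy : k × k // V.toAffine.Equation xy.1 xy.2} ≃
      (x : k) × {y : k // V.toAffine.Equation x y} :=
    { toFun := fun p => ⟨p.1.1, ⟨p.1.2, p.2⟩⟩
      invFun := fun q => ⟨(q.1, q.2.1), q.2.2⟩
      left_inv := fun p => rfl
      right_inv := fun q => rfl }
  rw [Nat.card_congr e, Nat.card_eq_fintype_card, Fintype.card_sigma, Nat.card_eq_fintype_card]
  have h1 : ∀ x : k, Fintype.card {y : k // V.toAffine.Equation x y} ≤ 2 := by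
    intro x
    by_contra hcon
    push Not at hcon
    obtain ⟨a, b, c, hab, hac, hbc⟩ := Fintype.two_lt_card_iff.1 hcon
    have ha := (WeierstrassCurve.Affine.equation_iff _ _).1 a.2
    have hb := (WeierstrassCurve.Affine.equation_iff _ _).1 b.2
    have hc := (WeierstrassCurve.Affine.equation_iff _ _).1 c.2
    have hab' : a.1 - b.1 ≠ 0 := sub_ne_zero.2 fun h => hab (Subtype.ext h)
    have hac' : a.1 - c.1 ≠ 0 := sub_ne_zero.2 fun h => hac (Subtype.ext h)
    have hbc' : b.1 - c.1 ≠ 0 := sub_ne_zero.2 fun h => hbc (Subtype.ext h)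
    have e1 : (a.1 - b.1) * (a.1 + b.1 + V.a₁ * x + V.a₃) = 0 := by linear_combination ha - hb
    have e2 : (a.1 - c.1) * (a.1 + c.1 + V.a₁ * x + V.a₃) = 0 := by linear_combination ha - hc
    have e3 := (mul_eq_zero.1 e1).resolve_left hab'
    have e4 := (mul_eq_zero.1 e2).resolve_left hac'
    exact hbc' (by linear_combination e3 - e4)
  calc ∑ x : k, Fintype.card {y : k // V.toAffine.Equation x y} ≤ ∑ _x : k, 2 :=
        Finset.sum_le_sum fun x _ => h1 x
    _ = 2 * Fintype.card k := by simp [mul_comm]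

theorem trace_le {K : Type} [Field K] [NumberField K] (v : HeightOneSpectrum (𝓞 K))
    (V : WeierstrassCurve (𝓞 K ⧸ v.asIdeal)) :
    ‖((Ideal.absNorm v.asIdeal : ℂ) - (Nat.card {xy : (𝓞 K ⧸ v.asIdeal) × (𝓞 K ⧸ v.asIdeal) //
      V.toAffine.Equation xy.1 xy.2} : ℂ))‖ ≤ (Pool.Agent.H921R2.TatePole.nm v : ℝ) := by
  have hmax : v.asIdeal.IsMaximal := v.isPrime.isMaximal v.ne_bot
  let _ : Field (𝓞 K ⧸ v.asIdeal) := Ideal.Quotient.field v.asIdeal
  have hfin : Finite (𝓞 K ⧸ v.asIdeal) := Ideal.finiteQuotientOfFreeOfNeBot v.asIdeal v.ne_bot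
  have h1 := card_le V
  have h2 : Nat.card (𝓞 K ⧸ v.asIdeal) = Ideal.absNorm v.asIdeal := by
    rw [Ideal.absNorm_apply, Submodule.cardQuot_apply]
  rw [h2] at h1
  unfold Pool.Agent.H921R2.TatePole.nm
  obtain ⟨q, hq⟩ : ∃ q : ℕ, q = Ideal.absNorm v.asIdeal := ⟨_, rfl⟩
  obtain ⟨c, hc⟩ : ∃ c : ℕ, c = Nat.card {xy : (𝓞 K ⧸ v.asIdeal) × (𝓞 K ⧸ v.asIdeal) //
      V.toAffine.Equation xy.1 xy.2} := ⟨_, rfl⟩
  rw [← hc, ← hq]
  have h3 : c ≤ 2 * q := by
    rw [hc, hq]
    exact h1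
  have e : ((q : ℂ) - (c : ℂ)) = (((q : ℝ) - (c : ℝ) : ℝ) : ℂ) := by push_cast; ring
  rw [e, Complex.norm_real, Real.norm_eq_abs, abs_le]
  have h4 : (c : ℝ) ≤ 2 * q := by exact_mod_cast h3
  have h5 : (0 : ℝ) ≤ c := Nat.cast_nonneg c
  constructor <;> linarith

end Pool.Agent.TH839.UH
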