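import Pool.Agent.TH839.UH.Prof

/-!
# The slope at different scales
-/

set_option autoImplicit false

open Complex MeasureTheory Filter Topology Set
open scoped ComplexConjugate

namespace Pool.Agent.TH839.UH

open Pool.Agent.W169.HF H353.E Pool.Agent.W355.UN

variable {m : ℕ} {B : ℝ → ℝ} {N θ : ℝ} {μ : Fin m → ℂ} {X L : ℂ → ℂ}

lemma ell_eq (N : ℝ) (μ : Fin m → ℂ) (y S : ℝ) : ell N μ y S = Real.log N / 2 +
    ∑ j, (-(Real.log Real.pi) / 2 + (logDeriv Gamma ((1 / 2 + 2 * S + y * I - μ j) / 2)).re / 2) := by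
  unfold ell gaD
  rw [add_re, ofReal_re, re_sum]
  congr 1
  refine Finset.sum_congr rfl fun j _ => ?_
  rw [add_re, ofReal_re, show (2 : ℂ) = ((2 : ℝ) : ℂ) by norm_num, Complex.div_ofReal_re]

/-- the slope is almost increasing in the scale -/
lemma ell_mono (hμ : ∀ j, (μ j).re ≤ 1 / 2) {y S2 S : ℝ} (h1 : 1 ≤ S2) (h2 : S2 ≤ S) :
    ell N μ y S2 ≤ ell N μ y S + 7 * m := by
  rw [ell_eq, ell_eq]
  have h3 : ∀ j, -(Real.log Real.pi) / 2 +
      (logDeriv Gamma ((1 / 2 + 2 * S2 + y * I - μ j) / 2)).re / 2 ≤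
      (-(Real.log Real.pi) / 2 + (logDeriv Gamma ((1 / 2 + 2 * S + y * I - μ j) / 2)).re / 2) + 7 := by
    intro j
    obtain ⟨_, hz2, hz1⟩ := zre (s := 1 / 2 + 2 * S2 + y * I) (hμ j) (by rw [base_re]; linarith)
    obtain ⟨_, hw2, hw1⟩ := zre (s := 1 / 2 + 2 * S + y * I) (hμ j) (by rw [base_re]; linarith)
    rw [base_re] at hz2 hw2
    have e : ((1 / 2 + 2 * S + y * I - μ j) / 2 : ℂ) =
        (1 / 2 + 2 * S2 + y * I - μ j) / 2 + ((S - S2 : ℝ) : ℂ) := by push_cast; ring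
    obtain ⟨z, hzd⟩ : ∃ z : ℂ, z = (1 / 2 + 2 * S2 + y * I - μ j) / 2 := ⟨_, rfl⟩
    rw [e] at hw1 ⊢
    rw [← hzd] at hz1 hw1 ⊢
    have a1 := (Complex.abs_re_le_norm _).trans (dig_aux hz1)
    have a2 := (Complex.abs_re_le_norm _).trans (dig_aux hw1)
    rw [sub_re, Complex.log_re] at a1 a2
    have b1 := (abs_le.mp a1).2
    have b2 := (abs_le.mp a2).1
    have hlog : Real.log ‖z + 2‖ ≤ Real.log ‖z + ((S - S2 : ℝ) : ℂ) + 2‖ := by
      apply Real.log_le_log
      · have := re_le_norm (z + 2)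
        rw [add_re, re_ofNat] at this
        linarith
      · rw [← sq_le_sq₀ (norm_nonneg _) (norm_nonneg _), Complex.sq_norm, Complex.sq_norm,
          Complex.normSq_apply, Complex.normSq_apply]
        simp only [add_re, add_im, ofReal_re, ofReal_im, re_ofNat, im_ofNat]
        nlinarith
    linarith
  have h4 := Finset.sum_le_sum (s := (Finset.univ : Finset (Fin m))) fun j _ => h3 j
  have e4 : ∑ i, (-(Real.log Real.pi) / 2 +
      (logDeriv Gamma ((1 / 2 + 2 * S + y * I - μ i) / 2)).re / 2 + 7) =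
      ∑ i, (-(Real.log Real.pi) / 2 +
        (logDeriv Gamma ((1 / 2 + 2 * S + y * I - μ i) / 2)).re / 2) + m * 7 := by
    rw [Finset.sum_add_distrib (g := fun _ => (7 : ℝ)), Finset.sum_const, Finset.card_univ,
      Fintype.card_fin, nsmul_eq_mul]
  rw [e4] at h4
  linarith

/-- upper bound for the slope by the analytic conductor -/
lemma ell_le (hN : 1 ≤ N) (hμ : ∀ j, (μ j).re ≤ 1 / 2) {y S : ℝ} (hS : 1 ≤ S) :
    ell N μ y S ≤ (4 + Real.log (S + 3)) * (m + Real.log (W355.UN.cond N μ y)) := by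
  have hN0 : 0 < N := by linarith
  have hp : ∀ j, 0 < 1 + ‖(y : ℂ) * I - μ j‖ := fun j => by positivity
  have hpp : 0 < ∏ j, (1 + ‖(y : ℂ) * I - μ j‖) := Finset.prod_pos fun j _ => hp j
  have hc0 : 0 ≤ Real.log (W355.UN.cond N μ y) := Real.log_nonneg (one_le_cond hN μ y)
  have hc : Real.log (W355.UN.cond N μ y) = Real.log N + ∑ j, Real.log (1 + ‖(y : ℂ) * I - μ j‖) := by
    unfold W355.UN.cond
    rw [Real.log_mul hN0.ne' hpp.ne', Real.log_prod (fun j _ => (hp j).ne')]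
  have hlp := logpi
  have hS3 : 0 ≤ Real.log (S + 3) := Real.log_nonneg (by linarith)
  rw [ell_eq]
  have h2 : ∀ j, -(Real.log Real.pi) / 2 +
      (logDeriv Gamma ((1 / 2 + 2 * S + y * I - μ j) / 2)).re / 2 ≤
      1 / 2 * Real.log (1 + ‖(y : ℂ) * I - μ j‖) + (4 + Real.log (S + 3)) := fun j => by
    obtain ⟨_, hz4, hz⟩ := zre (s := 1 / 2 + 2 * S + y * I) (hμ j) (by rw [base_re]; linarith)
    rw [base_re] at hz4
    obtain ⟨z, hzd⟩ : ∃ z : ℂ, z = (1 / 2 + 2 * S + y * I - μ j) / 2 := ⟨_, rfl⟩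
    rw [← hzd] at hz hz4 ⊢
    have h3 := (Complex.abs_re_le_norm _).trans (dig_aux hz)
    rw [sub_re, Complex.log_re] at h3
    have h3' := (abs_le.mp h3).2
    have h6 : 0 < ‖z + 2‖ := by
      have := re_le_norm (z + 2)
      rw [add_re, re_ofNat] at this
      linarith
    have h4 : ‖z + 2‖ ≤ (1 + ‖(y : ℂ) * I - μ j‖) * (S + 3) := by
      have e : z + 2 = ((y : ℂ) * I - μ j) / 2 + ((9 / 4 + S : ℝ) : ℂ) := by
        rw [hzd]
        push_cast
        ring
      rw [e]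
      refine (norm_add_le _ _).trans ?_
      rw [norm_div, Complex.norm_ofNat, Complex.norm_real, Real.norm_eq_abs,
        abs_of_pos (by linarith)]
      nlinarith [norm_nonneg ((y : ℂ) * I - μ j)]
    have h7 : Real.log ‖z + 2‖ ≤ Real.log (1 + ‖(y : ℂ) * I - μ j‖) + Real.log (S + 3) := by
      rw [← Real.log_mul (hp j).ne' (by linarith)]
      exact Real.log_le_log h6 h4
    linarith
  have h3 := Finset.sum_le_sum (s := (Finset.univ : Finset (Fin m))) fun j _ => h2 j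
  have e3 : ∑ j, (1 / 2 * Real.log (1 + ‖(y : ℂ) * I - μ j‖) + (4 + Real.log (S + 3))) =
      1 / 2 * ∑ j, Real.log (1 + ‖(y : ℂ) * I - μ j‖) + m * (4 + Real.log (S + 3)) := by
    rw [Finset.sum_add_distrib, ← Finset.mul_sum, Finset.sum_const, Finset.card_univ,
      Fintype.card_fin, nsmul_eq_mul]
  rw [e3] at h3
  have hm : (0 : ℝ) ≤ m := Nat.cast_nonneg m
  have h4 : 1 * Real.log (W355.UN.cond N μ y) ≤
      (4 + Real.log (S + 3)) * Real.log (W355.UN.cond N μ y) :=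
    mul_le_mul_of_nonneg_right (by linarith) hc0
  have e1 : (4 + Real.log (S + 3)) * (m + Real.log (W355.UN.cond N μ y)) =
      m * (4 + Real.log (S + 3)) + (4 + Real.log (S + 3)) * Real.log (W355.UN.cond N μ y) := by
    ring
  rw [e1]
  linarith

end Pool.Agent.TH839.UH
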