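import Pool.Agent.TH839.UH.ECK
import Pool.Agent.W355.UN.Ab2

/-!
# Elliptic curves: the theorem for all curves over number fields (assuming the Hasse-Weil conjecture)
and for curves over `ℚ` over abelian number fields (unconditionally), with one constant
-/

set_option autoImplicit false

open Complex Filter Topology NumberField IsDedekindDomain Set UpperHalfPlane MatrixGroups
  CongruenceSubgroup
open scoped ComplexConjugate

namespace Pool.Agent.TH839.UH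

open Pool.Agent.H921R2.TatePole H353.E Pool.Agent.W355.UN
open Pool.Agent.W169.HF (IsForm coef heat db_all)

/-- degree plus logarithm of the analytic conductor at height `y` -/
noncomputable def lD (d : ℕ) (A y : ℝ) : ℝ := d + Real.log (A * (1 + |y|) ^ (2 * d))

/-- the statements on the derivatives of the heat flow -/
structure Flow (C : ℝ) (d : ℕ) (A : ℝ) (Λ : ℂ → ℂ) : Prop where
  loc : ∀ (n : ℕ) (t : ℝ) (s : ℂ), 0 ≤ t → C * lD d A s.im ≤ n + t * lD d A s.im ^ 2 →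
      iteratedDeriv n (heat t Λ) s = 0 → s.re = 1 ∧ iteratedDeriv (n + 1) (heat t Λ) s ≠ 0
  hyp : ∀ (n : ℕ) (t : ℝ), 0 ≤ t → C ≤ n * t → ∀ s : ℂ,
      iteratedDeriv n (heat t Λ) s = 0 → s.re = 1 ∧ iteratedDeriv (n + 1) (heat t Λ) s ≠ 0
  con : ∀ (n : ℕ) (t : ℝ), 0 ≤ t → C ≤ t * (d + Real.log A) → ∀ s : ℂ,
      iteratedDeriv n (heat t Λ) s = 0 → s.re = 1 ∧ iteratedDeriv (n + 1) (heat t Λ) s ≠ 0
  iff : (∀ s : ℂ, Λ s = 0 → s.re = 1) ↔ ∀ (n : ℕ) (t : ℝ) (s : ℂ), 0 < t →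
      n + t * lD d A s.im ^ 2 < C * lD d A s.im → iteratedDeriv n (heat t Λ) s = 0 → s.re = 1

theorem flow_of {C0 : ℝ} (hC0 : 0 < C0) {m : ℕ} {B : ℝ → ℝ} {N θ : ℝ} {μ : Fin m → ℂ}
    {X L Λ : ℂ → ℂ} {c : ℂ} {d : ℕ} {A : ℝ}
    (H : ∀ (t : ℝ) (n : ℕ) (s : ℂ), 0 ≤ t →
      C0 * (m + Real.log (W355.UN.cond N μ s.im)) ≤
        n + t * (m + Real.log (W355.UN.cond N μ s.im)) ^ 2 →
      iteratedDeriv n (heat t X) s = 0 → s.re = 1 / 2 ∧ iteratedDeriv (n + 1) (heat t X) s ≠ 0)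
    (hul : UL m B N θ μ X L) (hθ : θ ≤ 1) (hc0 : c ≠ 0) (hX : ∀ z, X z = c * Λ (z + 1 / 2))
    (hA : 1 ≤ A)
    (hcmp : ∀ y, 1 ≤ lD d A y ∧ lD d A y ≤ m + Real.log (W355.UN.cond N μ y) ∧
      m + Real.log (W355.UN.cond N μ y) ≤ 4 * lD d A y) :
    Flow (4 * C0 + 4 * C0 ^ 2) d A Λ := by
  obtain ⟨C, hCd⟩ : ∃ C : ℝ, C = 4 * C0 + 4 * C0 ^ 2 := ⟨_, rfl⟩
  rw [← hCd]
  have hC4 : 4 * C0 ≤ C := by rw [hCd]; nlinarith
  have hdiff : ∀ t : ℝ, 0 ≤ t → Differentiable ℂ (heat t X) := fun t ht =>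
    (db_all _ _ hul.cl hul.nontriv t ht).2.slow.1
  have hder := fun (t : ℝ) (ht : 0 ≤ t) (n : ℕ) (s : ℂ) => deriv_shift hX hc0 (hdiff t ht) n s
  have hz : ∀ (t : ℝ), 0 ≤ t → ∀ (n : ℕ) (s : ℂ), iteratedDeriv n (heat t Λ) s = 0 →
      iteratedDeriv n (heat t X) (s - 1 / 2) = 0 := by
    intro t ht n s hs
    rw [hder t ht] at hs
    exact (mul_eq_zero.1 hs).resolve_left (inv_ne_zero hc0)
  have him : ∀ s : ℂ, (s - 1 / 2).im = s.im := fun s => by simp
  have hre : ∀ s : ℂ, (s - 1 / 2).re = s.re - 1 / 2 := fun s => by simp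
  have key : ∀ (n : ℕ) (t : ℝ) (s : ℂ), 0 ≤ t → 4 * C0 * lD d A s.im ≤ n + t * lD d A s.im ^ 2 →
      iteratedDeriv n (heat t Λ) s = 0 → s.re = 1 ∧ iteratedDeriv (n + 1) (heat t Λ) s ≠ 0 := by
    intro n t s ht hl hs
    obtain ⟨l1, l2, l3⟩ := hcmp s.im
    obtain ⟨r1, r2⟩ := H t n (s - 1 / 2) ht (by
      rw [him]
      have h1 : lD d A s.im ^ 2 ≤ (m + Real.log (W355.UN.cond N μ s.im)) ^ 2 := by
        gcongr
      have h2 : t * lD d A s.im ^ 2 ≤ t * (m + Real.log (W355.UN.cond N μ s.im)) ^ 2 := by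
        gcongr
      have h3 : C0 * (m + Real.log (W355.UN.cond N μ s.im)) ≤ C0 * (4 * lD d A s.im) := by gcongr
      linarith) (hz t ht n s hs)
    refine ⟨?_, ?_⟩
    · rw [hre] at r1
      linarith
    · rw [hder t ht]
      exact mul_ne_zero (inv_ne_zero hc0) r2
  have hl0 : ∀ y : ℝ, d + Real.log A ≤ lD d A y := by
    intro y
    have hA0 : 0 < A := by linarith
    unfold lD
    have : Real.log A ≤ Real.log (A * (1 + |y|) ^ (2 * d)) := by
      apply Real.log_le_log hA0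
      have h1 : (1 : ℝ) ≤ (1 + |y|) ^ (2 * d) := one_le_pow₀ (by linarith [abs_nonneg y])
      nlinarith
    linarith
  refine ⟨?_, ?_, ?_, ?_⟩
  · intro n t s ht hl hs
    obtain ⟨l1, -, -⟩ := hcmp s.im
    refine key n t s ht ?_ hs
    have : 4 * C0 * lD d A s.im ≤ C * lD d A s.im := by gcongr
    linarith
  · intro n t ht hnt s hs
    obtain ⟨l1, -, -⟩ := hcmp s.im
    refine key n t s ht ?_ hs
    obtain ⟨l, hl⟩ : ∃ l : ℝ, l = lD d A s.im := ⟨_, rfl⟩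
    rw [← hl] at l1 ⊢
    have h1 : (2 * C0) ^ 2 ≤ n * t := by
      rw [hCd] at hnt
      nlinarith
    have h2 : (0 : ℝ) ≤ n := Nat.cast_nonneg n
    have h3 : 0 ≤ t * l ^ 2 := by positivity
    have h4 : (4 * C0 * l) ^ 2 ≤ (n + t * l ^ 2) ^ 2 := by
      have e1 : (4 * C0 * l) ^ 2 = 4 * (2 * C0) ^ 2 * l ^ 2 := by ring
      have e2 : (n + t * l ^ 2) ^ 2 = (n - t * l ^ 2) ^ 2 + 4 * (n * t) * l ^ 2 := by ring
      rw [e1, e2]
      have h5 : 4 * (2 * C0) ^ 2 * l ^ 2 ≤ 4 * (n * t) * l ^ 2 := by gcongr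
      nlinarith [sq_nonneg (n - t * l ^ 2)]
    exact (sq_le_sq₀ (by positivity) (by positivity)).1 h4
  · intro n t ht hnt s hs
    obtain ⟨l1, -, -⟩ := hcmp s.im
    refine key n t s ht ?_ hs
    have h1 := hl0 s.im
    have h2 : C ≤ t * lD d A s.im := hnt.trans (mul_le_mul_of_nonneg_left h1 ht)
    have h3 : C * lD d A s.im ≤ t * lD d A s.im * lD d A s.im := by gcongr
    have h4 : (0 : ℝ) ≤ n := Nat.cast_nonneg n
    have h5 : 4 * C0 * lD d A s.im ≤ C * lD d A s.im := by gcongr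
    nlinarith
  · constructor
    · intro hR n t s ht _ hs
      have hR' : ∀ z : ℂ, X z = 0 → z.re = 1 / 2 := by
        intro z hz0
        rw [hX] at hz0
        have h1 := hR _ ((mul_eq_zero.1 hz0).resolve_left hc0)
        have e : (z + 1 / 2).re = z.re + 1 / 2 := by simp
        rw [e] at h1
        linarith
      have h1 := rh_down Pool.Agent.TH194.UH.comm hul hθ hR' ht.le n (hz t ht.le n s hs)
      rw [hre] at h1
      linarith
    · intro hsm s hs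
      have h1 := (W355.UN.rh_iff hul (T := 1) one_pos).2 (by
        intro t ht _ z hz0
        have e : iteratedDeriv 0 (heat t Λ) (z + 1 / 2) = 0 := by
          rw [hder t ht.le, add_sub_cancel_right, iteratedDeriv_zero, hz0, mul_zero]
        have e2 : (z + 1 / 2).re = z.re + 1 / 2 := by simp
        rcases lt_or_ge (((0 : ℕ) : ℝ) + t * lD d A (z + 1 / 2).im ^ 2) (C * lD d A (z + 1 / 2).im)
          with h2 | h2
        · have h3 := hsm 0 t (z + 1 / 2) ht h2 e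
          rw [e2] at h3
          linarith
        · obtain ⟨l1, -, -⟩ := hcmp (z + 1 / 2).im
          have h3 := (key 0 t (z + 1 / 2) ht.le (by
            have : 4 * C0 * lD d A (z + 1 / 2).im ≤ C * lD d A (z + 1 / 2).im := by gcongr
            linarith) e).1
          rw [e2] at h3
          linarith) (s - 1 / 2) (by rw [hX, sub_add_cancel, hs, mul_zero])
      rw [hre] at h1
      linarith

lemma UL.monoB {m : ℕ} {B B' : ℝ → ℝ} {N θ : ℝ} {μ : Fin m → ℂ} {X L : ℂ → ℂ}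
    (h : UL m B N θ μ X L) (hBB : ∀ ρ, B ρ ≤ B' ρ) : UL m B' N θ μ X L := by
  refine ⟨h.hm, h.hN, fun ρ => (h.hB ρ).trans (hBB ρ), h.hθ, h.re_le, h.slow, h.fe, h.eq, h.ne,
    fun ρ h0 h1 s hs => (h.bd ρ h0 h1 s hs).trans ?_⟩
  exact mul_le_mul_of_nonneg_left (hBB ρ) (Nat.cast_nonneg _)

/-- the common bound for the logarithmic derivatives -/
noncomputable def BB (ρ : ℝ) : ℝ := Bst ρ + 4 * NF.B0

lemma cnE_le (N q : ℕ) (y : ℝ) : cnE N q y ≤
    (N : ℝ) * (q : ℝ) ^ 2 * ((1 + |y|) ^ 2 * Real.exp 2) := by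
  unfold cnE W355.UN.acond
  simp only [List.map_cons, List.map_nil, List.prod_cons, List.prod_nil, mul_one]
  have h2 := (im_le y (1 / 2)).2
  have h3 := (im_le y (3 / 2)).2
  rw [abs_of_pos (by norm_num : (0 : ℝ) < 1 / 2)] at h2
  rw [abs_of_pos (by norm_num : (0 : ℝ) < 3 / 2)] at h3
  have h4 := abs_nonneg y
  apply mul_le_mul_of_nonneg_left _ (by positivity)
  have he : (15 / 4 : ℝ) ≤ Real.exp 2 := by
    have h5 := Real.exp_one_gt_d9
    have e : Real.exp 2 = Real.exp 1 * Real.exp 1 := by rw [← Real.exp_add]; norm_num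
    rw [e]
    nlinarith
  have h6 : 1 + ‖(y : ℂ) * Complex.I + ((1 / 2 : ℝ) : ℂ)‖ ≤ (1 + |y|) * (3 / 2) := by linarith
  have h7 : 1 + ‖(y : ℂ) * Complex.I + ((3 / 2 : ℝ) : ℂ)‖ ≤ (1 + |y|) * (5 / 2) := by linarith
  calc (1 + ‖(y : ℂ) * Complex.I + ((1 / 2 : ℝ) : ℂ)‖) * (1 + ‖(y : ℂ) * Complex.I + ((3 / 2 : ℝ) : ℂ)‖) ≤
      ((1 + |y|) * (3 / 2)) * ((1 + |y|) * (5 / 2)) :=
        mul_le_mul h6 h7 (by positivity) (by positivity)
    _ = (1 + |y|) ^ 2 * (15 / 4) := by ring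
    _ ≤ _ := by gcongr

section
variable {N : ℕ} [NeZero N] {f : CuspForm (Gamma0 N : Subgroup (GL (Fin 2) ℝ)) 2} {w : ℝ}
variable {M : ℕ} [NeZero M] (G : Subgroup (DirichletCharacter ℂ M)) [Fintype G]

omit [NeZero N] in
lemma cmp_ab (hN : 0 < N) (hA1 : 1 ≤ condA G N) (y : ℝ) :
    1 ≤ lD (Fintype.card G) (condA G N) y ∧
    lD (Fintype.card G) (condA G N) y ≤ ((2 * Fintype.card G : ℕ) : ℝ) +
      Real.log (∏ χ : G, cnE N (χ : DirichletCharacter ℂ M).conductor y) ∧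
    ((2 * Fintype.card G : ℕ) : ℝ) +
      Real.log (∏ χ : G, cnE N (χ : DirichletCharacter ℂ M).conductor y) ≤
      4 * lD (Fintype.card G) (condA G N) y := by
  have hN0 : (0 : ℝ) < N := by exact_mod_cast hN
  have hc : ∀ χ : G, (0 : ℝ) < ((χ : DirichletCharacter ℂ M).conductor : ℝ) := fun χ => by
    exact_mod_cast Nat.pos_of_ne_zero (DirichletCharacter.conductor_ne_zero _)
  have hcard : (1 : ℝ) ≤ Fintype.card G := by exact_mod_cast Fintype.card_pos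
  have hApos : 0 < condA G N := by linarith
  have hpw : 1 ≤ (1 + |y|) ^ (2 * Fintype.card G) := one_le_pow₀ (by linarith [abs_nonneg y])
  have e : condA G N * (1 + |y|) ^ (2 * Fintype.card G) =
      ∏ χ : G, ((N : ℝ) * ((χ : DirichletCharacter ℂ M).conductor : ℝ) ^ 2 * (1 + |y|) ^ 2) := by
    unfold condA
    rw [Finset.prod_mul_distrib (g := fun _ => (1 + |y|) ^ 2), Finset.prod_const, Finset.card_univ,
      ← pow_mul]
  have e2 : condA G N * (1 + |y|) ^ (2 * Fintype.card G) * Real.exp (2 * Fintype.card G) =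
      ∏ χ : G, ((N : ℝ) * ((χ : DirichletCharacter ℂ M).conductor : ℝ) ^ 2 *
        ((1 + |y|) ^ 2 * Real.exp 2)) := by
    rw [e]
    have h1 : ∀ χ : G, (N : ℝ) * ((χ : DirichletCharacter ℂ M).conductor : ℝ) ^ 2 *
        ((1 + |y|) ^ 2 * Real.exp 2) =
        ((N : ℝ) * ((χ : DirichletCharacter ℂ M).conductor : ℝ) ^ 2 * (1 + |y|) ^ 2) *
          Real.exp 2 := fun χ => by ring
    simp only [h1]
    rw [Finset.prod_mul_distrib (g := fun _ => Real.exp 2), Finset.prod_const, Finset.card_univ,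
      ← Real.exp_nat_mul, mul_comm (Fintype.card G : ℝ) 2]
  have hge : condA G N * (1 + |y|) ^ (2 * Fintype.card G) ≤
      ∏ χ : G, cnE N (χ : DirichletCharacter ℂ M).conductor y := by
    rw [e]
    exact Finset.prod_le_prod (fun χ _ => by positivity) fun χ _ => cnE_ge N _ y
  have hle : ∏ χ : G, cnE N (χ : DirichletCharacter ℂ M).conductor y ≤
      condA G N * (1 + |y|) ^ (2 * Fintype.card G) * Real.exp (2 * Fintype.card G) := by
    rw [e2]
    refine Finset.prod_le_prod (fun χ _ => ?_) fun χ _ => cnE_le N _ y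
    have h1 := cnE_ge N (χ : DirichletCharacter ℂ M).conductor y
    have h2 := hc χ
    exact le_trans (by positivity) h1
  have hpos : 0 < condA G N * (1 + |y|) ^ (2 * Fintype.card G) := by positivity
  have l1 := Real.log_le_log hpos hge
  have l2 := Real.log_le_log (hpos.trans_le hge) hle
  rw [Real.log_mul hpos.ne' (Real.exp_pos _).ne', Real.log_exp] at l2
  have l0 : 0 ≤ Real.log (condA G N * (1 + |y|) ^ (2 * Fintype.card G)) :=
    Real.log_nonneg (by nlinarith)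
  unfold lD
  push_cast
  refine ⟨by linarith, by linarith, by linarith⟩

/-- the abelian case -/
theorem flow_ab {C0 : ℝ} (hC0 : 0 < C0)
    (H : ∀ (m : ℕ) (N θ : ℝ) (μ : Fin m → ℂ) (X L : ℂ → ℂ), UL m BB N θ μ X L → θ ≤ 1 →
      ∀ (t : ℝ) (n : ℕ) (s : ℂ), 0 ≤ t →
      C0 * (m + Real.log (W355.UN.cond N μ s.im)) ≤
        n + t * (m + Real.log (W355.UN.cond N μ s.im)) ^ 2 →
      iteratedDeriv n (heat t X) s = 0 → s.re = 1 / 2 ∧ iteratedDeriv (n + 1) (heat t X) s ≠ 0)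
    (hf : IsForm N f w) (hco : Nat.Coprime M N) :
    ∃ Λ : ℂ → ℂ, Differentiable ℂ Λ ∧ (∃ σ : ℝ, ∀ s : ℂ, σ ≤ s.re → Λ s = prodE G f s) ∧
    (∃ W : ℂ, ‖W‖ = 1 ∧ ∀ s : ℂ, Λ (2 - s) = W * conj (Λ (conj s))) ∧
    Flow (4 * C0 + 4 * C0 ^ 2) (Fintype.card G) (condA G N) Λ := by
  obtain ⟨X, hpk⟩ := pk_ab G hf hco
  have hdiff := hpk.diff
  obtain ⟨w', hw', hfe⟩ := hpk.fe
  have hA1 := hpk.one_le_N
  obtain ⟨μ, L, u, ec, σ, hσ⟩ := hpk
  have hNpos : 0 < N := Nat.pos_of_ne_zero (NeZero.ne N)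
  have hκ := kap_ne G hNpos
  have hre : ∀ s : ℂ, (s - 1 / 2).re = s.re - 1 / 2 := fun s => by simp
  have hu : UL (2 * Fintype.card G) BB (condA G N) 0 μ X L := UL.monoB u fun ρ => by
    have := NF.B0_nonneg
    unfold BB
    linarith
  refine ⟨fun s => (kap G N)⁻¹ * X (s - 1 / 2), ?_, ⟨σ + 1 / 2, fun s hs => ?_⟩,
    ⟨(kap G N)⁻¹ * w' * conj (kap G N), ?_, fun s => ?_⟩, ?_⟩
  · exact (hdiff.comp (by fun_prop : Differentiable ℂ fun s : ℂ => s - 1 / 2)).const_mul _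
  · show (kap G N)⁻¹ * X (s - 1 / 2) = prodE G f s
    rw [hσ (s - 1 / 2) (by rw [hre]; linarith)]
    show (kap G N)⁻¹ * (kap G N * prodE G f (s - 1 / 2 + 1 / 2)) = prodE G f s
    rw [sub_add_cancel, inv_mul_cancel_left₀ hκ]
  · rw [norm_mul, norm_mul, norm_inv, RCLike.norm_conj, hw', mul_one,
      inv_mul_cancel₀ (norm_ne_zero_iff.2 hκ)]
  · show (kap G N)⁻¹ * X (2 - s - 1 / 2) =
      (kap G N)⁻¹ * w' * conj (kap G N) * conj ((kap G N)⁻¹ * X (conj s - 1 / 2))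
    have h1 : (2 - s - 1 / 2 : ℂ) = 1 - (s - 1 / 2) := by ring
    have h2 : conj (s - 1 / 2) = conj s - 1 / 2 := by
      rw [map_sub, map_div₀, map_one, map_ofNat]
    have h3 : conj (kap G N) ≠ 0 := (map_ne_zero _).2 hκ
    rw [h1, hfe, h2, map_mul, map_inv₀]
    field_simp
  · refine flow_of hC0 (H _ _ _ _ _ _ hu zero_le_one) hu zero_le_one hκ (fun z => ?_) hA1
      fun y => ?_
    · show X z = kap G N * ((kap G N)⁻¹ * X (z + 1 / 2 - 1 / 2))
      rw [add_sub_cancel_right, mul_inv_cancel_left₀ hκ]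
    · rw [ec y]
      exact cmp_ab G hNpos hA1 y

end

/-- **Final theorem**, both cases with the same constant -/
theorem flow_all : ∃ C : ℝ, 0 < C ∧
    (∀ (K : Type) [Field K] [NumberField K] (a δ : HeightOneSpectrum (𝓞 K) → ℂ) (A : ℝ)
      (Λ : ℂ → ℂ), KL a δ A Λ → Flow C (dg K) A Λ) ∧
    ∀ (N : ℕ) [NeZero N] (f : CuspForm (Gamma0 N : Subgroup (GL (Fin 2) ℝ)) 2) (w : ℝ)
      (M : ℕ) [NeZero M] (G : Subgroup (DirichletCharacter ℂ M)) [Fintype G],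
      IsForm N f w → Nat.Coprime M N →
      ∃ Λ : ℂ → ℂ, Differentiable ℂ Λ ∧ (∃ σ : ℝ, ∀ s : ℂ, σ ≤ s.re → Λ s = prodE G f s) ∧
      (∃ W : ℂ, ‖W‖ = 1 ∧ ∀ s : ℂ, Λ (2 - s) = W * conj (Λ (conj s))) ∧
      Flow C (Fintype.card G) (condA G N) Λ := by
  obtain ⟨C0, hC0, H⟩ := main_all (B := BB) (by
    have h1 := NF.B0_nonneg
    have h2 := Bst_nonneg 1
    unfold BB
    linarith)
  refine ⟨4 * C0 + 4 * C0 ^ 2, by positivity, ?_, ?_⟩
  · intro K _ _ a δ A Λ h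
    have hul := UL.monoB h.ul (B' := BB) fun ρ => by
      have := Bst_nonneg ρ
      unfold BB
      linarith
    have hc0 : ((2 ^ dg K * A ^ (-(1 / 4 : ℝ)) : ℝ) : ℂ) ≠ 0 := by
      exact_mod_cast (cst_pos h).ne'
    exact flow_of hC0 (H _ _ _ _ _ _ hul le_rfl) hul le_rfl hc0 (fun z => rfl) h.one_le
      fun y => l_cmp (K := K) h.one_le y
  · intro N _ f w M _ G _ hf hco
    exact flow_ab G hC0 H hf hco

end Pool.Agent.TH839.UH
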