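import Pool.Agent.TH839.UH.EP
import Pool.Agent.TH839.UH.Aut
import Pool.Agent.W355.UN.PowCM

/-!
# Hasse-Weil L-functions: derivatives of the heat flow
-/

set_option autoImplicit false

open Complex Filter Topology Set
open scoped ComplexConjugate

namespace Pool.Agent.TH839.UH

open H353.E Pool.Agent.W355.UN Pool.Agent.TH839.NA
open Pool.Agent.W169.HF (heat db_all)

/-- the statements on the derivatives of the heat flow, for the line `Re s = x`; `cn` is the analytic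
conductor -/
structure ResS (C x : ℝ) (d : ℕ) (N : ℝ) (cn : ℝ → ℝ) (X : ℂ → ℂ) : Prop where
  loc : ∀ (n : ℕ) (t : ℝ) (s : ℂ), 0 ≤ t →
      C * (d + Real.log (cn s.im)) ≤ n + t * (d + Real.log (cn s.im)) ^ 2 →
      iteratedDeriv n (heat t X) s = 0 → s.re = x ∧ iteratedDeriv (n + 1) (heat t X) s ≠ 0
  hyp : ∀ (n : ℕ) (t : ℝ), 0 ≤ t → C ≤ n * t → ∀ s : ℂ,
      iteratedDeriv n (heat t X) s = 0 → s.re = x ∧ iteratedDeriv (n + 1) (heat t X) s ≠ 0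
  con : ∀ (n : ℕ) (t : ℝ), 0 ≤ t → C ≤ t * (d + Real.log N) → ∀ s : ℂ,
      iteratedDeriv n (heat t X) s = 0 → s.re = x ∧ iteratedDeriv (n + 1) (heat t X) s ≠ 0
  iff : (∀ s : ℂ, X s = 0 → s.re = x) ↔ ∀ (n : ℕ) (t : ℝ) (s : ℂ), 0 < t →
      n + t * (d + Real.log (cn s.im)) ^ 2 < C * (d + Real.log (cn s.im)) →
      iteratedDeriv n (heat t X) s = 0 → s.re = x

lemma heat_shiftc {X Λ : ℂ → ℂ} {κ : ℂ} {c : ℝ} (hX : ∀ z, X z = κ * Λ (z + c)) (hκ : κ ≠ 0)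
    (t : ℝ) : heat t Λ = fun w => κ⁻¹ * heat t X (w + (-(c : ℂ))) := by
  funext w
  unfold heat
  rw [← mul_assoc, mul_comm κ⁻¹, mul_assoc]
  congr 1
  rw [← MeasureTheory.integral_const_mul]
  congr 1
  funext v
  rw [hX]
  have e : w + -(c : ℂ) + ((2 * Real.sqrt t * v : ℝ) : ℂ) + c =
      w + ((2 * Real.sqrt t * v : ℝ) : ℂ) := by ring
  rw [e]
  field_simp

lemma deriv_shiftc {X Λ : ℂ → ℂ} {κ : ℂ} {c : ℝ} (hX : ∀ z, X z = κ * Λ (z + c)) (hκ : κ ≠ 0)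
    {t : ℝ} (hd : Differentiable ℂ (heat t X)) (n : ℕ) (s : ℂ) :
    iteratedDeriv n (heat t Λ) s = κ⁻¹ * iteratedDeriv n (heat t X) (s - c) := by
  rw [heat_shiftc hX hκ t]
  have h1 : ContDiffAt ℂ n (fun w => heat t X (w + (-(c : ℂ)))) s :=
    (hd.comp (by fun_prop : Differentiable ℂ fun w : ℂ => w + -(c : ℂ))).contDiff.contDiffAt
  rw [iteratedDeriv_const_mul κ⁻¹ h1, iteratedDeriv_comp_add_const]
  simp only [← sub_eq_add_neg]

theorem ResD.shift {C : ℝ} {d : ℕ} {N : ℝ} {cn : ℝ → ℝ} {X Λ : ℂ → ℂ} {κ : ℂ} {c : ℝ}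
    (h : ResD C d N cn X) (hd : ∀ t : ℝ, 0 ≤ t → Differentiable ℂ (heat t X))
    (hX : ∀ z, X z = κ * Λ (z + c)) (hκ : κ ≠ 0) : ResS C (1 / 2 + c) d N cn Λ := by
  have hder := fun (t : ℝ) (ht : 0 ≤ t) (n : ℕ) (s : ℂ) => deriv_shiftc hX hκ (hd t ht) n s
  have him : ∀ s : ℂ, (s - c).im = s.im := fun s => by
    rw [sub_im, ofReal_im, sub_zero]
  have hre : ∀ s : ℂ, (s - c).re = s.re - c := fun s => by
    rw [sub_re, ofReal_re]
  have hz : ∀ (t : ℝ), 0 ≤ t → ∀ (n : ℕ) (s : ℂ), iteratedDeriv n (heat t Λ) s = 0 →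
      iteratedDeriv n (heat t X) (s - c) = 0 := by
    intro t ht n s hs
    rw [hder t ht] at hs
    exact (mul_eq_zero.1 hs).resolve_left (inv_ne_zero hκ)
  have hback : ∀ (t : ℝ), 0 ≤ t → ∀ (n : ℕ) (s : ℂ),
      ((s - c).re = 1 / 2 ∧ iteratedDeriv (n + 1) (heat t X) (s - c) ≠ 0) →
      s.re = 1 / 2 + c ∧ iteratedDeriv (n + 1) (heat t Λ) s ≠ 0 := by
    rintro t ht n s ⟨h1, h2⟩
    refine ⟨by rw [hre] at h1; linarith, ?_⟩
    rw [hder t ht]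
    exact mul_ne_zero (inv_ne_zero hκ) h2
  refine ⟨?_, ?_, ?_, ?_⟩
  · intro n t s ht hl hs
    exact hback t ht n s (h.loc n t (s - c) ht (by rw [him]; exact hl) (hz t ht n s hs))
  · intro n t ht hnt s hs
    exact hback t ht n s (h.hyp n t ht hnt (s - c) (hz t ht n s hs))
  · intro n t ht hnt s hs
    exact hback t ht n s (h.con n t ht hnt (s - c) (hz t ht n s hs))
  · constructor
    · intro hR n t s ht hl hs
      have h1 := h.iff.1 (fun z hz0 => by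
        have h2 := hR (z + c) (by
          have := hX z
          rw [hz0] at this
          exact (mul_eq_zero.1 this.symm).resolve_left hκ)
        rw [add_re, ofReal_re] at h2
        linarith) n t (s - c) ht (by rw [him]; exact hl) (hz t ht.le n s hs)
      rw [hre] at h1
      linarith
    · intro hsm s hs
      have h1 := h.iff.2 (fun n t z ht hl hz0 => by
        have h2 := hsm n t (z + c) ht (by
          have e : (z + (c : ℂ)).im = z.im := by rw [add_im, ofReal_im, add_zero]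
          rw [e]
          exact hl) (by rw [hder t ht.le, add_sub_cancel_right, hz0, mul_zero])
        rw [add_re, ofReal_re] at h2
        linarith) (s - c) (by rw [hX, sub_add_cancel, hs, mul_zero])
      rw [hre] at h1
      linarith

/-- the common bound for the logarithmic derivatives -/
noncomputable def BH (ρ : ℝ) : ℝ := Bst ρ + (4 * NF.B0 + 2)

lemma ULmono {m : ℕ} {B B' : ℝ → ℝ} {N θ : ℝ} {μ : Fin m → ℂ} {X L : ℂ → ℂ}
    (h : UL m B N θ μ X L) (hBB : ∀ ρ, B ρ ≤ B' ρ) : UL m B' N θ μ X L := by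
  refine ⟨h.hm, h.hN, fun ρ => (h.hB ρ).trans (hBB ρ), h.hθ, h.re_le, h.slow, h.fe, h.eq, h.ne,
    fun ρ h0 h1 s hs => (h.bd ρ h0 h1 s hs).trans ?_⟩
  exact mul_le_mul_of_nonneg_left (hBB ρ) (Nat.cast_nonneg _)

lemma le_cond {m : ℕ} {N : ℝ} (hN : 1 ≤ N) (μ : Fin m → ℂ) (y : ℝ) :
    N ≤ W355.UN.cond N μ y := by
  unfold Pool.Agent.W355.UN.cond
  have h1 : 1 ≤ ∏ j, (1 + ‖(y : ℂ) * I - μ j‖) := by
    refine Finset.prod_induction _ (fun x => (1 : ℝ) ≤ x) (fun a b ha hb => ?_) le_rfl fun j _ => ?_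
    · nlinarith
    · linarith [norm_nonneg ((y : ℂ) * I - μ j)]
  nlinarith

/-- both classes with the same constant -/
theorem finH : ∃ C : ℝ, 0 < C ∧
    (∀ (θ : ℝ) (d : ℕ) (N : ℝ) (cn : ℝ → ℝ) (G X : ℂ → ℂ), PkT θ d N cn G X → θ ≤ 1 →
      ResD C d N cn X) ∧
    ∀ (m r : ℕ) (N : ℝ) (a : Fin m → ℂ) (α : Nat.Primes → Fin m → ℂ) (X : ℂ → ℂ),
      EP.HW m r N a α X → ResD C m N (fun y => W355.UN.cond N (fun j => -a j) y) X := by
  obtain ⟨C0, hC0, H⟩ := main_all (B := BH) (by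
    have h1 := NF.B0_nonneg
    have h2 := Bst_nonneg 1
    unfold BH
    linarith)
  refine ⟨C0 + C0 ^ 2, by positivity, fun θ d N cn G X h hθ => ?_, fun m r N a α X h => ?_⟩
  · have hle := h.le_cn
    obtain ⟨μ, L, u, e, -⟩ := h
    have u' := ULmono u (B' := BH) fun ρ => by
      have := NF.B0_nonneg
      unfold BH
      linarith
    exact resD_of hC0 (H _ _ _ _ _ _ u' hθ) u' hθ e hle
  · have u' := ULmono h.ul (B' := BH) fun ρ => by
      have := Bst_nonneg ρ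
      unfold BH
      linarith
    exact resD_of hC0 (H _ _ _ _ _ _ u' le_rfl) u' le_rfl (fun y => rfl) fun y => le_cond h.hN _ y

/-- the powers of the curve `y² = x³ - x`, all odd degrees of cohomology -/
theorem pow_cm {C : ℝ} (H : ∀ (θ : ℝ) (d : ℕ) (N : ℝ) (cn : ℝ → ℝ) (G X : ℂ → ℂ),
    PkT θ d N cn G X → θ ≤ 1 → ResD C d N cn X) (g m : ℕ) (hm : m < g) :
    ∃ (Λ : ℂ → ℂ), Differentiable ℂ Λ ∧
    (∀ s : ℂ, (((2 * m + 1 : ℕ) : ℝ) - 1) / 2 < s.re →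
      Λ s = (W355.HW.Cond g (2 * m + 1) : ℂ) ^ ((s - ((2 * m + 1 : ℕ) : ℂ) / 2) / 2) *
        W355.HW.GamF g (2 * m + 1) s * W355.HW.LL0 g m (s - ((2 * m + 1 : ℕ) : ℂ) / 2)) ∧
    (∀ s : ℂ, Λ (conj s) = conj (Λ s)) ∧
    (∃ r : ℕ, r ≤ 1 ∧ ∀ s : ℂ, Λ (((2 * m + 1 : ℕ) : ℂ) + 1 - s) = (-1) ^ r * Λ s) ∧
    ResS C ((((2 * m + 1 : ℕ) : ℝ) + 1) / 2) ((2 * g).choose (2 * m + 1))
      (W355.HW.Cond g (2 * m + 1)) (cnP g (2 * m + 1)) Λ := by
  obtain ⟨C', K, hC', -, H'⟩ := Pool.Agent.W355.UN.fin_all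
  obtain ⟨Λ, h1, h2, h3, h4, -⟩ := Pool.Agent.W355.UN.main_pow H' hC' g m hm
  refine ⟨Λ, h1, h2, h3, h4, ?_⟩
  obtain ⟨X, hpk, hst⟩ := pk_pow g m hm
  have hres := H 0 _ _ _ _ _ (PkT.of_pk hpk) zero_le_one
  have hd := hpk.diff
  obtain ⟨μ, L, u, ec, σ, hσ⟩ := hpk
  have hdiff : ∀ t : ℝ, 0 ≤ t → Differentiable ℂ (heat t X) := fun t ht =>
    (db_all _ _ u.cl u.nontriv t ht).2.slow.1
  have hc2 : ((2 * m + 1 : ℕ) : ℂ) / 2 = (((((2 * m + 1 : ℕ) : ℝ) / 2 : ℝ)) : ℂ) := by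
    push_cast
    rfl
  have hX : ∀ z, X z = 1 * Λ (z + (((((2 * m + 1 : ℕ) : ℝ) / 2 : ℝ)) : ℂ)) := by
    intro z
    rw [one_mul]
    have hd2 : Differentiable ℂ fun z : ℂ => Λ (z + (((((2 * m + 1 : ℕ) : ℝ) / 2 : ℝ)) : ℂ)) :=
      h1.comp (by fun_prop)
    have e : (fun z => Λ (z + (((((2 * m + 1 : ℕ) : ℝ) / 2 : ℝ)) : ℂ))) = X := by
      refine Pk.uniq hd hd2 (G := W355.HW.GP g m) ⟨σ, hσ⟩ ⟨0, fun s hs => ?_⟩
      show Λ (s + (((((2 * m + 1 : ℕ) : ℝ) / 2 : ℝ)) : ℂ)) = _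
      rw [h2 _ (by rw [add_re, ofReal_re]; linarith), hc2, add_sub_cancel_right]
      unfold W355.HW.GP
      rw [W355.HW.BB_eq, ← W355.HW.GamF_eq]
      rw [← hc2]
      simp only [add_sub_cancel_right]
    exact (congrFun e z).symm
  have hs := hres.shift hdiff hX one_ne_zero
  have e : (1 / 2 + (((2 * m + 1 : ℕ) : ℝ) / 2)) = ((((2 * m + 1 : ℕ) : ℝ) + 1) / 2) := by ring
  rw [e] at hs
  exact hs

end Pool.Agent.TH839.UH
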