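import Pool.Agent.TH839.UH.NF
import Pool.Agent.TH839.UH.Glob
import Pool.Agent.W355.UN.Raw
import Pool.Agent.W12.UN.Slow
import Pool.Agent.W215.UN.Gam

/-!
# Completed Euler products of degree two over number fields belong to the class `UL`
-/

set_option autoImplicit false

open Complex Filter Topology NumberField IsDedekindDomain Set
open scoped ComplexConjugate

namespace Pool.Agent.TH839.UH

open Pool.Agent.H921R2.TatePole Pool.Agent.W169.HF H353.E Pool.Agent.W355.UN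
open Pool.Agent.TH839.UH.NF (gv LG)

section
variable {K : Type} [Field K] [NumberField K]
variable {a δ : HeightOneSpectrum (𝓞 K) → ℂ} {A : ℝ} {Λ : ℂ → ℂ}

variable (K) in
/-- the degree of the number field -/
noncomputable abbrev dg : ℕ := Module.finrank ℚ K

/-- the Euler product -/
noncomputable def EL (a δ : HeightOneSpectrum (𝓞 K) → ℂ) (s : ℂ) : ℂ :=
  ∏' v : HeightOneSpectrum (𝓞 K), (1 + gv a δ v s)⁻¹

/-- a completed L-function with an Euler product of degree two over the places of `K` -/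
structure KL (a δ : HeightOneSpectrum (𝓞 K) → ℂ) (A : ℝ) (Λ : ℂ → ℂ) : Prop where
  ha : ∀ v, ‖a v‖ ≤ nm v
  hδ : ∀ v, ‖δ v‖ ≤ nm v
  rea : ∀ v, conj (a v) = a v
  reδ : ∀ v, conj (δ v) = δ v
  one_le : 1 ≤ A
  entire : Differentiable ℂ Λ
  order : ∃ c ρ : ℝ, ∀ s : ℂ, ‖Λ s‖ ≤ Real.exp (c * (1 + ‖s‖) ^ ρ)
  fe : ∃ w : ℝ, (w = 1 ∨ w = -1) ∧ ∀ s : ℂ, Λ s = w * Λ (2 - s)
  eq : ∃ σ : ℝ, ∀ s : ℂ, σ ≤ s.re → Λ s = (A : ℂ) ^ (s / 2) *
    ((2 * (Real.pi : ℂ)) ^ (-s) * Gamma s) ^ dg K * EL a δ s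

/-- the shifts of the gamma factors -/
noncomputable def mu (n : ℕ) : Fin (n + n) → ℂ :=
  Fin.append (fun _ : Fin n => (-1 / 2 : ℂ)) (fun _ : Fin n => (-3 / 2 : ℂ))

lemma mu_cases {n : ℕ} (j : Fin (n + n)) : mu n j = -1 / 2 ∨ mu n j = -3 / 2 := by
  unfold mu
  refine Fin.addCases (fun i => ?_) (fun i => ?_) j
  · left; rw [Fin.append_left]
  · right; rw [Fin.append_right]

lemma mu_re {n : ℕ} (j : Fin (n + n)) : (mu n j).re ≤ 1 / 2 := by
  rcases mu_cases j with h | h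
  · rw [h, show (-1 / 2 : ℂ) = ((-1 / 2 : ℝ) : ℂ) by push_cast; ring, Complex.ofReal_re]
    norm_num
  · rw [h, show (-3 / 2 : ℂ) = ((-3 / 2 : ℝ) : ℂ) by push_cast; ring, Complex.ofReal_re]
    norm_num

lemma gaf_mu (A : ℝ) (n : ℕ) (s : ℂ) : gaf A (mu n) s = (A : ℂ) ^ (s / 2) *
    (2 * (2 * (Real.pi : ℂ)) ^ (-(s + 1 / 2)) * Gamma (s + 1 / 2)) ^ n := by
  unfold gaf mu
  rw [Fin.prod_univ_add]
  simp only [Fin.append_left, Fin.append_right, Finset.prod_const, Finset.card_univ, Fintype.card_fin]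
  rw [← mul_pow]
  congr 2
  have e1 : s - -1 / 2 = s + 1 / 2 := by ring
  have e2 : s - -3 / 2 = s + 1 / 2 + 1 := by ring
  rw [e1, e2, Complex.Gammaℝ_mul_Gammaℝ_add_one, Complex.Gammaℂ_def]

/-- the normalised function -/
noncomputable def NX (K : Type) [Field K] [NumberField K] (A : ℝ) (Λ : ℂ → ℂ) (z : ℂ) : ℂ :=
  ((2 ^ dg K * A ^ (-(1 / 4 : ℝ)) : ℝ) : ℂ) * Λ (z + 1 / 2)

lemma cst_pos (h : KL a δ A Λ) : 0 < 2 ^ dg K * A ^ (-(1 / 4 : ℝ)) := by
  have hA : 0 < A := by linarith [h.one_le]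
  positivity

lemma EL_an (h : KL a δ A Λ) {s : ℂ} (hs : 9 / 4 < s.re) : DifferentiableAt ℂ (EL a δ) s ∧
    EL a δ s ≠ 0 := by
  have hopen : IsOpen {s : ℂ | 9 / 4 < s.re} := isOpen_lt continuous_const Complex.continuous_re
  have hev : EL a δ =ᶠ[𝓝 s] fun s => cexp (LG a δ s) := by
    filter_upwards [hopen.mem_nhds hs] with z hz
    exact (NF.prod_eq h.ha h.hδ (le_of_lt hz)).tprod_eq
  constructor
  · exact (((NF.LG_diff h.ha h.hδ).differentiableAt (hopen.mem_nhds hs)).cexp).congr_of_eventuallyEq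
      hev
  · rw [hev.eq_of_nhds]
    exact Complex.exp_ne_zero _

lemma conj_pow {x : ℂ} (hx : x.arg ≠ Real.pi) (hr : conj x = x) (w : ℂ) :
    conj (x ^ w) = x ^ conj w := by
  rw [Complex.cpow_conj _ _ hx, hr]

lemma EL_conj (h : KL a δ A Λ) {s : ℂ} (hs : 9 / 4 < s.re) :
    conj (EL a δ (conj s)) = EL a δ s := by
  have h1 := NF.prod_eq h.ha h.hδ (s := conj s) (by rw [Complex.conj_re]; exact hs.le)
  have h2 := h1.map (starRingEnd ℂ) Complex.continuous_conj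
  have h3 := NF.prod_eq h.ha h.hδ (s := s) hs.le
  have e : ∀ v, conj (1 + gv a δ v (conj s))⁻¹ = (1 + gv a δ v s)⁻¹ := by
    intro v
    unfold gv
    have hn : (((nm v : ℕ) : ℂ)).arg ≠ Real.pi := by
      rw [Complex.natCast_arg]
      exact Real.pi_pos.ne
    simp only [map_inv₀, map_add, map_neg, map_mul, map_one, h.rea, h.reδ]
    have hr : conj (((nm v : ℕ) : ℂ)) = ((nm v : ℕ) : ℂ) := Complex.conj_natCast _
    rw [conj_pow hn hr, conj_pow hn hr]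
    simp only [map_neg, map_mul, map_ofNat, Complex.conj_conj]
  have h4 : HasProd (fun v : HeightOneSpectrum (𝓞 K) => (1 + gv a δ v s)⁻¹)
      (conj (cexp (LG a δ (conj s)))) := by
    refine h2.congr_fun fun v => ?_
    simp only [Function.comp_apply]
    exact (e v).symm
  unfold EL
  rw [h1.tprod_eq, h4.tprod_eq]

lemma rhs_an (h : KL a δ A Λ) {s : ℂ} (hs : 9 / 4 < s.re) : DifferentiableAt ℂ
    (fun s : ℂ => (A : ℂ) ^ (s / 2) * ((2 * (Real.pi : ℂ)) ^ (-s) * Gamma s) ^ dg K * EL a δ s) s := by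
  have hA : (A : ℂ) ≠ 0 := by
    have := h.one_le
    exact_mod_cast (by linarith : (0 : ℝ) < A).ne'
  have hpi : (2 * (Real.pi : ℂ)) ≠ 0 := by
    have := Real.pi_ne_zero
    simp [this]
  have h1 : DifferentiableAt ℂ (fun s : ℂ => (A : ℂ) ^ (s / 2)) s :=
    DifferentiableAt.const_cpow (by fun_prop) (Or.inl hA)
  have h2 : DifferentiableAt ℂ (fun s : ℂ => (2 * (Real.pi : ℂ)) ^ (-s)) s :=
    DifferentiableAt.const_cpow (by fun_prop) (Or.inl hpi)
  have h3 : DifferentiableAt ℂ Gamma s := by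
    refine Complex.differentiableAt_Gamma s fun m hm => ?_
    rw [hm, Complex.neg_re, Complex.natCast_re] at hs
    have : (0 : ℝ) ≤ m := Nat.cast_nonneg m
    linarith
  exact (h1.mul ((h2.mul h3).pow _)).mul (EL_an h hs).1

/-- the formula for `Λ` holds for `Re s > 9/4` -/
lemma KL.eq' (h : KL a δ A Λ) {s : ℂ} (hs : 9 / 4 < s.re) : Λ s = (A : ℂ) ^ (s / 2) *
    ((2 * (Real.pi : ℂ)) ^ (-s) * Gamma s) ^ dg K * EL a δ s := by
  obtain ⟨σ, hσ⟩ := h.eq
  have h1 : AnalyticOnNhd ℂ Λ {s : ℂ | 9 / 4 < s.re} := fun z _ => h.entire.analyticAt z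
  have hopen : IsOpen {s : ℂ | 9 / 4 < s.re} := isOpen_lt continuous_const Complex.continuous_re
  have h2 : AnalyticOnNhd ℂ (fun s : ℂ => (A : ℂ) ^ (s / 2) *
      ((2 * (Real.pi : ℂ)) ^ (-s) * Gamma s) ^ dg K * EL a δ s) {s : ℂ | 9 / 4 < s.re} :=
    DifferentiableOn.analyticOnNhd (fun z hz => (rhs_an h hz).differentiableWithinAt) hopen
  have hz0 : ((max σ (9 / 4) + 1 : ℝ) : ℂ) ∈ {s : ℂ | 9 / 4 < s.re} := by
    have := le_max_right σ (9 / 4)
    show 9 / 4 < (((max σ (9 / 4) + 1 : ℝ) : ℂ)).re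
    rw [Complex.ofReal_re]
    linarith
  refine h1.eqOn_of_preconnected_of_eventuallyEq h2 (convex_halfSpace_re_gt (9 / 4)).isPreconnected
    hz0 ?_ hs
  have h3 : ∀ᶠ z : ℂ in 𝓝 ((max σ (9 / 4) + 1 : ℝ) : ℂ), σ < z.re := by
    have := le_max_left σ (9 / 4)
    exact (Complex.continuous_re.tendsto _).eventually (lt_mem_nhds (by
      rw [Complex.ofReal_re]
      linarith))
  filter_upwards [h3] with z hz
  exact hσ z hz.le

lemma KL.conj (h : KL a δ A Λ) (s : ℂ) : conj (Λ (conj s)) = Λ s := by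
  have h1 : AnalyticOnNhd ℂ Λ univ := fun z _ => h.entire.analyticAt z
  have h2 : AnalyticOnNhd ℂ (fun s => conj (Λ (conj s))) univ := by
    have : Differentiable ℂ (fun s => conj (Λ (conj s))) := by
      intro z
      have := (h.entire (conj z)).hasDerivAt.conj_conj
      rw [Complex.conj_conj] at this
      exact this.differentiableAt
    exact fun z _ => this.analyticAt z
  refine h2.eqOn_of_preconnected_of_eventuallyEq h1 isPreconnected_univ (mem_univ (3 : ℂ)) ?_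
    (mem_univ s)
  have h3 : ∀ᶠ z : ℂ in 𝓝 (3 : ℂ), 9 / 4 < z.re :=
    (Complex.continuous_re.tendsto _).eventually (lt_mem_nhds (by norm_num))
  filter_upwards [h3] with z hz
  rw [h.eq' (s := conj z) (by rw [Complex.conj_re]; exact hz), h.eq' hz]
  have hA0 : 0 < A := by linarith [h.one_le]
  have hA : ((A : ℂ)).arg ≠ Real.pi := by
    rw [Complex.arg_ofReal_of_nonneg hA0.le]
    exact Real.pi_pos.ne
  have hpi : ((2 * (Real.pi : ℂ))).arg ≠ Real.pi := by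
    rw [show (2 * (Real.pi : ℂ)) = ((2 * Real.pi : ℝ) : ℂ) by push_cast; ring,
      Complex.arg_ofReal_of_nonneg (by have := Real.pi_pos; positivity)]
    exact Real.pi_pos.ne
  simp only [map_mul, map_pow]
  have hr1 : (starRingEnd ℂ) (A : ℂ) = A := Complex.conj_ofReal _
  have hr2 : (starRingEnd ℂ) (2 * (Real.pi : ℂ)) = 2 * (Real.pi : ℂ) := by
    rw [map_mul, Complex.conj_ofReal, map_ofNat]
  rw [EL_conj h hz, conj_pow hA hr1, conj_pow hpi hr2, ← Complex.Gamma_conj]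
  simp only [map_neg, map_div₀, map_ofNat, Complex.conj_conj]

lemma NX_fe (h : KL a δ A Λ) : ∃ ε : ℂ, ‖ε‖ = 1 ∧ ∀ s : ℂ, NX K A Λ s =
    ε * conj (NX K A Λ (1 - conj s)) := by
  obtain ⟨w, hw, hfe⟩ := h.fe
  refine ⟨w, ?_, fun s => ?_⟩
  · rcases hw with rfl | rfl <;> simp
  · unfold NX
    rw [map_mul, Complex.conj_ofReal]
    have e : conj (Λ (1 - conj s + 1 / 2)) = Λ (2 - (s + 1 / 2)) := by
      rw [← h.conj (2 - (s + 1 / 2))]
      congr 2
      simp only [map_sub, map_add, map_ofNat, map_div₀, map_one]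
      ring
    rw [e, hfe (s + 1 / 2)]
    ring

lemma NX_eq (h : KL a δ A Λ) {s : ℂ} (hs : 7 / 4 < s.re) :
    NX K A Λ s = gaf A (mu (dg K)) s * EL a δ (s + 1 / 2) := by
  have hA0 : 0 < A := by linarith [h.one_le]
  have hA : (A : ℂ) ≠ 0 := by exact_mod_cast hA0.ne'
  have hre : (s + 1 / 2).re = s.re + 1 / 2 := by simp
  unfold NX
  rw [h.eq' (by rw [hre]; linarith), gaf_mu]
  have e1 : (A : ℂ) ^ ((s + 1 / 2) / 2) = (A : ℂ) ^ (s / 2) * (A : ℂ) ^ (1 / 4 : ℂ) := by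
    rw [← Complex.cpow_add _ _ hA]
    congr 1
    ring
  have e2 : ((A ^ (-(1 / 4 : ℝ)) : ℝ) : ℂ) * (A : ℂ) ^ (1 / 4 : ℂ) = 1 := by
    rw [Complex.ofReal_cpow hA0.le, ← Complex.cpow_add _ _ hA]
    push_cast
    rw [neg_add_cancel, Complex.cpow_zero]
  rw [e1]
  push_cast at e2 ⊢
  have e3 : (2 * (2 * (Real.pi : ℂ)) ^ (-(s + 1 / 2)) * Gamma (s + 1 / 2)) ^ dg K =
      2 ^ dg K * ((2 * (Real.pi : ℂ)) ^ (-(s + 1 / 2)) * Gamma (s + 1 / 2)) ^ dg K := by
    rw [← mul_pow]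
    congr 1
    ring
  rw [e3]
  linear_combination (2 ^ dg K * (A : ℂ) ^ (s / 2) *
    ((2 * (Real.pi : ℂ)) ^ (-(s + 1 / 2)) * Gamma (s + 1 / 2)) ^ dg K * EL a δ (s + 1 / 2)) * e2

lemma dg_pos : 1 ≤ dg K := Module.finrank_pos

lemma NX_diff (h : KL a δ A Λ) : Differentiable ℂ (NX K A Λ) := by
  unfold NX
  exact (h.entire.comp (by fun_prop : Differentiable ℂ fun z : ℂ => z + 1 / 2)).const_mul _

lemma NX_order (h : KL a δ A Λ) : ∃ c ρ : ℝ, ∀ s : ℂ, ‖NX K A Λ s‖ ≤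
    Real.exp (c * (1 + ‖s‖) ^ ρ) := by
  obtain ⟨c, ρ, hb⟩ := h.order
  have hc0 := cst_pos h
  obtain ⟨cst, hcst⟩ : ∃ cst : ℝ, cst = 2 ^ dg K * A ^ (-(1 / 4 : ℝ)) := ⟨_, rfl⟩
  rw [← hcst] at hc0
  refine ⟨|Real.log cst| + |c| * 2 ^ |ρ|, |ρ|, fun s => ?_⟩
  unfold NX
  rw [← hcst, norm_mul, Complex.norm_real, Real.norm_eq_abs, abs_of_pos hc0]
  have h1 : 1 ≤ 1 + ‖s‖ := by linarith [norm_nonneg s]
  have h2 : 1 ≤ 1 + ‖s + 1 / 2‖ := by linarith [norm_nonneg (s + 1 / 2)]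
  have h3 : 1 + ‖s + 1 / 2‖ ≤ 2 * (1 + ‖s‖) := by
    have := norm_add_le s (1 / 2)
    have e : ‖(1 / 2 : ℂ)‖ = 1 / 2 := by
      rw [show (1 / 2 : ℂ) = ((1 / 2 : ℝ) : ℂ) by push_cast; ring, Complex.norm_real]
      norm_num
    rw [e] at this
    linarith [norm_nonneg s]
  have h4 : c * (1 + ‖s + 1 / 2‖) ^ ρ ≤ |c| * (2 ^ |ρ| * (1 + ‖s‖) ^ |ρ|) := by
    have h5 : (1 + ‖s + 1 / 2‖) ^ ρ ≤ (1 + ‖s + 1 / 2‖) ^ |ρ| :=
      Real.rpow_le_rpow_of_exponent_le h2 (le_abs_self ρ)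
    have h6 : (1 + ‖s + 1 / 2‖) ^ |ρ| ≤ (2 * (1 + ‖s‖)) ^ |ρ| :=
      Real.rpow_le_rpow (by linarith) h3 (abs_nonneg ρ)
    rw [Real.mul_rpow (by norm_num) (by linarith)] at h6
    have h7 : 0 ≤ (1 + ‖s + 1 / 2‖) ^ ρ := Real.rpow_nonneg (by linarith) _
    calc c * (1 + ‖s + 1 / 2‖) ^ ρ ≤ |c| * (1 + ‖s + 1 / 2‖) ^ ρ :=
          mul_le_mul_of_nonneg_right (le_abs_self c) h7
      _ ≤ _ := mul_le_mul_of_nonneg_left (h5.trans h6) (abs_nonneg c)
  have h5 : 1 ≤ (1 + ‖s‖) ^ |ρ| := Real.one_le_rpow h1 (abs_nonneg ρ)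
  have h6 : Real.log cst ≤ |Real.log cst| * (1 + ‖s‖) ^ |ρ| := by
    have := le_abs_self (Real.log cst)
    have := abs_nonneg (Real.log cst)
    nlinarith
  calc cst * ‖Λ (s + 1 / 2)‖ ≤ Real.exp (Real.log cst) * Real.exp (c * (1 + ‖s + 1 / 2‖) ^ ρ) := by
        rw [Real.exp_log hc0]
        exact mul_le_mul_of_nonneg_left (hb _) hc0.le
    _ = Real.exp (Real.log cst + c * (1 + ‖s + 1 / 2‖) ^ ρ) := (Real.exp_add _ _).symm
    _ ≤ _ := by
        apply Real.exp_le_exp.2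
        calc _ ≤ |Real.log cst| * (1 + ‖s‖) ^ |ρ| + |c| * (2 ^ |ρ| * (1 + ‖s‖) ^ |ρ|) :=
              add_le_add h6 h4
          _ = _ := by ring

lemma NX_slow (h : KL a δ A Λ) : Slow (NX K A Λ) := by
  refine ⟨NX_diff h, Pool.Agent.W12.UN.slow _ (NX_diff h) (NX_order h) (NX_fe h) ?_⟩
  have hN0 : 0 < A := by linarith [h.one_le]
  have hcp : SlowR fun s : ℂ => (A : ℂ) ^ (s / 2) := by
    refine SlowR.of_exp (A := 0) (k := Real.log A) fun s hs => ?_
    rw [Complex.norm_cpow_eq_rpow_re_of_pos hN0, Real.rpow_def_of_pos hN0, zero_add]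
    apply Real.exp_le_exp.2
    have h1 : (s / 2).re ≤ ‖s‖ := by
      have e : (s / 2).re = s.re / 2 := by
        rw [show (2 : ℂ) = ((2 : ℝ) : ℂ) by norm_num, Complex.div_ofReal_re]
      rw [e]
      have := Complex.re_le_norm s
      linarith
    exact mul_le_mul_of_nonneg_left h1 (Real.log_nonneg h.one_le)
  have hga : SlowR fun s : ℂ => ∏ j, Gammaℝ (s + -mu (dg K) j) :=
    SlowR.prod Finset.univ fun j => Pool.Agent.W215.UN.gam (-mu (dg K) j) (by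
      have := mu_re j
      rw [neg_re]
      linarith)
  have hL : SlowR fun s : ℂ => EL a δ (s + 1 / 2) := by
    refine SlowR.of_exp (A := dg K * NF.B0) (k := 0) fun s hs => ?_
    have hre : (s + 1 / 2).re = s.re + 1 / 2 := by simp
    have h1 : EL a δ (s + 1 / 2) = cexp (LG a δ (s + 1 / 2)) :=
      (NF.prod_eq h.ha h.hδ (by rw [hre]; linarith)).tprod_eq
    rw [h1, Complex.norm_exp, zero_mul, add_zero]
    apply Real.exp_le_exp.2
    exact (Complex.re_le_norm _).trans (NF.LG_le h.ha h.hδ (by rw [hre]; linarith))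
  have key := (hcp.mul hga).mul hL
  intro d hd
  obtain ⟨C, hC, H⟩ := key d hd
  refine ⟨C, hC, fun s hs => ?_⟩
  rw [NX_eq h (by linarith)]
  have e : gaf A (mu (dg K)) s = (A : ℂ) ^ (s / 2) * ∏ j, Gammaℝ (s + -mu (dg K) j) := by
    unfold gaf
    simp only [← sub_eq_add_neg]
  rw [e]
  exact H s hs

/-- the completed L-functions over number fields belong to the class `UL`, with an absolute constant -/
theorem KL.ul (h : KL a δ A Λ) : UL (dg K + dg K) (fun _ => 4 * NF.B0) A 1 (mu (dg K)) (NX K A Λ)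
    (fun s => EL a δ (s + 1 / 2)) := by
  have hB := NF.B0_nonneg
  refine ⟨by have := dg_pos (K := K); omega, h.one_le, fun _ => by linarith, zero_le_one, mu_re,
    NX_slow h, NX_fe h, fun s hs => NX_eq h (by linarith), fun s hs => ?_, fun ρ hρ _ s hs => ?_⟩
  · refine (EL_an h ?_).2
    have hre : (s + 1 / 2).re = s.re + 1 / 2 := by simp
    rw [hre]
    linarith
  · have hre : (s + 1 / 2).re = s.re + 1 / 2 := by simp
    have h1 := NF.logDeriv_le h.ha h.hδ (s := s + 1 / 2) (by rw [hre]; linarith)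
    have h2 : logDeriv (fun s => EL a δ (s + 1 / 2)) s = logDeriv (EL a δ) (s + 1 / 2) := by
      rw [logDeriv_apply, logDeriv_apply, deriv_comp_add_const]
    rw [h2]
    refine h1.trans (le_of_eq ?_)
    push_cast
    ring

end

end Pool.Agent.TH839.UH
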