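import Pool.Agent.TH839.UH.Ell

/-!
# Derivatives of the heat flow, uniformly in the degree: main theorem
-/

set_option autoImplicit false

open Complex MeasureTheory Filter Topology Set
open scoped ComplexConjugate

namespace Pool.Agent.TH839.UH

open Pool.Agent.W169.HF H353.E Pool.Agent.W355.UN

variable {m : ℕ} {B : ℝ → ℝ} {N θ : ℝ} {μ : Fin m → ℂ} {X L : ℂ → ℂ}

/-- the logarithmic derivative at the scale `S` -/
lemma dist_le (h : UL m B N θ μ X L) (hθ : θ ≤ 1) {S y : ℝ} (hS : 6 ≤ S) {w : ℂ}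
    (hw : 1 / 2 + S / 2 ≤ (1 / 2 + 2 * S + y * I + w : ℂ).re) :
    ‖logDeriv X (1 / 2 + 2 * S + y * I + w) - ell N μ y S‖ ≤ m * (12 / S * ‖w‖ + 6 + B 1) := by
  have hS0 : 0 < S := by linarith
  have hm : (1 : ℝ) ≤ m := by exact_mod_cast h.hm
  have gp := h.gp
  obtain ⟨s0, hs0⟩ : ∃ s0 : ℂ, s0 = 1 / 2 + 2 * S + y * I := ⟨_, rfl⟩
  obtain ⟨ℓ, hℓ⟩ : ∃ ℓ : ℝ, ℓ = ell N μ y S := ⟨_, rfl⟩
  have hs0re : s0.re = 1 / 2 + 2 * S := by rw [hs0]; simp
  rw [← hs0] at hw ⊢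
  rw [← hℓ]
  rw [h.logD (by linarith)]
  have h1 : ‖gaD N μ (s0 + w) - gaD N μ s0‖ ≤ m * (12 / S * ‖w‖) := by
    have h2 := gp.lipD (ρ := (S + 1) / 2) (by linarith) (by linarith : (S + 1) / 2 ≤ (s0 + w).re)
      (by rw [hs0re]; linarith)
    rw [add_sub_cancel_left] at h2
    refine h2.trans ?_
    have h3 : 6 * (m : ℝ) / ((S + 1) / 2) ≤ m * (12 / S) := by
      rw [div_le_iff₀ (by linarith)]
      have e : m * (12 / S) * ((S + 1) / 2) = 6 * m + 6 * m / S := by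
        field_simp
        ring
      rw [e]
      have : 0 ≤ 6 * (m : ℝ) / S := by positivity
      linarith
    calc 6 * (m : ℝ) / ((S + 1) / 2) * ‖w‖ ≤ m * (12 / S) * ‖w‖ := by gcongr
      _ = _ := by ring
  have h2 : ‖gaD N μ s0 - ℓ‖ ≤ m * 6 := by
    have e3 : gaD N μ s0 - ℓ = ((gaD N μ s0).im : ℂ) * I := by
      rw [hℓ, ell, ← hs0]
      apply Complex.ext <;> simp
    rw [e3, norm_mul, Complex.norm_I, mul_one, Complex.norm_real, Real.norm_eq_abs]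
    have := gp.im s0 (by linarith)
    linarith
  have h3 := h.bd 1 one_pos le_rfl (s0 + w) (by linarith)
  have e : gaD N μ (s0 + w) + logDeriv L (s0 + w) - ℓ =
      (gaD N μ (s0 + w) - gaD N μ s0) + (gaD N μ s0 - ℓ) + logDeriv L (s0 + w) := by ring
  rw [e]
  refine (norm_add₃_le).trans ?_
  have e2 : m * (12 / S * ‖w‖ + 6 + B 1) = m * (12 / S * ‖w‖) + m * 6 + m * B 1 := by ring
  rw [e2]
  linarith

/-- the logarithmic derivative is unbounded on the right -/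
lemma big (h : UL m B N θ μ X L) (hθ : θ ≤ 1) {b : ℝ} (hb : b ≤ 3 / 2) (c : ℝ) :
    ∃ s : ℂ, 1 / 2 + b + 1 ≤ s.re ∧ c < ‖deriv X s / X s‖ := by
  have hm : (1 : ℝ) ≤ m := by exact_mod_cast h.hm
  have hB := h.hB 1
  obtain ⟨r, hr⟩ : ∃ r : ℝ, r = |c| + 7 + B 1 := ⟨_, rfl⟩
  obtain ⟨S, hS⟩ : ∃ S : ℝ, S = 6 + 2 * Real.exp (2 * r + 10) := ⟨_, rfl⟩
  have hex := Real.exp_pos (2 * r + 10)
  have hge := ell_ge_of (m := m) (N := N) (μ := μ) h.re_le (y := 0) (S := S) (r := r) (by linarith)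
    (by rw [hS]; linarith)
  have h1 := dist_le h hθ (S := S) (y := 0) (by linarith) (w := 0) (by simp; linarith)
  refine ⟨1 / 2 + 2 * S + (0 : ℝ) * I, by simp; linarith, ?_⟩
  rw [add_zero, norm_zero, mul_zero, zero_add, logDeriv_apply] at h1
  have h2 := norm_sub_norm_le ((ell N μ 0 S : ℝ) : ℂ)
    (deriv X (1 / 2 + 2 * S + (0 : ℝ) * I) / X (1 / 2 + 2 * S + (0 : ℝ) * I))
  rw [norm_sub_rev, Complex.norm_real, Real.norm_eq_abs] at h2
  have h3 := le_abs_self (ell N μ 0 S)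
  have hlogN : 0 ≤ Real.log N := Real.log_nonneg h.hN
  have h4 := le_abs_self c
  have h5 : m * r = m * (|c| + 1) + m * (6 + B 1) := by rw [hr]; ring
  have h6 : 1 * (|c| + 1) ≤ m * (|c| + 1) := by
    have := abs_nonneg c
    gcongr
  linarith

/-- the class -/
lemma steps' (h : UL m B N θ μ X L) (hθ : θ ≤ 1) (n : ℕ) :
    (∃ z, iteratedDeriv n X z ≠ 0) ∧ Cl (1 / 2 + θ) (iteratedDeriv n X) ∧
      ∀ s : ℂ, 1 / 2 + (1 / 2 + θ) < s.re → iteratedDeriv n X s ≠ 0 ∧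
        ‖deriv (iteratedDeriv n X) s / iteratedDeriv n X s - deriv X s / X s‖ ≤
          4 * n / (s.re - 1 / 2 - (1 / 2 + θ)) :=
  steps h.cl (big h hθ (by linarith)) n

/-- the profile of the derivatives -/
lemma upn (h : UL m B N θ μ X L) (hθ : θ ≤ 1) (n : ℕ) {S : ℝ} (y : ℝ) (hS : 6 ≤ S) :
    ∃ G : ℝ, UP (81 * ((m * (18 + B 1) + 16 * n / S) * S)) (1 / 2) (S * ell N μ y S) G
      (fun u : ℂ => iteratedDeriv n X (1 / 2 + y * I + S * u)) := by
  have hS0 : 0 < S := by linarith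
  have hm : (1 : ℝ) ≤ m := by exact_mod_cast h.hm
  have hB := h.hB 1
  obtain ⟨-, hcl, hst⟩ := steps' h hθ n
  have hn0 : 0 ≤ 16 * (n : ℝ) / S := by positivity
  refine prof hcl.slow hcl.fe (by linarith) (by positivity) (fun s hs => (hst s (by linarith)).1) ?_
  intro w hw
  have h1 := dist_le h hθ hS hw
  obtain ⟨s, hs⟩ : ∃ s : ℂ, s = 1 / 2 + 2 * S + y * I + w := ⟨_, rfl⟩
  rw [← hs] at h1 hw ⊢
  obtain ⟨-, h2⟩ := hst s (by linarith)
  have h3 : 4 * (n : ℝ) / (s.re - 1 / 2 - (1 / 2 + θ)) ≤ 16 * n / S := by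
    rw [div_le_div_iff₀ (by linarith) hS0]
    have h4 : S ≤ 4 * (s.re - 1 / 2 - (1 / 2 + θ)) := by linarith
    have h5 : (0 : ℝ) ≤ 4 * n := by positivity
    nlinarith
  have e : logDeriv (iteratedDeriv n X) s - ell N μ y S =
      (deriv (iteratedDeriv n X) s / iteratedDeriv n X s - deriv X s / X s) +
      (logDeriv X s - ell N μ y S) := by
    rw [logDeriv_apply, logDeriv_apply]
    ring
  rw [e]
  refine (norm_add_le _ _).trans ?_
  have h6 : 0 ≤ ‖w‖ / S := by positivity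
  have e2 : m * (12 / S * ‖w‖ + 6 + B 1) = m * (12 * (‖w‖ / S) + 6 + B 1) := by ring
  rw [e2] at h1
  have h7 : m * (12 * (‖w‖ / S) + 6 + B 1) ≤ m * (18 + B 1) * (1 + ‖w‖ / S) := by
    rw [mul_assoc]
    apply mul_le_mul_of_nonneg_left _ (by linarith)
    have : 0 ≤ B 1 * (‖w‖ / S) := mul_nonneg hB h6
    linarith
  have h8 : 16 * (n : ℝ) / S ≤ 16 * n / S * (1 + ‖w‖ / S) := by
    have : 0 ≤ 16 * (n : ℝ) / S * (‖w‖ / S) := mul_nonneg hn0 h6
    linarith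
  calc _ ≤ 16 * (n : ℝ) / S + m * (12 * (‖w‖ / S) + 6 + B 1) := add_le_add (h2.trans h3) h1
    _ ≤ _ := by rw [add_mul]; linarith

/-- Case A: the heat flow dominates -/
theorem caseA {B : ℝ → ℝ} (hB : 0 ≤ B 1) : ∃ c M : ℝ, 0 < c ∧ c ≤ 1 ∧ 1 ≤ M ∧
    ∀ (m : ℕ) (N θ : ℝ) (μ : Fin m → ℂ) (X L : ℂ → ℂ), UL m B N θ μ X L → θ ≤ 1 →
    ∀ (S y t : ℝ) (n : ℕ), 6 ≤ S → M * m ≤ ell N μ y S → 0 < t → 2 * t * ell N μ y S = 3 * S →
      n ≤ c * (S * ell N μ y S) → ∀ x : ℝ, x ≠ 0 → |x| ≤ 2 →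
        heat t (iteratedDeriv n X) (1 / 2 + x + y * I) ≠ 0 := by
  obtain ⟨κ1, ℓ0, hκ1, H⟩ := fwd (ϑ0 := 1 / 2) (g := 1 / 2) (X := 3) (by norm_num) (by norm_num)
    (by norm_num) (by norm_num) (by norm_num)
  refine ⟨min 1 (κ1 / 2592), max 1 (max ℓ0 (162 * (18 + B 1) / κ1)), ?_, min_le_left _ _,
    le_max_left _ _, ?_⟩
  · exact lt_min one_pos (by positivity)
  intro m N θ μ X L h hθ S y t n hS hM ht h3 hn x hx hx2
  have hm : (1 : ℝ) ≤ m := by exact_mod_cast h.hm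
  have hS0 : 0 < S := by linarith
  obtain ⟨ℓ, hℓ⟩ : ∃ ℓ : ℝ, ℓ = ell N μ y S := ⟨_, rfl⟩
  obtain ⟨G, hG⟩ := upn h hθ n y hS
  rw [← hℓ] at hM h3 hn hG
  have hMm : max 1 (max ℓ0 (162 * (18 + B 1) / κ1)) ≤ ℓ := by
    refine le_trans ?_ hM
    have := le_max_left 1 (max ℓ0 (162 * (18 + B 1) / κ1))
    nlinarith
  have hℓ1 : 1 ≤ ℓ := (le_max_left _ _).trans hMm
  have hℓ0 : ℓ0 ≤ ℓ := ((le_max_left _ _).trans (le_max_right _ _)).trans hMm
  have hSℓ : ℓ ≤ S * ℓ := by nlinarith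
  have hcm : 162 * (18 + B 1) * m ≤ κ1 * ℓ := by
    have h4 : 162 * (18 + B 1) / κ1 * m ≤ ℓ := by
      refine le_trans ?_ hM
      apply mul_le_mul_of_nonneg_right _ (by linarith)
      exact (le_max_right _ _).trans (le_max_right _ _)
    rw [div_mul_eq_mul_div, div_le_iff₀ hκ1] at h4
    linarith
  have hn' : 2592 * (n : ℝ) ≤ κ1 * (S * ℓ) := by
    have h4 : (n : ℝ) ≤ κ1 / 2592 * (S * ℓ) := by
      refine hn.trans ?_
      apply mul_le_mul_of_nonneg_right (min_le_right _ _) (by positivity)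
    linarith
  have eK : 81 * ((m * (18 + B 1) + 16 * n / S) * S) = 81 * (18 + B 1) * m * S + 1296 * n := by
    field_simp
    ring
  have hx' : x / S ≠ 0 := div_ne_zero hx hS0.ne'
  have hx2' : |x / S| ≤ 2 := by
    rw [abs_div, abs_of_pos hS0, div_le_iff₀ hS0]
    nlinarith
  have e2 : 2 * (t / S ^ 2) * (S * ℓ) = 3 := by
    have : 2 * (t / S ^ 2) * (S * ℓ) = 2 * t * ℓ / S := by field_simp
    rw [this, h3]
    field_simp
  have hne := H _ (S * ℓ) G (t / S ^ 2) _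
    (by
      rw [eK]
      have h5 : 1 ≤ (m : ℝ) * S := by nlinarith
      have h6 : (0 : ℝ) ≤ n := Nat.cast_nonneg n
      have h7 : 0 ≤ B 1 * (m * S) := by positivity
      nlinarith)
    (by
      rw [eK]
      have h5 : 162 * (18 + B 1) * m * S ≤ κ1 * ℓ * S := mul_le_mul_of_nonneg_right hcm hS0.le
      linarith)
    (hℓ0.trans hSℓ) hG (by positivity) (by rw [e2]; norm_num) e2.le (x / S) hx' hx2'
  rw [heat_scale _ hS0] at hne
  have e : (1 / 2 + y * I + S * ((x / S : ℝ) : ℂ) : ℂ) = 1 / 2 + x + y * I := by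
    have : (S : ℂ) ≠ 0 := by exact_mod_cast hS0.ne'
    push_cast
    field_simp
    ring
  rwa [e] at hne

lemma scale_deriv' {Λ : ℂ → ℂ} (hΛ : Differentiable ℂ Λ) (c S : ℂ) (n : ℕ) (u : ℂ) :
    iteratedDeriv n (fun u => Λ (c + S * u)) u = S ^ n * iteratedDeriv n Λ (c + S * u) := by
  have hd : Differentiable ℂ (fun z : ℂ => Λ (c + z)) := by fun_prop
  have e : (fun u : ℂ => Λ (c + S * u)) = fun u : ℂ => (fun z => Λ (c + z)) (S * u) := rfl
  rw [e, iteratedDeriv_comp_const_mul (hd.contDiff) S]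
  have h2 := congrFun (iteratedDeriv_comp_const_add n Λ c) (S * u)
  simp only
  rw [h2]

/-- Case B: the derivatives dominate -/
theorem caseB (hup : S_HUP2) (hlow : S_HLOW) (hzer : S_ZER) {B : ℝ → ℝ} (hB : 0 ≤ B 1) {X0 : ℝ}
    (hX0 : 1 ≤ X0) : ∃ M : ℝ, 1 ≤ M ∧
    ∀ (m : ℕ) (N θ : ℝ) (μ : Fin m → ℂ) (X L : ℂ → ℂ), UL m B N θ μ X L → θ ≤ 1 →
    ∀ (S y t : ℝ) (n : ℕ), 6 ≤ S → M * m ≤ ell N μ y S → 0 ≤ t →
      2 * t * ell N μ y S ≤ X0 * S → (n : ℝ) = S * ell N μ y S → ∀ x : ℝ, |x| ≤ 2 →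
        iteratedDeriv n (heat t X) (1 / 2 + x + y * I) = 0 →
          x = 0 ∧ iteratedDeriv (n + 1) (heat t X) (1 / 2 + x + y * I) ≠ 0 := by
  obtain ⟨κ, n0, hκ, HZ⟩ := hzer
  obtain ⟨κa, ℓa, c, hκa, hc, HU⟩ := hup X0 hX0
  obtain ⟨κb, ℓb, hκb, HL⟩ := hlow X0 (1 / 8) 5 κ hX0 (by norm_num) (by norm_num) (by norm_num) hκ
  obtain ⟨κ1, hκ1d⟩ : ∃ κ1 : ℝ, κ1 = min (min κa κb) (κ / (51 * c)) := ⟨_, rfl⟩
  have hκ1 : 0 < κ1 := by rw [hκ1d]; exact lt_min (lt_min hκa hκb) (by positivity)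
  have hκ1a : κ1 ≤ κa := by rw [hκ1d]; exact (min_le_left _ _).trans (min_le_left _ _)
  have hκ1b : κ1 ≤ κb := by rw [hκ1d]; exact (min_le_left _ _).trans (min_le_right _ _)
  have hκ1c : κ1 * (51 * c) ≤ κ := by
    rw [← le_div_iff₀ (by positivity), hκ1d]; exact min_le_right _ _
  obtain ⟨M, hM⟩ : ∃ M : ℝ, M = 1 + |n0| + |ℓa| + |ℓb| + 81 * (18 + B 1) / κ1 := ⟨_, rfl⟩
  have hq : 0 < 81 * (18 + B 1) / κ1 := by positivity
  have a1 := abs_nonneg n0
  have a2 := abs_nonneg ℓa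
  have a3 := abs_nonneg ℓb
  refine ⟨M, by linarith, ?_⟩
  intro m N θ μ X L h hθ S y t n hS hMℓ ht h2 hn x hx hz
  have hm : (1 : ℝ) ≤ m := by exact_mod_cast h.hm
  have hS0 : 0 < S := by linarith
  have hSc : (S : ℂ) ≠ 0 := by exact_mod_cast hS0.ne'
  obtain ⟨ℓ, hℓ⟩ : ∃ ℓ : ℝ, ℓ = ell N μ y S := ⟨_, rfl⟩
  obtain ⟨G, hG⟩ := upn h hθ 0 y hS
  rw [← hℓ] at hMℓ h2 hn hG
  simp only [iteratedDeriv_zero, Nat.cast_zero, mul_zero, zero_div, add_zero] at hG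
  have hM1 : 1 ≤ M := by linarith
  have hMn : M ≤ n := by
    rw [hn]
    have h4 : M * 1 ≤ M * m := mul_le_mul_of_nonneg_left hm (by linarith)
    nlinarith
  obtain ⟨K, hK⟩ : ∃ K : ℝ, K = 81 * (m * (18 + B 1) * S) := ⟨_, rfl⟩
  rw [← hK, ← hn] at hG
  have hnpos : (0 : ℝ) < n := by linarith
  have hK1 : 1 ≤ K := by
    rw [hK]
    have h5 : 1 ≤ (m : ℝ) * S := by nlinarith
    have h7 : 0 ≤ B 1 * (m * S) := by positivity
    nlinarith
  have hKn : K ≤ κ1 * n := by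
    have h4 : 81 * (18 + B 1) / κ1 * m ≤ ℓ := by
      refine le_trans ?_ hMℓ
      apply mul_le_mul_of_nonneg_right _ (by linarith)
      linarith
    rw [div_mul_eq_mul_div, div_le_iff₀ hκ1] at h4
    rw [hK, hn]
    nlinarith
  have hKa : K ≤ κa * n := hKn.trans (mul_le_mul_of_nonneg_right hκ1a hnpos.le)
  have hKb : K ≤ κb * n := hKn.trans (mul_le_mul_of_nonneg_right hκ1b hnpos.le)
  have hKc : c * K * 51 ≤ κ * n := by
    have : c * 51 * K ≤ c * 51 * (κ1 * n) := by gcongr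
    calc c * K * 51 = c * 51 * K := by ring
      _ ≤ c * 51 * (κ1 * n) := this
      _ = κ1 * (51 * c) * n := by ring
      _ ≤ κ * n := by gcongr
  have hcK : K ≤ c * K := by nlinarith
  -- the heat flow at the scale
  obtain ⟨H, hH⟩ : ∃ H : ℂ → ℂ, H = fun u : ℂ => heat t X (1 / 2 + y * I + S * u) := ⟨_, rfl⟩
  have hHs : H = heat (t / S ^ 2) (fun u : ℂ => X (1 / 2 + y * I + S * u)) := by
    rw [hH]
    funext u
    rw [heat_scale _ hS0]
  obtain ⟨-, hcl⟩ := db_all _ _ h.cl h.nontriv t ht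
  have hHd : Differentiable ℂ H := by
    rw [hH]
    exact hcl.slow.1.comp (by fun_prop)
  have hfe : ∃ ε : ℂ, ‖ε‖ = 1 ∧ ∀ u : ℂ, H u = ε * conj (H (-conj u)) := by
    obtain ⟨ε, hε, hfe⟩ := hcl.fe
    refine ⟨ε, hε, fun u => ?_⟩
    rw [hH]
    simp only
    rw [hfe]
    congr 3
    simp only [map_add, map_mul, map_div₀, map_one, map_ofNat, conj_ofReal, conj_I]
    ring
  have hnorm : ∀ u : ℂ, |u.re| ≤ 5 → |u.im| ≤ 5 → 1 + ‖u‖ ^ 2 ≤ 51 := by
    intro u h1 h2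
    have := normsq_le h1 h2
    linarith
  obtain ⟨G', hG'⟩ : ∃ G' : ℝ, G' = G * Real.exp (t / S ^ 2 * n ^ 2) := ⟨_, rfl⟩
  have hG0 := hG.hG
  have hG'0 : 0 < G' := by rw [hG']; positivity
  have hmax : ∀ u : ℂ, (n : ℝ) * max |u.re| (1 / 2) ≤ n * max |u.re| (5 / 8) := by
    intro u
    apply mul_le_mul_of_nonneg_left _ hnpos.le
    exact max_le_max le_rfl (by norm_num)
  have hbounds : (∀ u : ℂ, |u.re| ≤ 5 → |u.im| ≤ 5 →
      ‖H u‖ ≤ G' * Real.exp (n * max |u.re| (5 / 8) + κ * n)) ∧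
      (∀ u : ℂ, 5 / 8 ≤ u.re → u.re ≤ 5 → |u.im| ≤ 5 →
        G' * Real.exp (n * u.re - κ * n) ≤ ‖H u‖) := by
    rcases ht.eq_or_lt with ht0 | ht0
    · have hHX : H = fun u : ℂ => X (1 / 2 + y * I + S * u) := by
        rw [hH, ← ht0, heat_zero_time X h.slow]
      have hGG : G' = G := by rw [hG', ← ht0]; simp
      constructor
      · intro u h1 h2
        rw [hHX, hGG]
        refine (hG.up u).trans ?_
        apply mul_le_mul_of_nonneg_left _ hG0.le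
        apply Real.exp_le_exp.2
        have h5 := hmax u
        have h6 : K * (1 + ‖u‖ ^ 2) ≤ K * 51 := by
          have := hnorm u h1 h2
          gcongr
        linarith
      · intro u h1 h2 h3
        rw [hHX, hGG]
        refine le_trans ?_ (hG.lo u (by linarith))
        apply mul_le_mul_of_nonneg_left _ hG0.le
        apply Real.exp_le_exp.2
        have h6 : K * (1 + ‖u‖ ^ 2) ≤ K * 51 := by
          have := hnorm u (by rw [abs_le]; constructor <;> linarith) h3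
          gcongr
        linarith
    · have htp : 0 < t / S ^ 2 := by positivity
      have h2t : 2 * (t / S ^ 2) * n ≤ X0 := by
        have : 2 * (t / S ^ 2) * n = 2 * t * ℓ / S := by
          rw [hn]
          field_simp
        rw [this, div_le_iff₀ hS0]
        exact h2
      constructor
      · intro u h1 h2
        rw [hHs, hG']
        refine (HU K n G (t / S ^ 2) _ hK1 hKa (by linarith [le_abs_self ℓa]) hG.toUD htp h2t u).trans ?_
        apply mul_le_mul_of_nonneg_left _ (by positivity)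
        apply Real.exp_le_exp.2
        have h5 := hmax u
        have h6 : c * K * (1 + ‖u‖ ^ 2) ≤ c * K * 51 := by
          have := hnorm u h1 h2
          have hcK0 : 0 ≤ c * K := by nlinarith
          gcongr
        linarith
      · intro u h1 h2 h3
        rw [hHs, hG']
        exact HL K n G (t / S ^ 2) _ hK1 hKb (by linarith [le_abs_self ℓb]) hG.toUD hG.der htp h2t u
          (by linarith) h2 h3
  have hxS : |x / S| ≤ 2 := by
    rw [abs_div, abs_of_pos hS0, div_le_iff₀ hS0]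
    nlinarith
  have e : (1 / 2 + y * I + S * ((x / S : ℝ) : ℂ) : ℂ) = 1 / 2 + x + y * I := by
    push_cast
    field_simp
    ring
  have hder : ∀ k : ℕ, iteratedDeriv k H ((x / S : ℝ) : ℂ) =
      (S : ℂ) ^ k * iteratedDeriv k (heat t X) (1 / 2 + x + y * I) := by
    intro k
    rw [hH, scale_deriv' hcl.slow.1, e]
  obtain ⟨r1, r2⟩ := HZ n G' H (by linarith [le_abs_self n0]) hHd hfe hG'0 hbounds.1 hbounds.2 (x / S) hxS
    (by rw [hder, hz, mul_zero])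
  refine ⟨?_, ?_⟩
  · rcases div_eq_zero_iff.1 r1 with h1 | h1
    · exact h1
    · exact absurd h1 hS0.ne'
  · intro h0
    apply r2
    rw [hder, h0, mul_zero]

end Pool.Agent.TH839.UH
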