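import Pool.Agent.H921R2.TatePole.BaseChange

/-!
# Euler products of degree two over the finite places of a number field
-/

set_option autoImplicit false

open Complex Filter Topology NumberField IsDedekindDomain Set
open scoped ComplexConjugate

namespace Pool.Agent.TH839.UH.NF

open Pool.Agent.H921R2.TatePole

section
variable {K : Type} [Field K] [NumberField K]
variable {a δ : HeightOneSpectrum (𝓞 K) → ℂ}

/-- the correction in the local factor `1 - a_v Nv^{-s} + δ_v Nv^{-2s}` -/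
noncomputable def gv (a δ : HeightOneSpectrum (𝓞 K) → ℂ) (v : HeightOneSpectrum (𝓞 K)) (s : ℂ) : ℂ :=
  -(a v * ((nm v : ℕ) : ℂ) ^ (-s)) + δ v * ((nm v : ℕ) : ℂ) ^ (-2 * s)

lemma nm0 (v : HeightOneSpectrum (𝓞 K)) : ((nm v : ℕ) : ℂ) ≠ 0 := by
  have := nm_ne_zero v
  exact_mod_cast this

lemma gv_le (ha : ∀ v, ‖a v‖ ≤ nm v) (hδ : ∀ v, ‖δ v‖ ≤ nm v) (v : HeightOneSpectrum (𝓞 K)) {s : ℂ}
    (hs : 9 / 4 ≤ s.re) : ‖gv a δ v s‖ ≤ 2 * (nm v : ℝ) ^ (-(5 / 4 : ℝ)) ∧ ‖gv a δ v s‖ ≤ 5 / 8 := by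
  have h2 := two_le_nm v
  have hn2 : (2 : ℝ) ≤ nm v := by exact_mod_cast h2
  have hn0 : (0 : ℝ) < nm v := by linarith
  have hn1 : (1 : ℝ) ≤ nm v := by linarith
  have e1 : ‖a v * ((nm v : ℕ) : ℂ) ^ (-s)‖ ≤ (nm v : ℝ) ^ (-(5 / 4 : ℝ)) := by
    rw [norm_mul, nm_cpow_norm]
    calc ‖a v‖ * (nm v : ℝ) ^ (-s.re) ≤ (nm v : ℝ) * (nm v : ℝ) ^ (-s.re) := by
          gcongr
          exact ha v
      _ = (nm v : ℝ) ^ (1 + -s.re) := by rw [Real.rpow_add hn0, Real.rpow_one]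
      _ ≤ _ := Real.rpow_le_rpow_of_exponent_le hn1 (by linarith)
  have e2 : ‖δ v * ((nm v : ℕ) : ℂ) ^ (-2 * s)‖ ≤ (nm v : ℝ) ^ (-(3 : ℝ)) := by
    have e3 : (-2 * s : ℂ) = -(2 * s) := by ring
    rw [norm_mul, e3, nm_cpow_norm]
    have e4 : (2 * s).re = 2 * s.re := by
      rw [show (2 : ℂ) = ((2 : ℝ) : ℂ) by norm_num, Complex.re_ofReal_mul]
    rw [e4]
    calc ‖δ v‖ * (nm v : ℝ) ^ (-(2 * s.re)) ≤ (nm v : ℝ) * (nm v : ℝ) ^ (-(2 * s.re)) := by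
          gcongr
          exact hδ v
      _ = (nm v : ℝ) ^ (1 + -(2 * s.re)) := by rw [Real.rpow_add hn0, Real.rpow_one]
      _ ≤ _ := Real.rpow_le_rpow_of_exponent_le hn1 (by linarith)
  have e3 : (nm v : ℝ) ^ (-(3 : ℝ)) ≤ (nm v : ℝ) ^ (-(5 / 4 : ℝ)) :=
    Real.rpow_le_rpow_of_exponent_le hn1 (by norm_num)
  have e5 : (nm v : ℝ) ^ (-(5 / 4 : ℝ)) ≤ 1 / 2 := nm_rpow_le_half v (by norm_num)
  have e6 : (nm v : ℝ) ^ (-(3 : ℝ)) ≤ 1 / 8 := by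
    rw [Real.rpow_neg hn0.le, ← one_div, show (3 : ℝ) = ((3 : ℕ) : ℝ) by norm_num, Real.rpow_natCast]
    have : (2 : ℝ) ^ 3 ≤ (nm v : ℝ) ^ 3 := by gcongr
    rw [div_le_div_iff₀ (by positivity) (by norm_num)]
    linarith
  have e7 : ‖gv a δ v s‖ ≤ ‖a v * ((nm v : ℕ) : ℂ) ^ (-s)‖ + ‖δ v * ((nm v : ℕ) : ℂ) ^ (-2 * s)‖ := by
    unfold gv
    refine (norm_add_le _ _).trans ?_
    rw [norm_neg]
  constructor <;> linarith

lemma log_le {z : ℂ} (hz : ‖z‖ ≤ 5 / 8) : ‖log (1 + z)‖ ≤ 2 * ‖z‖ := by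
  have h1 := Complex.norm_log_one_add_le (z := z) (by linarith)
  have h2 : (1 - ‖z‖)⁻¹ ≤ 8 / 3 := by
    rw [inv_le_comm₀ (by linarith) (by norm_num)]
    norm_num
    linarith
  have h3 := norm_nonneg z
  have h4 : ‖z‖ ^ 2 * (1 - ‖z‖)⁻¹ / 2 ≤ ‖z‖ := by
    have h5 : ‖z‖ ^ 2 * (1 - ‖z‖)⁻¹ ≤ ‖z‖ ^ 2 * (8 / 3) := by gcongr
    nlinarith
  linarith

lemma one_add_ne {z : ℂ} (hz : ‖z‖ ≤ 5 / 8) : 1 + z ≠ 0 := by
  intro h
  have h1 : z = -1 := by linear_combination h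
  rw [h1, norm_neg, norm_one] at hz
  norm_num at hz

lemma slit {z : ℂ} (hz : ‖z‖ ≤ 5 / 8) : 1 + z ∈ slitPlane := by
  rw [mem_slitPlane_iff]
  left
  rw [add_re, one_re]
  have := (abs_le.1 (Complex.abs_re_le_norm z)).1
  linarith

lemma nm_sum : Summable fun v : HeightOneSpectrum (𝓞 K) => (nm v : ℝ) ^ (-(5 / 4 : ℝ)) :=
  nm_summable (by norm_num)

/-- an absolute constant -/
noncomputable def B0 : ℝ := 4 * ∑' p : Nat.Primes, ((p : ℕ) : ℝ) ^ (-(5 / 4 : ℝ))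

lemma B0_nonneg : 0 ≤ B0 := by
  unfold B0
  have : 0 ≤ ∑' p : Nat.Primes, ((p : ℕ) : ℝ) ^ (-(5 / 4 : ℝ)) := tsum_nonneg fun p => by positivity
  linarith

lemma sum_le : ∑' v : HeightOneSpectrum (𝓞 K), (nm v : ℝ) ^ (-(5 / 4 : ℝ)) ≤
    Module.finrank ℚ K * ∑' p : Nat.Primes, ((p : ℕ) : ℝ) ^ (-(5 / 4 : ℝ)) := by
  rw [tsum_fiber nm_sum, ← tsum_mul_left]
  refine (summable_fiber nm_sum).tsum_le_tsum (fun p => ?_)
    ((summable_primes_rpow (by norm_num : (1 : ℝ) < 5 / 4)).mul_left _)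
  have h1 : ∀ v : {v : HeightOneSpectrum (𝓞 K) // below v = p},
      (nm v.1 : ℝ) ^ (-(5 / 4 : ℝ)) ≤ ((p : ℕ) : ℝ) ^ (-(5 / 4 : ℝ)) := by
    intro v
    have h2 := below_le_nm v.1
    rw [v.2] at h2
    have hp : (0 : ℝ) < ((p : ℕ) : ℝ) := by exact_mod_cast p.2.pos
    exact Real.rpow_le_rpow_of_nonpos hp (by exact_mod_cast h2) (by norm_num)
  refine (Finset.sum_le_sum fun v _ => h1 v).trans ?_
  rw [Finset.sum_const, nsmul_eq_mul]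
  refine mul_le_mul_of_nonneg_right ?_ (by positivity)
  have := fiber_card_le (K := K) p
  rw [Finset.card_univ]
  exact_mod_cast this

/-- the logarithm of the Euler product -/
noncomputable def LG (a δ : HeightOneSpectrum (𝓞 K) → ℂ) (s : ℂ) : ℂ := ∑' v, -log (1 + gv a δ v s)

lemma term_le (ha : ∀ v, ‖a v‖ ≤ nm v) (hδ : ∀ v, ‖δ v‖ ≤ nm v) (v : HeightOneSpectrum (𝓞 K)) {s : ℂ}
    (hs : 9 / 4 ≤ s.re) : ‖-log (1 + gv a δ v s)‖ ≤ 4 * (nm v : ℝ) ^ (-(5 / 4 : ℝ)) := by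
  obtain ⟨h1, h2⟩ := gv_le ha hδ v hs
  rw [norm_neg]
  have := log_le h2
  linarith

lemma LG_sum (ha : ∀ v, ‖a v‖ ≤ nm v) (hδ : ∀ v, ‖δ v‖ ≤ nm v) {s : ℂ} (hs : 9 / 4 ≤ s.re) :
    Summable fun v : HeightOneSpectrum (𝓞 K) => -log (1 + gv a δ v s) :=
  Summable.of_norm_bounded (nm_sum.mul_left 4) fun v => term_le ha hδ v hs

lemma LG_le (ha : ∀ v, ‖a v‖ ≤ nm v) (hδ : ∀ v, ‖δ v‖ ≤ nm v) {s : ℂ} (hs : 9 / 4 ≤ s.re) :
    ‖LG a δ s‖ ≤ Module.finrank ℚ K * B0 := by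
  unfold LG
  refine (tsum_of_norm_bounded (nm_sum.mul_left 4).hasSum fun v => term_le ha hδ v hs).trans ?_
  rw [tsum_mul_left]
  unfold B0
  have := sum_le (K := K)
  linarith

lemma LG_diff (ha : ∀ v, ‖a v‖ ≤ nm v) (hδ : ∀ v, ‖δ v‖ ≤ nm v) :
    DifferentiableOn ℂ (LG a δ) {s : ℂ | 9 / 4 < s.re} := by
  have hopen : IsOpen {s : ℂ | 9 / 4 < s.re} := isOpen_lt continuous_const Complex.continuous_re
  refine differentiableOn_tsum_of_summable_norm (u := fun v : HeightOneSpectrum (𝓞 K) =>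
    4 * (nm v : ℝ) ^ (-(5 / 4 : ℝ))) (nm_sum.mul_left 4) (fun v s hs => ?_) hopen
    (fun v s hs => term_le ha hδ v (le_of_lt hs))
  have hs' : 9 / 4 < s.re := hs
  have hg : DifferentiableAt ℂ (fun s => 1 + gv a δ v s) s := by
    unfold gv
    have h1 : DifferentiableAt ℂ (fun s : ℂ => ((nm v : ℕ) : ℂ) ^ (-s)) s :=
      DifferentiableAt.const_cpow (by fun_prop) (Or.inl (nm0 v))
    have h2 : DifferentiableAt ℂ (fun s : ℂ => ((nm v : ℕ) : ℂ) ^ (-2 * s)) s :=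
      DifferentiableAt.const_cpow (by fun_prop) (Or.inl (nm0 v))
    exact ((h1.const_mul (a v)).neg.add (h2.const_mul (δ v))).const_add 1
  exact (hg.clog (slit (gv_le ha hδ v hs'.le).2)).neg.differentiableWithinAt

/-- the Euler product -/
theorem prod_eq (ha : ∀ v, ‖a v‖ ≤ nm v) (hδ : ∀ v, ‖δ v‖ ≤ nm v) {s : ℂ} (hs : 9 / 4 ≤ s.re) :
    HasProd (fun v : HeightOneSpectrum (𝓞 K) => (1 + gv a δ v s)⁻¹) (cexp (LG a δ s)) := by
  have H := (LG_sum ha hδ hs).hasSum.cexp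
  refine H.congr_fun ?_ |> fun h => h
  intro v
  simp only [Function.comp_apply]
  rw [Complex.exp_neg, Complex.exp_log (one_add_ne (gv_le ha hδ v hs).2)]

/-- the logarithmic derivative -/
theorem logDeriv_le (ha : ∀ v, ‖a v‖ ≤ nm v) (hδ : ∀ v, ‖δ v‖ ≤ nm v) {s : ℂ} (hs : 5 / 2 ≤ s.re) :
    ‖logDeriv (fun s => ∏' v : HeightOneSpectrum (𝓞 K), (1 + gv a δ v s)⁻¹) s‖ ≤
      Module.finrank ℚ K * (8 * B0) := by
  have hopen : IsOpen {s : ℂ | 9 / 4 < s.re} := isOpen_lt continuous_const Complex.continuous_re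
  have hs' : s ∈ {s : ℂ | 9 / 4 < s.re} := by
    show 9 / 4 < s.re
    linarith
  have hev : (fun s => ∏' v : HeightOneSpectrum (𝓞 K), (1 + gv a δ v s)⁻¹) =ᶠ[𝓝 s]
      fun s => cexp (LG a δ s) := by
    filter_upwards [hopen.mem_nhds hs'] with z hz
    exact (prod_eq ha hδ (le_of_lt hz)).tprod_eq
  have hd : DifferentiableAt ℂ (LG a δ) s := (LG_diff ha hδ).differentiableAt (hopen.mem_nhds hs')
  have h1 : logDeriv (fun s => ∏' v : HeightOneSpectrum (𝓞 K), (1 + gv a δ v s)⁻¹) s =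
      deriv (LG a δ) s := by
    rw [logDeriv_apply, hev.deriv_eq, hev.eq_of_nhds, hd.hasDerivAt.cexp.deriv,
      mul_div_cancel_left₀ _ (Complex.exp_ne_zero _)]
  rw [h1]
  have hre : ∀ z : ℂ, ‖z - s‖ ≤ 1 / 8 → 9 / 4 < z.re := by
    intro z hz
    have h2 := (abs_le.1 ((Complex.abs_re_le_norm (z - s)).trans hz)).1
    rw [sub_re] at h2
    linarith
  have h2 := Complex.norm_deriv_le_of_forall_mem_sphere_norm_le (c := s) (R := 1 / 8)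
    (C := Module.finrank ℚ K * B0) (f := LG a δ) (by norm_num) ?_ (fun z hz => ?_)
  · refine h2.trans (le_of_eq ?_)
    ring
  · apply DifferentiableOn.diffContOnCl
    rw [closure_ball _ (by norm_num)]
    refine (LG_diff ha hδ).mono fun z hz => ?_
    rw [Metric.mem_closedBall, dist_eq_norm] at hz
    exact hre z hz
  · rw [mem_sphere_iff_norm] at hz
    exact LG_le ha hδ (hre z hz.le).le

end

end Pool.Agent.TH839.UH.NF
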