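import Pool.Agent.W169.HF.DefsB

/-!
# Project UH (helper839): derivatives of the heat flow, uniformly in the degree.  Statements
-/

set_option autoImplicit false

open Complex MeasureTheory Filter Topology Set
open scoped ComplexConjugate

namespace Pool.Agent.TH839.UH

open Pool.Agent.W169.HF

/-- HUP2: upper bound for the heat flow; the error `K` may be as large as `κ1 ℓ` -/
def S_HUP2 : Prop := ∀ X : ℝ, 1 ≤ X → ∃ κ1 ℓ0 c : ℝ, 0 < κ1 ∧ 1 ≤ c ∧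
  ∀ (K ℓ G t : ℝ) (f : ℂ → ℂ), 1 ≤ K → K ≤ κ1 * ℓ → ℓ0 ≤ ℓ → UD K (1 / 2) ℓ G f → 0 < t →
    2 * t * ℓ ≤ X → ∀ u : ℂ, ‖heat t f u‖ ≤
      G * Real.exp (t * ℓ ^ 2) * Real.exp (ℓ * max |u.re| (1 / 2) + c * K * (1 + ‖u‖ ^ 2))

/-- HLOW: lower bound for the heat flow to the right of the line, also for `t → 0` -/
def S_HLOW : Prop := ∀ X g R1 κ : ℝ, 1 ≤ X → 0 < g → g ≤ 1 / 4 → 1 ≤ R1 → 0 < κ →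
  ∃ κ1 ℓ0 : ℝ, 0 < κ1 ∧ ∀ (K ℓ G t : ℝ) (f : ℂ → ℂ), 1 ≤ K → K ≤ κ1 * ℓ → ℓ0 ≤ ℓ →
    UD K (1 / 2) ℓ G f → (∀ u : ℂ, 1 / 2 ≤ u.re → ‖logDeriv f u - ℓ‖ ≤ K * (1 + ‖u‖ ^ 2)) →
    0 < t → 2 * t * ℓ ≤ X → ∀ z : ℂ, 1 / 2 + g ≤ z.re → z.re ≤ R1 → |z.im| ≤ R1 →
      G * Real.exp (t * ℓ ^ 2) * Real.exp (ℓ * z.re - κ * ℓ) ≤ ‖heat t f z‖

/-- ZER: two-sided bounds with slope `n` give zeros of the `n`-th derivative on the line -/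
def S_ZER : Prop := ∃ κ n0 : ℝ, 0 < κ ∧ ∀ (n : ℕ) (G : ℝ) (H : ℂ → ℂ), n0 ≤ n →
  Differentiable ℂ H → (∃ ε : ℂ, ‖ε‖ = 1 ∧ ∀ u : ℂ, H u = ε * conj (H (-conj u))) → 0 < G →
  (∀ u : ℂ, |u.re| ≤ 5 → |u.im| ≤ 5 →
    ‖H u‖ ≤ G * Real.exp (n * max |u.re| (5 / 8) + κ * n)) →
  (∀ u : ℂ, 5 / 8 ≤ u.re → u.re ≤ 5 → |u.im| ≤ 5 → G * Real.exp (n * u.re - κ * n) ≤ ‖H u‖) →
  ∀ x : ℝ, |x| ≤ 2 → iteratedDeriv n H x = 0 → x = 0 ∧ iteratedDeriv (n + 1) H x ≠ 0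

/-- COMM: the heat flow commutes with differentiation -/
def S_COMM : Prop := ∀ f : ℂ → ℂ, Slow f → ∀ t : ℝ, 0 ≤ t → ∀ n : ℕ,
  Slow (iteratedDeriv n f) ∧ iteratedDeriv n (heat t f) = heat t (iteratedDeriv n f)

end Pool.Agent.TH839.UH
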