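import Pool.Agent.W613.HF.Step
import Pool.Agent.TH839.UH.Stm

/-!
# Derivatives: logarithmic derivatives to the right of the strip
-/

set_option autoImplicit false

open Complex Set Filter Topology Metric
open scoped ComplexConjugate

namespace Pool.Agent.TH839.UH

open Pool.Agent.W169.HF H353.E

/-- functions with nonnegative real part -/
lemma deriv_le_of_re {φ : ℂ → ℂ} {s : ℂ} {d : ℝ} (hd : 0 < d)
    (hφ : ∀ z ∈ ball s d, DifferentiableAt ℂ φ z) (hre : ∀ z ∈ ball s d, 0 ≤ (φ z).re)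
    (h0 : φ s ≠ 0) : ‖deriv φ s‖ ≤ 4 * ‖φ s‖ / d := by
  obtain ⟨g, hg⟩ : ∃ g : ℂ → ℂ, g = fun w => φ s - φ (s + w) := ⟨_, rfl⟩
  have hM : 0 < ‖φ s‖ := norm_pos_iff.2 h0
  have hmem : ∀ w ∈ ball (0 : ℂ) d, s + w ∈ ball s d := by
    intro w hw
    rw [mem_ball, dist_eq_norm, add_sub_cancel_left]
    rwa [mem_ball_zero_iff] at hw
  have hgd : ∀ w ∈ ball (0 : ℂ) d, HasDerivAt g (-deriv φ (s + w)) w := by
    intro w hw
    have h1 : HasDerivAt (fun w : ℂ => s + w) 1 w := (hasDerivAt_id w).const_add s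
    have h2 := HasDerivAt.comp w (hφ _ (hmem w hw)).hasDerivAt h1
    have h3 := h2.const_sub (φ s)
    rw [mul_one] at h3
    rw [hg]
    exact h3
  have hgD : DifferentiableOn ℂ g (ball 0 d) := fun w hw =>
    (hgd w hw).differentiableAt.differentiableWithinAt
  have hmap : Set.MapsTo g (ball 0 d) {z | z.re ≤ ‖φ s‖} := by
    intro w hw
    show (g w).re ≤ ‖φ s‖
    rw [hg]
    simp only [sub_re]
    have h1 := hre _ (hmem w hw)
    have h2 := re_le_norm (φ s)
    linarith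
  have hbd : ∀ w ∈ sphere (0 : ℂ) (d / 2), ‖g w‖ ≤ 2 * ‖φ s‖ := by
    intro w hw
    have hn : ‖w‖ = d / 2 := by rwa [mem_sphere_zero_iff_norm] at hw
    have hwb : w ∈ ball (0 : ℂ) d := by
      rw [mem_ball_zero_iff, hn]; linarith
    have h1 := Complex.borelCaratheodory_zero hM hgD hmap hd hwb (by rw [hg]; simp)
    rw [hn] at h1
    have e : 2 * ‖φ s‖ * (d / 2) / (d - d / 2) = 2 * ‖φ s‖ := by
      field_simp
      ring
    rwa [e] at h1
  have h1 := Complex.norm_deriv_le_of_forall_mem_sphere_norm_le (c := (0 : ℂ)) (R := d / 2)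
    (C := 2 * ‖φ s‖) (f := g) (by positivity) ?_ hbd
  · have h2 := (hgd 0 (by rw [mem_ball_zero_iff, norm_zero]; exact hd)).deriv
    rw [h2, add_zero, norm_neg] at h1
    refine h1.trans (le_of_eq ?_)
    field_simp
    ring
  · apply DifferentiableOn.diffContOnCl
    rw [closure_ball _ (by positivity)]
    intro w hw
    refine (hgd w ?_).differentiableAt.differentiableWithinAt
    rw [mem_closedBall_zero_iff] at hw
    rw [mem_ball_zero_iff]
    linarith

lemma slow_deriv {f : ℂ → ℂ} (hf : Slow f) : Slow (deriv f) := by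
  refine ⟨hf.1.deriv, fun δ hδ => ?_⟩
  obtain ⟨K, hK, hb⟩ := hf.2 (δ / 2) (by positivity)
  refine ⟨K * Real.exp δ, by positivity, fun z => ?_⟩
  have h3 := Complex.norm_deriv_le_of_forall_mem_sphere_norm_le (c := z) (R := 1)
    (C := K * Real.exp δ * Real.exp (δ * ‖z‖ ^ 2)) (f := f) one_pos hf.1.diffContOnCl
    (fun w hw => ?_)
  · simpa using h3
  · refine (hb w).trans ?_
    rw [mul_assoc, ← Real.exp_add]
    refine mul_le_mul_of_nonneg_left (Real.exp_le_exp.2 ?_) hK.le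
    rw [mem_sphere_iff_norm] at hw
    have h4 : ‖w‖ ≤ ‖z‖ + 1 := by
      have := norm_add_le (w - z) z
      rw [sub_add_cancel, hw] at this
      linarith
    have h5 : ‖w‖ ^ 2 ≤ (‖z‖ + 1) ^ 2 := pow_le_pow_left₀ (norm_nonneg w) h4 2
    have h6 : (‖z‖ + 1) ^ 2 ≤ 2 * ‖z‖ ^ 2 + 2 := by nlinarith [sq_nonneg (‖z‖ - 1)]
    nlinarith

lemma slow_iter {f : ℂ → ℂ} (hf : Slow f) (n : ℕ) : Slow (iteratedDeriv n f) := by
  induction n with
  | zero => simpa using hf
  | succ n ih =>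
    rw [iteratedDeriv_succ]
    exact slow_deriv ih

lemma fe_iter {f : ℂ → ℂ} (hf : Differentiable ℂ f) (h : Fe f) (n : ℕ) : Fe (iteratedDeriv n f) ∧
    Differentiable ℂ (iteratedDeriv n f) := by
  induction n with
  | zero => simpa using ⟨h, hf⟩
  | succ n ih =>
    rw [iteratedDeriv_succ]
    obtain ⟨⟨ε, hε, hfe⟩, hd⟩ := ih
    exact ⟨⟨-ε, by rw [norm_neg, hε], fe_deriv hd hfe⟩, hd.deriv⟩

lemma cl_glc {b : ℝ} {f : ℂ → ℂ} (h : Cl b f) : GLc b f := by
  obtain ⟨ε, hε, hfe⟩ := h.fe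
  exact ⟨h.slow.1, ⟨ε, hfe⟩, Pool.Agent.W613.HF.slow_growth h.slow, h.zer⟩

/-- one step -/
lemma step1 {b : ℝ} {f : ℂ → ℂ} (h : Cl b f) (hne : ∃ z, deriv f z ≠ 0) {s : ℂ}
    (hs : 1 / 2 + b < s.re) : f s ≠ 0 ∧ deriv f s ≠ 0 ∧
      ‖deriv (deriv f) s / deriv f s - deriv f s / f s‖ ≤ 4 / (s.re - 1 / 2 - b) := by
  have hg := cl_glc h
  have hne0 : ∃ z, f z ≠ 0 := by
    by_contra hcon
    push Not at hcon
    obtain ⟨z, hz⟩ := hne
    apply hz
    have : f = fun _ => 0 := funext hcon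
    rw [this]
    simp
  have hg' := hg.deriv hne
  have hd0 : 0 < s.re - 1 / 2 - b := by linarith
  have hre : ∀ z ∈ ball s (s.re - 1 / 2 - b), 1 / 2 + b < z.re := by
    intro z hz
    rw [mem_ball, dist_eq_norm] at hz
    have h1 := (abs_le.1 (Complex.abs_re_le_norm (z - s))).1
    rw [sub_re] at h1
    linarith
  have hf0 : ∀ z : ℂ, 1 / 2 + b < z.re → f z ≠ 0 := fun z hz h0 => by
    have := h.zer z h0
    linarith
  have hf1 : ∀ z : ℂ, 1 / 2 + b < z.re → deriv f z ≠ 0 := fun z hz h0 => by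
    have := hg'.zer z h0
    linarith
  have hdd : Differentiable ℂ (deriv f) := h.slow.1.deriv
  have h1 := deriv_le_of_re (φ := fun z => deriv f z / f z) (s := s) hd0
    (fun z hz => (hdd z).fun_div (h.slow.1 z) (hf0 z (hre z hz)))
    (fun z hz => Pool.Agent.W613.HF.re_nonneg hg hne0 (hre z hz))
    (div_ne_zero (hf1 s hs) (hf0 s hs))
  have h2 : deriv (fun z => deriv f z / f z) s =
      (deriv f s / f s) * (deriv (deriv f) s / deriv f s - deriv f s / f s) := by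
    have h3 := ((hdd s).hasDerivAt.fun_div (h.slow.1 s).hasDerivAt (hf0 s hs)).deriv
    rw [h3]
    have := hf0 s hs
    have := hf1 s hs
    field_simp
  refine ⟨hf0 s hs, hf1 s hs, ?_⟩
  rw [h2, norm_mul] at h1
  have h4 : 0 < ‖deriv f s / f s‖ := norm_pos_iff.2 (div_ne_zero (hf1 s hs) (hf0 s hs))
  have e : 4 * ‖deriv f s / f s‖ / (s.re - 1 / 2 - b) =
      ‖deriv f s / f s‖ * (4 / (s.re - 1 / 2 - b)) := by ring
  rw [e] at h1
  exact le_of_mul_le_mul_left h1 h4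

/-- all derivatives -/
theorem steps {b : ℝ} {f : ℂ → ℂ} (h : Cl b f)
    (hL : ∀ c : ℝ, ∃ s : ℂ, 1 / 2 + b + 1 ≤ s.re ∧ c < ‖deriv f s / f s‖) (n : ℕ) :
    (∃ z, iteratedDeriv n f z ≠ 0) ∧ Cl b (iteratedDeriv n f) ∧
      ∀ s : ℂ, 1 / 2 + b < s.re → iteratedDeriv n f s ≠ 0 ∧
        ‖deriv (iteratedDeriv n f) s / iteratedDeriv n f s - deriv f s / f s‖ ≤
          4 * n / (s.re - 1 / 2 - b) := by
  induction n with
  | zero =>
    obtain ⟨s, hs, -⟩ := hL 0
    have hf0 : ∀ z : ℂ, 1 / 2 + b < z.re → f z ≠ 0 := fun z hz h0 => by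
      have := h.zer z h0
      linarith
    rw [iteratedDeriv_zero]
    refine ⟨⟨s, hf0 s (by linarith)⟩, h, fun s hs => ⟨hf0 s hs, ?_⟩⟩
    simp
  | succ n ih =>
    obtain ⟨ih1, ih2, ih3⟩ := ih
    obtain ⟨s1, hs1, hs2⟩ := hL (4 * n)
    have hne : ∃ z, deriv (iteratedDeriv n f) z ≠ 0 := by
      refine ⟨s1, fun h0 => ?_⟩
      obtain ⟨-, h2⟩ := ih3 s1 (by linarith)
      rw [h0, zero_div, zero_sub, norm_neg] at h2
      have h3 : 4 * (n : ℝ) / (s1.re - 1 / 2 - b) ≤ 4 * n := by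
        rw [div_le_iff₀ (by linarith)]
        have : (0 : ℝ) ≤ 4 * n := by positivity
        nlinarith
      linarith
    have hst := fun (s : ℂ) (hs : 1 / 2 + b < s.re) => step1 ih2 hne hs
    have hcl : Cl b (deriv (iteratedDeriv n f)) := by
      obtain ⟨ε, hε, hfe⟩ := ih2.fe
      exact ⟨slow_deriv ih2.slow, ⟨-ε, by rw [norm_neg, hε], fe_deriv ih2.slow.1 hfe⟩,
        ((cl_glc ih2).deriv hne).zer⟩
    rw [iteratedDeriv_succ]
    refine ⟨hne, hcl, fun s hs => ?_⟩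
    obtain ⟨a1, a2, a3⟩ := hst s hs
    obtain ⟨-, b2⟩ := ih3 s hs
    refine ⟨a2, ?_⟩
    have e : deriv (deriv (iteratedDeriv n f)) s / deriv (iteratedDeriv n f) s - deriv f s / f s =
        (deriv (deriv (iteratedDeriv n f)) s / deriv (iteratedDeriv n f) s -
          deriv (iteratedDeriv n f) s / iteratedDeriv n f s) +
        (deriv (iteratedDeriv n f) s / iteratedDeriv n f s - deriv f s / f s) := by ring
    rw [e]
    refine (norm_add_le _ _).trans ((add_le_add a3 b2).trans (le_of_eq ?_))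
    push_cast
    ring

end Pool.Agent.TH839.UH
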