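import Pool.Agent.W355.UN.Glob
import Pool.Agent.TH839.UH.Pos

/-!
# The profile of a function at scale `S` (adapted from helper355's `UL.up`)
-/

set_option autoImplicit false

open Complex MeasureTheory Filter Topology Set
open scoped ComplexConjugate

namespace Pool.Agent.TH839.UH

open Pool.Agent.W169.HF H353.E Pool.Agent.W355.UN

theorem prof {F : ℂ → ℂ} {S A y ℓ : ℝ} (hsl : Slow F)
    (hfe0 : ∃ ε : ℂ, ‖ε‖ = 1 ∧ ∀ s : ℂ, F s = ε * conj (F (1 - conj s))) (hS : 1 ≤ S) (hA : 0 < A)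
    (hne : ∀ s : ℂ, 1 / 2 + S / 2 ≤ s.re → F s ≠ 0)
    (hdist0 : ∀ w : ℂ, 1 / 2 + S / 2 ≤ (1 / 2 + 2 * S + y * I + w : ℂ).re →
      ‖logDeriv F (1 / 2 + 2 * S + y * I + w) - ℓ‖ ≤ A * (1 + ‖w‖ / S)) :
    ∃ G : ℝ, UP (81 * (A * S)) (1 / 2) (S * ℓ) G (fun u : ℂ => F (1 / 2 + y * I + S * u)) := by
  have hS0 : 0 < S := by linarith
  obtain ⟨s0, hs0⟩ : ∃ s0 : ℂ, s0 = 1 / 2 + 2 * S + y * I := ⟨_, rfl⟩
  obtain ⟨K1, hK1⟩ : ∃ K1 : ℝ, K1 = 9 * (A * S) := ⟨_, rfl⟩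
  have hK10 : 0 < K1 := by rw [hK1]; positivity
  have hs0re : s0.re = 1 / 2 + 2 * S := by rw [hs0]; simp
  -- points
  have hpt : ∀ u : ℂ, (1 / 2 + y * I + S * u : ℂ) = s0 + S * (u - 2) := by
    intro u; rw [hs0]; ring
  have hdist : ∀ w : ℂ, 1 / 2 + S / 2 ≤ (s0 + w).re →
      ‖logDeriv F (s0 + w) - ℓ‖ ≤ A * (1 + ‖w‖ / S) := by
    intro w hw
    rw [hs0] at hw ⊢
    exact hdist0 w hw
  have hseg : ∀ u : ℂ, 1 / 2 ≤ u.re → ∀ τ ∈ Icc (0 : ℝ) 1,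
      1 / 2 + S / 2 ≤ (s0 + τ * (S * (u - 2))).re := by
    intro u hu τ hτ
    have e : (s0 + τ * (S * (u - 2))).re = 1 / 2 + S * (2 * (1 - τ) + τ * u.re) := by
      rw [add_re, hs0re, Complex.re_ofReal_mul, Complex.re_ofReal_mul]
      simp
      ring
    have h1 : 1 / 2 ≤ 2 * (1 - τ) + τ * u.re := by
      nlinarith [hτ.1, hτ.2, mul_nonneg hτ.1 (sub_nonneg.2 hu)]
    have h2 : S * (1 / 2) ≤ S * (2 * (1 - τ) + τ * u.re) := mul_le_mul_of_nonneg_left h1 hS0.le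
    rw [e]
    linarith
  have hKv : ∀ u : ℂ, ∀ τ ∈ Icc (0 : ℝ) 1,
      A * (1 + ‖(τ : ℂ) * (S * (u - 2))‖ / S) ≤ A * (1 + ‖u - 2‖) := by
    intro u τ hτ
    have : ‖(τ : ℂ) * (S * (u - 2))‖ / S ≤ ‖u - 2‖ := by
      rw [norm_mul, norm_mul, Complex.norm_real, Complex.norm_real, Real.norm_eq_abs,
        Real.norm_eq_abs, abs_of_pos hS0, abs_of_nonneg hτ.1]
      have e : τ * (S * ‖u - 2‖) / S = τ * ‖u - 2‖ := by field_simp
      rw [e]
      have := norm_nonneg (u - 2)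
      nlinarith [hτ.2]
    gcongr
  have hquad : ∀ u : ℂ, A * (1 + ‖u - 2‖) * (S * ‖u - 2‖) ≤ K1 * (1 + ‖u‖ ^ 2) := by
    intro u
    have h1 := norm_sub_two u
    have h2 := norm_nonneg (u - 2)
    have h3 := norm_nonneg u
    have h4 : (1 + ‖u - 2‖) * ‖u - 2‖ ≤ 9 * (1 + ‖u‖ ^ 2) := by
      have h5 : (1 + ‖u - 2‖) * ‖u - 2‖ ≤ (1 + (‖u‖ + 2)) * (‖u‖ + 2) := by gcongr
      nlinarith [sq_nonneg (‖u‖ - 1)]
    calc A * (1 + ‖u - 2‖) * (S * ‖u - 2‖) = A * S * ((1 + ‖u - 2‖) * ‖u - 2‖) := by ring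
      _ ≤ A * S * (9 * (1 + ‖u‖ ^ 2)) := by gcongr
      _ = K1 * (1 + ‖u‖ ^ 2) := by rw [hK1]; ring
  obtain ⟨G, hG⟩ : ∃ G : ℝ, G = ‖F s0‖ * Real.exp (-(2 * (S * ℓ))) := ⟨_, rfl⟩
  have hXs0 : F s0 ≠ 0 := hne _ (by rw [hs0re]; linarith)
  have hGpos : 0 < G := by
    rw [hG]
    have := norm_pos_iff.2 hXs0
    positivity
  have hGX : ‖F s0‖ = G * Real.exp (2 * (S * ℓ)) := by
    rw [hG, mul_assoc, ← Real.exp_add]; simp
  -- upper and lower bounds to the right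
  have hvre : ∀ u : ℂ, (S * (u - 2) : ℂ).re = S * (u.re - 2) := by
    intro u
    rw [Complex.re_ofReal_mul]
    simp
  have hvn : ∀ u : ℂ, ‖(S * (u - 2) : ℂ)‖ = S * ‖u - 2‖ := by
    intro u
    rw [norm_mul, Complex.norm_real, Real.norm_eq_abs, abs_of_pos hS0]
  have hup0 : ∀ u : ℂ, 1 / 2 ≤ u.re → ‖F (1 / 2 + y * I + S * u)‖ ≤
      G * Real.exp (S * ℓ * u.re + K1 * (1 + ‖u‖ ^ 2)) := by
    intro u hu
    rw [hpt]
    have h1 := seg (F := F) (s := s0) (v := S * (u - 2)) (ℓ := ℓ)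
      (K := A * (1 + ‖u - 2‖)) (fun τ _ => hsl.1 _)
      (fun τ hτ => hne _ (hseg u hu τ hτ))
      (fun τ hτ => (hdist _ (hseg u hu τ hτ)).trans (hKv u τ hτ))
    rw [hvre, hvn, hGX, mul_assoc, ← Real.exp_add] at h1
    refine h1.trans ?_
    apply mul_le_mul_of_nonneg_left _ hGpos.le
    apply Real.exp_le_exp.2
    have := hquad u
    linarith
  have hlo0 : ∀ u : ℂ, 1 / 2 ≤ u.re → G * Real.exp (S * ℓ * u.re - K1 * (1 + ‖u‖ ^ 2)) ≤
      ‖F (1 / 2 + y * I + S * u)‖ := by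
    intro u hu
    rw [hpt]
    have hback : ∀ τ ∈ Icc (0 : ℝ) 1, s0 + S * (u - 2) + τ * (-(S * (u - 2))) =
        s0 + ((1 - τ : ℝ) : ℂ) * (S * (u - 2)) := by
      intro τ _
      push_cast; ring
    have hmem : ∀ τ ∈ Icc (0 : ℝ) 1, (1 - τ) ∈ Icc (0 : ℝ) 1 := fun τ hτ =>
      ⟨by linarith [hτ.2], by linarith [hτ.1]⟩
    have h1 := seg (F := F) (s := s0 + S * (u - 2)) (v := -(S * (u - 2))) (ℓ := ℓ)
      (K := A * (1 + ‖u - 2‖)) (fun τ _ => hsl.1 _)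
      (fun τ hτ => by
        rw [hback τ hτ]
        exact hne _ (hseg u hu _ (hmem τ hτ)))
      (fun τ hτ => by
        rw [hback τ hτ]
        exact (hdist _ (hseg u hu _ (hmem τ hτ))).trans (hKv u _ (hmem τ hτ)))
    rw [add_neg_cancel_right, norm_neg, neg_re, hvre, hvn, hGX] at h1
    have h2 := hquad u
    calc G * Real.exp (S * ℓ * u.re - K1 * (1 + ‖u‖ ^ 2))
        = G * Real.exp (2 * (S * ℓ)) * Real.exp (S * ℓ * (u.re - 2) - K1 * (1 + ‖u‖ ^ 2)) := by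
          rw [mul_assoc G, ← Real.exp_add]
          congr 2
          ring
      _ ≤ ‖F (s0 + S * (u - 2))‖ * Real.exp (ℓ * -(S * (u.re - 2)) +
            A * (1 + ‖u - 2‖) * (S * ‖u - 2‖)) *
            Real.exp (S * ℓ * (u.re - 2) - K1 * (1 + ‖u‖ ^ 2)) := by gcongr
      _ = ‖F (s0 + S * (u - 2))‖ * Real.exp (A * (1 + ‖u - 2‖) * (S * ‖u - 2‖) -
            K1 * (1 + ‖u‖ ^ 2)) := by
          rw [mul_assoc, ← Real.exp_add]
          congr 2
          ring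
      _ ≤ ‖F (s0 + S * (u - 2))‖ * 1 := by
          apply mul_le_mul_of_nonneg_left _ (norm_nonneg _)
          apply Real.exp_le_one_iff.2
          linarith
      _ = _ := mul_one _
  -- functional equation
  obtain ⟨ε, hε, hfe⟩ := hfe0
  have hfe' : ∀ u : ℂ, F (1 / 2 + y * I + S * u) = ε * conj (F (1 / 2 + y * I + S * (-conj u))) := by
    intro u
    rw [hfe]
    congr 3
    simp only [map_add, map_mul, map_div₀, map_one, map_ofNat, conj_ofReal, conj_I]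
    ring
  have hfn : ∀ u : ℂ, ‖F (1 / 2 + y * I + S * u)‖ = ‖F (1 / 2 + y * I + S * (-conj u))‖ := by
    intro u
    rw [hfe' u, norm_mul, hε, one_mul, Complex.norm_conj]
  have hslow : Slow (fun u : ℂ => F (1 / 2 + y * I + S * u)) := slow_affine hsl _ hS0
  have hneg : ∀ u : ℂ, (-conj u).re = -u.re ∧ ‖-conj u‖ = ‖u‖ := by
    intro u
    constructor
    · simp
    · rw [norm_neg, Complex.norm_conj]
  have hedge : ∀ u : ℂ, |u.re| = 1 / 2 → ‖F (1 / 2 + y * I + S * u)‖ ≤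
      G * Real.exp (S * ℓ * (1 / 2)) * Real.exp (K1 * (1 + ‖u‖ ^ 2)) := by
    intro u hu
    rw [mul_assoc, ← Real.exp_add]
    rcases le_total 0 u.re with h1 | h1
    · rw [abs_of_nonneg h1] at hu
      have := hup0 u hu.ge
      rwa [hu] at this
    · rw [abs_of_nonpos h1] at hu
      have h2 := hup0 (-conj u) (by rw [(hneg u).1, hu])
      rw [(hneg u).1, (hneg u).2, ← hfn, hu] at h2
      exact h2
  have e81 : 81 * (A * S) = 9 * K1 := by rw [hK1]; ring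
  have h19 : ∀ u : ℂ, K1 * (1 + ‖u‖ ^ 2) ≤ 9 * K1 * (1 + ‖u‖ ^ 2) := by
    intro u
    have : 0 ≤ K1 * (1 + ‖u‖ ^ 2) := by positivity
    linarith
  rw [e81]
  refine ⟨G, { slow := hslow, fe := ⟨ε, hε, hfe'⟩, hG := hGpos, up := fun u => ?_, lo := fun u hu => ?_, der := fun u hu => ?_ }⟩
  · show ‖F (1 / 2 + y * I + S * u)‖ ≤ _
    have h9 := h19 u
    rcases le_or_gt |u.re| (1 / 2) with hc | hc
    · have h1 := strip hslow hK10 (by norm_num : (0:ℝ) < 1 / 2) hedge hc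
      refine h1.trans ?_
      rw [mul_assoc, ← Real.exp_add, max_eq_right hc]
      apply mul_le_mul_of_nonneg_left _ hGpos.le
      apply Real.exp_le_exp.2
      have : K1 * (1 + 2 * (1 / 2) ^ 2 + ‖u‖ ^ 2) ≤ 9 * K1 * (1 + ‖u‖ ^ 2) := by
        have h2 : 1 + 2 * (1 / 2 : ℝ) ^ 2 + ‖u‖ ^ 2 ≤ 9 * (1 + ‖u‖ ^ 2) := by nlinarith [sq_nonneg ‖u‖]
        calc K1 * (1 + 2 * (1 / 2) ^ 2 + ‖u‖ ^ 2) ≤ K1 * (9 * (1 + ‖u‖ ^ 2)) := by gcongr
          _ = _ := by ring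
      linarith
    · rw [max_eq_left hc.le]
      rcases le_total 0 u.re with h1 | h1
      · rw [abs_of_nonneg h1] at hc ⊢
        refine (hup0 u hc.le).trans ?_
        apply mul_le_mul_of_nonneg_left _ hGpos.le
        apply Real.exp_le_exp.2
        linarith
      · rw [abs_of_nonpos h1] at hc ⊢
        rw [hfn]
        have h2 := hup0 (-conj u) (by rw [(hneg u).1]; exact hc.le)
        rw [(hneg u).1, (hneg u).2] at h2
        refine h2.trans ?_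
        apply mul_le_mul_of_nonneg_left _ hGpos.le
        apply Real.exp_le_exp.2
        linarith
  · refine le_trans ?_ (hlo0 u hu)
    apply mul_le_mul_of_nonneg_left _ hGpos.le
    apply Real.exp_le_exp.2
    have := h19 u
    linarith
  · have h1 : logDeriv (fun u : ℂ => F (1 / 2 + y * I + S * u)) u =
        S * logDeriv F (1 / 2 + y * I + S * u) := by
      have h2 : HasDerivAt (fun u : ℂ => (1 / 2 + y * I + S * u : ℂ)) (S : ℂ) u := by
        simpa using ((hasDerivAt_id u).const_mul (S : ℂ)).const_add (1 / 2 + y * I : ℂ)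
      have h3 := HasDerivAt.comp u (hsl.1 (1 / 2 + y * I + S * u)).hasDerivAt h2
      have h4 : deriv (fun u : ℂ => F (1 / 2 + y * I + S * u)) u =
          deriv F (1 / 2 + y * I + S * u) * S := h3.deriv
      rw [logDeriv_apply, logDeriv_apply, h4]
      ring
    rw [h1, hpt]
    push_cast
    have e : (S : ℂ) * logDeriv F (s0 + S * (u - 2)) - S * ℓ =
        S * (logDeriv F (s0 + S * (u - 2)) - ℓ) := by ring
    rw [e, norm_mul, Complex.norm_real, Real.norm_eq_abs, abs_of_pos hS0]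
    have h5 := hseg u hu 1 (by simp)
    have h6 := hKv u 1 (by simp)
    rw [ofReal_one, one_mul] at h5 h6
    have h7 := (hdist _ h5).trans h6
    have h8 := norm_sub_two u
    have h9 := norm_nonneg u
    have h10 : 1 + ‖u - 2‖ ≤ 9 * (1 + ‖u‖ ^ 2) := by
      nlinarith [sq_nonneg (‖u‖ - 1)]
    calc S * ‖logDeriv F (s0 + S * (u - 2)) - ℓ‖ ≤ S * (A * (1 + ‖u - 2‖)) := by gcongr
      _ ≤ S * (A * (9 * (1 + ‖u‖ ^ 2))) := by gcongr
      _ = K1 * (1 + ‖u‖ ^ 2) := by rw [hK1]; ring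
      _ ≤ 9 * K1 * (1 + ‖u‖ ^ 2) := h19 u

end Pool.Agent.TH839.UH
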